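import Mathlib

set_option autoImplicit false

namespace Pool.Agent.H33.Bent

open Finset

/-- arrays indexed by `F_2^j` -/
abbrev Arr (j : ℕ) : Type := (Fin j → ZMod 2) → ℤ

/-- restriction to first coordinate `0` -/
def lo {j : ℕ} (X : Arr (j + 1)) : Arr j := fun u => X (Fin.cons 0 u)
/-- restriction to first coordinate `1` -/
def hi {j : ℕ} (X : Arr (j + 1)) : Arr j := fun u => X (Fin.cons 1 u)

/-- sign of an element of `F_2` -/
def sg (z : ZMod 2) : ℤ := (-1) ^ z.val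

theorem sg_zero : sg 0 = 1 := rfl
theorem sg_one : sg 1 = -1 := rfl

theorem sg_add (a b : ZMod 2) : sg (a + b) = sg a * sg b := by
  revert a b
  decide

theorem sg_sq (a : ZMod 2) : sg a * sg a = 1 := by
  revert a
  decide

/-- Walsh-Hadamard transform -/
def WH {j : ℕ} (X : Arr j) (a : Fin j → ZMod 2) : ℤ := ∑ x, X x * sg (∑ i, a i * x i)

/-- flat spectrum -/
def Flat {j : ℕ} (A : ℤ) (X : Arr j) : Prop := ∀ a, WH X a = A ∨ WH X a = -A

theorem sum_split {j : ℕ} (F : (Fin (j + 1) → ZMod 2) → ℤ) :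
    ∑ x, F x = ∑ u : Fin j → ZMod 2, (F (Fin.cons 0 u) + F (Fin.cons 1 u)) := by
  have h1 : ∑ x, F x = ∑ p : ZMod 2 × (Fin j → ZMod 2), F (Fin.cons p.1 p.2) := by
    refine (Fintype.sum_equiv (Fin.consEquiv fun _ => ZMod 2) _ _ ?_).symm
    intro p
    rfl
  rw [h1, Fintype.sum_prod_type, Finset.sum_add_distrib]
  exact Fin.sum_univ_two (f := fun z : ZMod 2 => ∑ u : Fin j → ZMod 2, F (Fin.cons z u))

theorem WH_cons {j : ℕ} (X : Arr (j + 1)) (a0 : ZMod 2) (b : Fin j → ZMod 2) :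
    WH X (Fin.cons a0 b) = WH (fun u => lo X u + sg a0 * hi X u) b := by
  unfold WH
  rw [sum_split]
  refine Finset.sum_congr rfl fun u _ => ?_
  rw [Fin.sum_univ_succ, Fin.sum_univ_succ]
  simp only [Fin.cons_zero, Fin.cons_succ, mul_zero, mul_one, zero_add]
  rw [sg_add]
  simp only [lo, hi]
  ring

/-- plus and minus parts -/
def pl {j : ℕ} (X : Arr (j + 1)) : Arr j := fun u => lo X u + hi X u
def mi {j : ℕ} (X : Arr (j + 1)) : Arr j := fun u => lo X u - hi X u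

theorem flat_pl {j : ℕ} {A : ℤ} {X : Arr (j + 1)} (h : Flat A X) : Flat A (pl X) := by
  intro b
  have h1 := h (Fin.cons 0 b)
  rw [WH_cons] at h1
  have e : (fun u => lo X u + sg 0 * hi X u) = pl X := by
    funext u
    rw [sg_zero, one_mul]
    rfl
  rw [e] at h1
  exact h1

theorem flat_mi {j : ℕ} {A : ℤ} {X : Arr (j + 1)} (h : Flat A X) : Flat A (mi X) := by
  intro b
  have h1 := h (Fin.cons 1 b)
  rw [WH_cons] at h1
  have e : (fun u => lo X u + sg 1 * hi X u) = mi X := by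
    funext u
    rw [sg_one]
    show _ = lo X u - hi X u
    ring
  rw [e] at h1
  exact h1

theorem ext_pl_mi {j : ℕ} {X Y : Arr (j + 1)} (h1 : pl X = pl Y) (h2 : mi X = mi Y) : X = Y := by
  have h3 : ∀ u, lo X u = lo Y u ∧ hi X u = hi Y u := by
    intro u
    have e1 := congrFun h1 u
    have e2 := congrFun h2 u
    simp only [pl, mi] at e1 e2
    constructor <;> omega
  funext x
  have hx : x = Fin.cons (x 0) (Fin.tail x) := (Fin.cons_self_tail x).symm
  have h01 : ∀ z : ZMod 2, z = 0 ∨ z = 1 := by decide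
  rcases h01 (x 0) with h | h
  · rw [hx, h]; exact (h3 (Fin.tail x)).1
  · rw [hx, h]; exact (h3 (Fin.tail x)).2

/-- the energy functional along the stopped Walsh tree -/
noncomputable def Q : (j r k : ℕ) → Arr j → ℝ
  | _, 0, k, X => ∑ u, (X u : ℝ) ^ 2 / 4 ^ k
  | 0, _ + 1, _, _ => 0
  | j + 1, r + 1, k, X => Q j (r + 2) k (pl X) + Q j r (k + 1) (mi X)

theorem Q_zero (j k : ℕ) (X : Arr j) : Q j 0 k X = ∑ u, (X u : ℝ) ^ 2 / 4 ^ k := by
  cases j <;> simp [Q]

theorem Q_leaf (r k : ℕ) (X : Arr 0) : Q 0 (r + 1) k X = 0 := by simp [Q]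

theorem Q_step (j r k : ℕ) (X : Arr (j + 1)) :
    Q (j + 1) (r + 1) k X = Q j (r + 2) k (pl X) + Q j r (k + 1) (mi X) := by
  simp [Q]

/-- number of surviving leaves -/
def Nn : (j r : ℕ) → ℕ
  | _, 0 => 0
  | 0, _ + 1 => 1
  | j + 1, r + 1 => Nn j (r + 2) + Nn j r

theorem Nn_zero (j : ℕ) : Nn j 0 = 0 := by cases j <;> simp [Nn]
theorem Nn_leaf (r : ℕ) : Nn 0 (r + 1) = 1 := by simp [Nn]
theorem Nn_step (j r : ℕ) : Nn (j + 1) (r + 1) = Nn j (r + 2) + Nn j r := by simp [Nn]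

/-- one-variable theta bound -/
theorem theta_nat (q : ℝ) (hq0 : 0 < q) (hq1 : q < 1) (S : Finset ℤ) :
    ∑ w ∈ S, q ^ w.natAbs ≤ (1 + q) / (1 - q) := by
  classical
  have hgeo : ∀ T : Finset ℕ, ∑ m ∈ T, q ^ m ≤ (1 - q)⁻¹ := by
    intro T
    rw [← tsum_geometric_of_lt_one hq0.le hq1]
    exact (summable_geometric_of_lt_one hq0.le hq1).sum_le_tsum T (fun _ _ => by positivity)
  have h1 : ∑ w ∈ S.filter (fun w => 0 ≤ w), q ^ w.natAbs ≤ (1 - q)⁻¹ := by
    rw [← Finset.sum_image (f := fun m : ℕ => q ^ m) (g := Int.natAbs)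
      (s := S.filter (fun w => 0 ≤ w))]
    · exact hgeo _
    · intro x hx y hy hxy
      have hx1 := (Finset.mem_filter.1 (Finset.mem_coe.1 hx)).2
      have hy1 := (Finset.mem_filter.1 (Finset.mem_coe.1 hy)).2
      have hxy1 : x.natAbs = y.natAbs := hxy
      omega
  have h2 : ∑ w ∈ S.filter (fun w => ¬ 0 ≤ w), q ^ w.natAbs ≤ q * (1 - q)⁻¹ := by
    have e : ∀ w ∈ S.filter (fun w => ¬ 0 ≤ w), q ^ w.natAbs = q * q ^ (w.natAbs - 1) := by
      intro w hw
      have := (Finset.mem_filter.1 hw).2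
      have h3 : w.natAbs = (w.natAbs - 1) + 1 := by omega
      conv_lhs => rw [h3]
      rw [pow_succ]; ring
    rw [Finset.sum_congr rfl e, ← Finset.mul_sum]
    apply mul_le_mul_of_nonneg_left _ hq0.le
    rw [← Finset.sum_image (f := fun m : ℕ => q ^ m) (g := fun w : ℤ => w.natAbs - 1)
      (s := S.filter (fun w => ¬ 0 ≤ w))]
    · exact hgeo _
    · intro x hx y hy hxy
      have hx1 := (Finset.mem_filter.1 (Finset.mem_coe.1 hx)).2
      have hy1 := (Finset.mem_filter.1 (Finset.mem_coe.1 hy)).2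
      have hxy1 : x.natAbs - 1 = y.natAbs - 1 := hxy
      omega
  rw [← Finset.sum_filter_add_sum_filter_not S (fun w => 0 ≤ w)]
  have h3 : (1 + q) / (1 - q) = (1 - q)⁻¹ + q * (1 - q)⁻¹ := by
    rw [div_eq_mul_inv]; ring
  rw [h3]
  exact add_le_add h1 h2

/-- the constant -/
noncomputable def th (t : ℝ) : ℝ := (1 + Real.exp (-t)) / (1 - Real.exp (-t))

theorem th_ge_one {t : ℝ} (ht : 0 < t) : 1 ≤ th t := by
  have h1 : Real.exp (-t) < 1 := by rw [Real.exp_lt_one_iff]; linarith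
  have h2 : 0 < Real.exp (-t) := Real.exp_pos _
  unfold th
  rw [le_div_iff₀ (by linarith)]
  linarith

theorem theta_coset {t : ℝ} (ht : 0 < t) (k : ℕ) (a : ℤ) (S : Finset ℤ)
    (hS : ∀ x ∈ S, (2 ^ (k + 1) : ℤ) ∣ x - a) :
    ∑ x ∈ S, Real.exp (-t * ((x : ℝ) ^ 2 / 4 ^ k)) ≤ th t := by
  classical
  -- representative with absolute value at most 2^k
  set P : ℤ := 2 ^ (k + 1) with hP
  have hPpos : 0 < P := by positivity
  obtain ⟨a', ha', ha1, ha2⟩ : ∃ a' : ℤ, P ∣ a' - a ∧ -(2 ^ k : ℤ) ≤ a' ∧ a' ≤ 2 ^ k := by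
    refine ⟨(a + 2 ^ k) % P - 2 ^ k, ?_, ?_, ?_⟩
    · have := Int.emod_add_mul_ediv (a + 2 ^ k) P
      refine ⟨-((a + 2 ^ k) / P), ?_⟩
      linarith
    · have := Int.emod_nonneg (a + 2 ^ k) hPpos.ne'
      linarith
    · have := Int.emod_lt_of_pos (a + 2 ^ k) hPpos
      have e : P = 2 ^ k + 2 ^ k := by rw [hP, pow_succ]; ring
      linarith
  have hw : ∀ x ∈ S, ∃ w : ℤ, x = a' + P * w := by
    intro x hx
    obtain ⟨c, hc⟩ := hS x hx
    obtain ⟨d, hd⟩ := ha'
    refine ⟨c - d, ?_⟩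
    rw [mul_sub]
    linarith
  let W : ℤ → ℤ := fun x => (x - a') / P
  have hW : ∀ x ∈ S, x = a' + P * W x := by
    intro x hx
    obtain ⟨w, hw⟩ := hw x hx
    have : W x = w := by
      simp only [W]
      rw [hw]
      rw [show a' + P * w - a' = P * w by ring]
      exact Int.mul_ediv_cancel_left _ hPpos.ne'
    rw [this]; exact hw
  have hle : ∀ x ∈ S, Real.exp (-t * ((x : ℝ) ^ 2 / 4 ^ k)) ≤ (Real.exp (-t)) ^ (W x).natAbs := by
    intro x hx
    rw [← Real.exp_nat_mul]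
    apply Real.exp_le_exp.2
    have h1 : ((W x).natAbs : ℝ) ≤ (x : ℝ) ^ 2 / 4 ^ k := by
      rw [le_div_iff₀ (by positivity)]
      -- |x| ≥ 2^k |w|
      set w := W x with hwx
      have hx' := hW x hx
      have h2 : (2 ^ k * (w.natAbs : ℤ) : ℤ) ≤ |x| := by
        rcases eq_or_ne w 0 with h0 | h0
        · rw [h0]; simp
        · have hwabs : 1 ≤ |w| := Int.one_le_abs h0
          have e1 : (w.natAbs : ℤ) = |w| := Int.natCast_natAbs w
          rw [e1]
          have h3 : |P * w| ≤ |x| + |a'| := by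
            have : P * w = x - a' := by linarith
            rw [this]
            exact abs_sub x a'
          have h4 : |P * w| = P * |w| := by rw [abs_mul, abs_of_pos hPpos]
          have h5 : |a'| ≤ 2 ^ k := abs_le.2 ⟨ha1, ha2⟩
          have h6 : P = 2 ^ k + 2 ^ k := by rw [hP, pow_succ]; ring
          have h7 : (0:ℤ) < 2 ^ k := by positivity
          nlinarith
      have h3 : ((2:ℝ) ^ k * (w.natAbs : ℝ)) ≤ |(x:ℝ)| := by
        have h3' := (Int.cast_le (R := ℝ)).2 h2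
        rw [Int.cast_mul, Int.cast_pow, Int.cast_abs, Int.cast_natCast, Int.cast_ofNat] at h3'
        exact h3'
      have h4 : ((2:ℝ) ^ k * w.natAbs) ^ 2 ≤ (x:ℝ) ^ 2 := by
        rw [← sq_abs (x:ℝ)]
        exact pow_le_pow_left₀ (by positivity) h3 2
      have h5 : (w.natAbs : ℝ) ≤ (w.natAbs : ℝ) ^ 2 := by
        have : w.natAbs ≤ w.natAbs ^ 2 := by
          rw [sq]; exact Nat.le_mul_self _
        exact_mod_cast this
      have h6 : ((2:ℝ) ^ k * w.natAbs) ^ 2 = (w.natAbs : ℝ) ^ 2 * 4 ^ k := by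
        rw [mul_pow, ← pow_mul, mul_comm k 2, pow_mul]; norm_num; ring
      rw [h6] at h4
      have h7 : (0:ℝ) < 4 ^ k := by positivity
      nlinarith
    nlinarith
  refine (Finset.sum_le_sum hle).trans ?_
  rw [← Finset.sum_image (f := fun w : ℤ => Real.exp (-t) ^ w.natAbs) (g := W) (s := S)]
  · exact theta_nat _ (Real.exp_pos _) (by rw [Real.exp_lt_one_iff]; linarith) _
  · intro x hx y hy hxy
    rw [hW x hx, hW y hy, hxy]

end Pool.Agent.H33.Bent
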