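import Pool.Agent.H33.BentAvg

set_option autoImplicit false

namespace Pool.Agent.H33.Bent

open Finset Filter Topology

theorem Nn_succ_le : ∀ (j r : ℕ), Nn (j + 1) r ≤ 2 * Nn j r := by
  intro j
  induction j with
  | zero =>
    intro r
    cases r with
    | zero => rw [Nn_zero]; exact Nat.zero_le _
    | succ r =>
      rw [Nn_step, Nn_leaf, Nn_leaf]
      cases r with
      | zero => rw [Nn_zero]; omega
      | succ r => rw [Nn_leaf]
  | succ j ih =>
    intro r
    cases r with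
    | zero => rw [Nn_zero]; exact Nat.zero_le _
    | succ r =>
      rw [Nn_step (j + 1) r, Nn_step j r]
      have h1 := ih (r + 2)
      have h2 := ih r
      omega

/-- normalized leaf count -/
noncomputable def pp (r : ℕ) (j : ℕ) : ℝ := (Nn j r : ℝ) / 2 ^ j

theorem pp_nonneg (r j : ℕ) : 0 ≤ pp r j := by unfold pp; positivity

theorem pp_antitone (r : ℕ) : Antitone (pp r) := by
  apply antitone_nat_of_succ_le
  intro j
  unfold pp
  rw [div_le_div_iff₀ (by positivity) (by positivity), pow_succ]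
  have h := Nn_succ_le j r
  have h' : ((Nn (j + 1) r : ℕ) : ℝ) ≤ 2 * (Nn j r : ℝ) := by exact_mod_cast h
  have h2 : (0:ℝ) < 2 ^ j := by positivity
  nlinarith

theorem pp_le_one (r j : ℕ) : pp r j ≤ 1 := by
  refine (pp_antitone r (Nat.zero_le j)).trans ?_
  unfold pp
  cases r with
  | zero => rw [Nn_zero]; norm_num
  | succ r => rw [Nn_leaf]; norm_num

/-- the limit -/
noncomputable def LL (r : ℕ) : ℝ := ⨅ j, pp r j

theorem tendsto_pp (r : ℕ) : Tendsto (pp r) atTop (𝓝 (LL r)) := by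
  apply tendsto_atTop_ciInf (pp_antitone r)
  exact ⟨0, by rintro _ ⟨j, rfl⟩; exact pp_nonneg r j⟩

theorem LL_zero : LL 0 = 0 := by
  have h1 := tendsto_pp 0
  have h2 : pp 0 = fun _ => 0 := by
    funext j
    unfold pp
    rw [Nn_zero]; simp
  rw [h2] at h1
  exact tendsto_nhds_unique h1 tendsto_const_nhds

theorem LL_le_one (r : ℕ) : LL r ≤ 1 :=
  le_of_tendsto (tendsto_pp r) (Eventually.of_forall fun j => pp_le_one r j)

theorem LL_nonneg (r : ℕ) : 0 ≤ LL r :=
  ge_of_tendsto (tendsto_pp r) (Eventually.of_forall fun j => pp_nonneg r j)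

theorem LL_rec (r : ℕ) : LL (r + 1) = (LL (r + 2) + LL r) / 2 := by
  have h1 : Tendsto (fun j => pp (r + 1) (j + 1)) atTop (𝓝 (LL (r + 1))) :=
    (tendsto_add_atTop_iff_nat 1).2 (tendsto_pp (r + 1))
  have h2 : Tendsto (fun j => (pp (r + 2) j + pp r j) / 2) atTop
      (𝓝 ((LL (r + 2) + LL r) / 2)) := ((tendsto_pp (r + 2)).add (tendsto_pp r)).div_const 2
  have h3 : (fun j => pp (r + 1) (j + 1)) = fun j => (pp (r + 2) j + pp r j) / 2 := by
    funext j
    unfold pp
    rw [Nn_step]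
    push_cast
    rw [pow_succ]
    field_simp
  rw [h3] at h1
  exact tendsto_nhds_unique h1 h2

theorem LL_lin (r : ℕ) : LL r = r * LL 1 ∧ LL (r + 1) = (r + 1) * LL 1 := by
  induction r with
  | zero =>
    rw [LL_zero]
    constructor
    · simp
    · simp
  | succ r ih =>
    have h := LL_rec r
    obtain ⟨h1, h2⟩ := ih
    refine ⟨by rw [h2]; push_cast; ring, ?_⟩
    have h3 : LL (r + 2) = 2 * LL (r + 1) - LL r := by linarith
    show LL (r + 2) = _
    rw [h3, h1, h2]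
    push_cast
    ring

theorem LL_eq_zero (r : ℕ) : LL r = 0 := by
  have h1 : LL 1 = 0 := by
    by_contra hne
    have hpos : 0 < LL 1 := lt_of_le_of_ne (LL_nonneg 1) (Ne.symm hne)
    obtain ⟨m, hm⟩ := exists_nat_gt (1 / LL 1)
    have h2 := LL_le_one m
    rw [(LL_lin m).1] at h2
    rw [div_lt_iff₀ hpos] at hm
    linarith
  rw [(LL_lin r).1, h1, mul_zero]

theorem tendsto_pp_zero (r : ℕ) : Tendsto (pp r) atTop (𝓝 0) := by
  have := tendsto_pp r
  rwa [LL_eq_zero] at this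

theorem tendsto_th : Tendsto th atTop (𝓝 1) := by
  have h1 : Tendsto (fun t : ℝ => Real.exp (-t)) atTop (𝓝 0) :=
    Real.tendsto_exp_neg_atTop_nhds_zero
  have h2 : Tendsto (fun t : ℝ => (1 + Real.exp (-t)) / (1 - Real.exp (-t))) atTop
      (𝓝 ((1 + 0) / (1 - 0))) := by
    apply Tendsto.div
    · exact tendsto_const_nhds.add h1
    · exact tendsto_const_nhds.sub h1
    · norm_num
  have e : ((1:ℝ) + 0) / (1 - 0) = 1 := by norm_num
  rw [e] at h2
  exact h2

theorem exists_t {δ : ℝ} (hδ : 0 < δ) : ∃ t : ℝ, 0 < t ∧ th t ≤ Real.exp δ := by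
  have h1 : (1:ℝ) < Real.exp δ := by
    rw [← Real.exp_zero]; exact Real.exp_lt_exp.2 hδ
  have h2 : ∀ᶠ t in atTop, th t ≤ Real.exp δ := by
    have := tendsto_th.eventually (ge_mem_nhds h1)
    exact this
  obtain ⟨t, ht1, ht2⟩ := (h2.and (eventually_gt_atTop (0:ℝ))).exists
  exact ⟨t, ht2, ht1⟩

/-- asymptotic form of the counting bound -/
theorem count_asym {ε : ℝ} (hε : 0 < ε) : ∃ N : ℕ, ∀ n ≥ N, ∀ (A : ℤ) (B : Finset (Arr n)),
    (∀ X ∈ B, ∀ u, X u = 1 ∨ X u = -1) → (∀ X ∈ B, Flat A X) →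
    (B.card : ℝ) ≤ Real.exp (ε * 2 ^ n) := by
  obtain ⟨t, ht, hth⟩ := exists_t (δ := ε / 4) (by positivity)
  -- choose K
  obtain ⟨K, hK⟩ : ∃ K : ℕ, t / 2 ^ K ≤ ε / 4 := by
    obtain ⟨K, hK⟩ := pow_unbounded_of_one_lt (t / (ε / 4)) (one_lt_two (α := ℝ))
    refine ⟨K, ?_⟩
    rw [div_le_iff₀ (by positivity)]
    rw [div_lt_iff₀ (by positivity)] at hK
    linarith
  -- choose N
  have h1 : ∀ᶠ n in atTop, pp K n ≤ ε / 4 := by
    have := (tendsto_pp_zero K).eventually (ge_mem_nhds (show (0:ℝ) < ε / 4 by positivity))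
    exact this
  have h2 : ∀ᶠ n : ℕ in atTop, (n : ℝ) / 2 ^ n ≤ ε / 4 := by
    have h3 : Tendsto (fun n : ℕ => (n : ℝ) / 2 ^ n) atTop (𝓝 0) := by
      have := tendsto_pow_const_div_const_pow_of_one_lt 1 (one_lt_two (α := ℝ))
      simpa using this
    exact h3.eventually (ge_mem_nhds (show (0:ℝ) < ε / 4 by positivity))
  obtain ⟨N, hN⟩ := eventually_atTop.1 (h1.and h2)
  refine ⟨N, ?_⟩
  intro n hn A B hB1 hB2
  obtain ⟨h3, h4⟩ := hN n hn
  have h5 := count_bound ht n K B hB1 hB2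
  refine h5.trans ?_
  have hpow : ∀ m : ℕ, (2:ℝ) ^ m ≤ Real.exp m := by
    intro m
    have h6 : (2:ℝ) ≤ Real.exp 1 := by
      have := Real.add_one_le_exp (1:ℝ)
      linarith
    calc (2:ℝ) ^ m ≤ (Real.exp 1) ^ m := pow_le_pow_left₀ (by norm_num) h6 m
      _ = Real.exp m := by rw [← Real.exp_nat_mul, mul_one]
  have hthn : th t ^ 2 ^ n ≤ Real.exp (ε / 4 * 2 ^ n) := by
    calc th t ^ 2 ^ n ≤ (Real.exp (ε / 4)) ^ 2 ^ n :=
          pow_le_pow_left₀ (le_trans zero_le_one (th_ge_one ht)) hth _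
      _ = Real.exp (ε / 4 * 2 ^ n) := by
          rw [← Real.exp_nat_mul]
          congr 1
          push_cast
          ring
  have h2n : (0:ℝ) < 2 ^ n := by positivity
  have hn4 : (n : ℝ) ≤ ε / 4 * 2 ^ n := by
    rw [div_le_iff₀ h2n] at h4
    exact h4
  have hN4 : (Nn n K : ℝ) ≤ ε / 4 * 2 ^ n := by
    unfold pp at h3
    rw [div_le_iff₀ h2n] at h3
    exact h3
  have hK4 : t * (2 ^ n / 2 ^ K) ≤ ε / 4 * 2 ^ n := by
    have : t * (2 ^ n / 2 ^ K) = t / 2 ^ K * 2 ^ n := by ring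
    rw [this]
    exact mul_le_mul_of_nonneg_right hK h2n.le
  calc (2:ℝ) ^ n * (Real.exp (t * (2 ^ n / 2 ^ K)) * (2 ^ Nn n K * th t ^ 2 ^ n))
      ≤ Real.exp n * (Real.exp (ε / 4 * 2 ^ n) * (Real.exp (Nn n K) *
          Real.exp (ε / 4 * 2 ^ n))) := by
        apply mul_le_mul (hpow n) _ _ (Real.exp_pos _).le
        · apply mul_le_mul (Real.exp_le_exp.2 hK4) _ _ (Real.exp_pos _).le
          · apply mul_le_mul (hpow _) hthn _ (Real.exp_pos _).le
            exact pow_nonneg (le_trans zero_le_one (th_ge_one ht)) _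
          · have := le_trans zero_le_one (th_ge_one ht)
            positivity
        · have := le_trans zero_le_one (th_ge_one ht)
          positivity
    _ = Real.exp (n + (ε / 4 * 2 ^ n + (Nn n K + ε / 4 * 2 ^ n))) := by
        rw [Real.exp_add, Real.exp_add, Real.exp_add]
    _ ≤ Real.exp (ε * 2 ^ n) := by
        apply Real.exp_le_exp.2
        linarith

end Pool.Agent.H33.Bent
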