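import Pool.Agent.H33.BentF

set_option autoImplicit false

namespace Pool.Agent.H33.Bent

open Finset

theorem sum_split_real {j : ℕ} (F : (Fin (j + 1) → ZMod 2) → ℝ) :
    ∑ x, F x = ∑ u : Fin j → ZMod 2, (F (Fin.cons 0 u) + F (Fin.cons 1 u)) := by
  have h1 : ∑ x, F x = ∑ p : ZMod 2 × (Fin j → ZMod 2), F (Fin.cons p.1 p.2) := by
    refine (Fintype.sum_equiv (Fin.consEquiv fun _ => ZMod 2) _ _ ?_).symm
    intro p
    rfl
  rw [h1, Fintype.sum_prod_type, Finset.sum_add_distrib]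
  exact Fin.sum_univ_two (f := fun z : ZMod 2 => ∑ u : Fin j → ZMod 2, F (Fin.cons z u))

/-- multiplication by the character with index `l` -/
def tw {j : ℕ} (l : Fin j → ZMod 2) (X : Arr j) : Arr j := fun u => X u * sg (∑ i, l i * u i)

theorem WH_tw {j : ℕ} (l : Fin j → ZMod 2) (X : Arr j) (a : Fin j → ZMod 2) :
    WH (tw l X) a = WH X (fun i => a i + l i) := by
  unfold WH tw
  refine Finset.sum_congr rfl fun x _ => ?_
  have e : ∑ i, (a i + l i) * x i = ∑ i, l i * x i + ∑ i, a i * x i := by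
    rw [← Finset.sum_add_distrib]
    refine Finset.sum_congr rfl fun i _ => ?_
    ring
  rw [e, sg_add]
  ring

theorem flat_tw {j : ℕ} {A : ℤ} {X : Arr j} (l : Fin j → ZMod 2) (h : Flat A X) :
    Flat A (tw l X) := by
  intro a
  rw [WH_tw]
  exact h _

theorem tw_tw {j : ℕ} (l : Fin j → ZMod 2) (X : Arr j) : tw l (tw l X) = X := by
  funext u
  unfold tw
  rw [mul_assoc, sg_sq, mul_one]

theorem lo_tw {j : ℕ} (l0 : ZMod 2) (l : Fin j → ZMod 2) (X : Arr (j + 1)) :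
    lo (tw (Fin.cons l0 l) X) = tw l (lo X) := by
  funext u
  unfold lo tw
  rw [Fin.sum_univ_succ]
  simp only [Fin.cons_zero, Fin.cons_succ, mul_zero, zero_add]

theorem hi_tw {j : ℕ} (l0 : ZMod 2) (l : Fin j → ZMod 2) (X : Arr (j + 1)) (u : Fin j → ZMod 2) :
    hi (tw (Fin.cons l0 l) X) u = sg l0 * tw l (hi X) u := by
  unfold hi tw
  rw [Fin.sum_univ_succ]
  simp only [Fin.cons_zero, Fin.cons_succ, mul_one]
  rw [sg_add]
  ring

theorem tw_pl0 {j : ℕ} (l : Fin j → ZMod 2) (X : Arr (j + 1)) :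
    pl (tw (Fin.cons 0 l) X) = tw l (pl X) := by
  funext u
  show lo (tw (Fin.cons 0 l) X) u + hi (tw (Fin.cons 0 l) X) u = _
  rw [lo_tw, hi_tw, sg_zero]
  unfold tw pl
  ring

theorem tw_mi0 {j : ℕ} (l : Fin j → ZMod 2) (X : Arr (j + 1)) :
    mi (tw (Fin.cons 0 l) X) = tw l (mi X) := by
  funext u
  show lo (tw (Fin.cons 0 l) X) u - hi (tw (Fin.cons 0 l) X) u = _
  rw [lo_tw, hi_tw, sg_zero]
  unfold tw mi
  ring

theorem tw_pl1 {j : ℕ} (l : Fin j → ZMod 2) (X : Arr (j + 1)) :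
    pl (tw (Fin.cons 1 l) X) = tw l (mi X) := by
  funext u
  show lo (tw (Fin.cons 1 l) X) u + hi (tw (Fin.cons 1 l) X) u = _
  rw [lo_tw, hi_tw, sg_one]
  unfold tw mi
  ring

theorem tw_mi1 {j : ℕ} (l : Fin j → ZMod 2) (X : Arr (j + 1)) :
    mi (tw (Fin.cons 1 l) X) = tw l (pl X) := by
  funext u
  show lo (tw (Fin.cons 1 l) X) u - hi (tw (Fin.cons 1 l) X) u = _
  rw [lo_tw, hi_tw, sg_one]
  unfold tw pl
  ring

/-- squared norm -/
noncomputable def nm {j : ℕ} (X : Arr j) : ℝ := ∑ u, (X u : ℝ) ^ 2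

theorem nm_nonneg {j : ℕ} (X : Arr j) : 0 ≤ nm X :=
  Finset.sum_nonneg fun _ _ => sq_nonneg _

theorem sg_sq_real (a : ZMod 2) : ((sg a : ℤ) : ℝ) ^ 2 = 1 := by
  have := sg_sq a
  have h2 : ((sg a * sg a : ℤ) : ℝ) = 1 := by rw [this]; simp
  rw [sq]
  rw [Int.cast_mul] at h2
  exact h2

theorem nm_tw {j : ℕ} (l : Fin j → ZMod 2) (X : Arr j) : nm (tw l X) = nm X := by
  unfold nm tw
  refine Finset.sum_congr rfl fun u _ => ?_
  rw [Int.cast_mul, mul_pow, sg_sq_real, mul_one]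

theorem nm_pl_mi {j : ℕ} (X : Arr (j + 1)) : nm (pl X) + nm (mi X) = 2 * nm X := by
  unfold nm
  rw [sum_split_real, ← Finset.sum_add_distrib, Finset.mul_sum]
  refine Finset.sum_congr rfl fun u _ => ?_
  show (((X (Fin.cons 0 u) + X (Fin.cons 1 u) : ℤ)) : ℝ) ^ 2 +
    (((X (Fin.cons 0 u) - X (Fin.cons 1 u) : ℤ)) : ℝ) ^ 2 = _
  push_cast
  ring

theorem lemmaAvg : ∀ (j r k : ℕ) (X : Arr j),
    ∑ l, Q j r k (tw l X) ≤ 2 ^ j / (2 ^ r * 4 ^ k) * nm X := by
  have hz : ∀ (j k : ℕ) (X : Arr j),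
      ∑ l, Q j 0 k (tw l X) ≤ 2 ^ j / (2 ^ 0 * 4 ^ k) * nm X := by
    intro j k X
    have e : ∀ l, Q j 0 k (tw l X) = nm X / 4 ^ k := by
      intro l
      rw [Q_zero, ← Finset.sum_div]
      have := nm_tw l X
      unfold nm at this
      rw [this]
      rfl
    rw [Finset.sum_congr rfl fun l _ => e l]
    rw [Finset.sum_const, Finset.card_univ, Fintype.card_fun, ZMod.card, Fintype.card_fin,
      nsmul_eq_mul]
    push_cast
    apply le_of_eq
    field_simp
  intro j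
  induction j with
  | zero =>
    intro r k X
    cases r with
    | zero => exact hz 0 k X
    | succ r =>
      rw [Finset.sum_congr rfl fun l _ => Q_leaf r k (tw l X)]
      rw [Finset.sum_const_zero]
      have := nm_nonneg X
      positivity
  | succ j ih =>
    intro r k X
    cases r with
    | zero => exact hz (j + 1) k X
    | succ r =>
      rw [sum_split_real]
      have e : ∀ l : Fin j → ZMod 2,
          Q (j + 1) (r + 1) k (tw (Fin.cons 0 l) X) + Q (j + 1) (r + 1) k (tw (Fin.cons 1 l) X) =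
          (Q j (r + 2) k (tw l (pl X)) + Q j r (k + 1) (tw l (mi X))) +
          (Q j (r + 2) k (tw l (mi X)) + Q j r (k + 1) (tw l (pl X))) := by
        intro l
        rw [Q_step, Q_step, tw_pl0, tw_mi0, tw_pl1, tw_mi1]
      rw [Finset.sum_congr rfl fun l _ => e l]
      rw [Finset.sum_add_distrib, Finset.sum_add_distrib, Finset.sum_add_distrib]
      have h1 := ih (r + 2) k (pl X)
      have h2 := ih r (k + 1) (mi X)
      have h3 := ih (r + 2) k (mi X)
      have h4 := ih r (k + 1) (pl X)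
      have h5 := nm_pl_mi X
      have e6 : (2:ℝ) ^ (j + 1) / (2 ^ (r + 1) * 4 ^ k) * nm X =
          2 ^ j / (2 ^ (r + 2) * 4 ^ k) * nm (pl X) + 2 ^ j / (2 ^ r * 4 ^ (k + 1)) * nm (mi X) +
          (2 ^ j / (2 ^ (r + 2) * 4 ^ k) * nm (mi X) +
            2 ^ j / (2 ^ r * 4 ^ (k + 1)) * nm (pl X)) := by
        have e7 : nm (pl X) = 2 * nm X - nm (mi X) := by linarith
        rw [e7]
        field_simp
        ring
      rw [e6]
      linarith

theorem tw_inj {j : ℕ} (l : Fin j → ZMod 2) : Function.Injective (tw l) := by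
  intro X Y h
  rw [← tw_tw l X, h, tw_tw]

theorem count_bound {t : ℝ} (ht : 0 < t) (n K : ℕ) {A : ℤ} (B : Finset (Arr n))
    (h1 : ∀ X ∈ B, ∀ u, X u = 1 ∨ X u = -1) (h2 : ∀ X ∈ B, Flat A X) :
    (B.card : ℝ) ≤ 2 ^ n * (Real.exp (t * (2 ^ n / 2 ^ K)) * (2 ^ Nn n K * th t ^ 2 ^ n)) := by
  classical
  -- each X has a good l
  have hgood : ∀ X ∈ B, ∃ l : Fin n → ZMod 2, Q n K 0 (tw l X) ≤ 2 ^ n / 2 ^ K := by
    intro X hX
    by_contra hcon
    push Not at hcon
    have h3 : ∑ _l : Fin n → ZMod 2, ((2:ℝ) ^ n / 2 ^ K) < ∑ l, Q n K 0 (tw l X) :=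
      Finset.sum_lt_sum_of_nonempty Finset.univ_nonempty fun l _ => hcon l
    have h4 := lemmaAvg n K 0 X
    have h5 : nm X = 2 ^ n := by
      unfold nm
      have : ∀ u, ((X u : ℤ) : ℝ) ^ 2 = 1 := by
        intro u
        rcases h1 X hX u with h | h <;> rw [h] <;> norm_num
      rw [Finset.sum_congr rfl fun u _ => this u]
      rw [Finset.sum_const, Finset.card_univ, Fintype.card_fun, ZMod.card, Fintype.card_fin]
      simp
    rw [h5] at h4
    rw [Finset.sum_const, Finset.card_univ, Fintype.card_fun, ZMod.card, Fintype.card_fin,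
      nsmul_eq_mul] at h3
    push_cast at h3
    have h6 : (2:ℝ) ^ n / (2 ^ K * 4 ^ 0) * 2 ^ n = 2 ^ n * (2 ^ n / 2 ^ K) := by
      rw [pow_zero, mul_one]; ring
    rw [h6] at h4
    linarith
  have hsum : ∀ l : Fin n → ZMod 2,
      ∑ X ∈ B, Real.exp (-t * Q n K 0 (tw l X)) ≤ 2 ^ Nn n K * th t ^ 2 ^ n := by
    intro l
    rw [← Finset.sum_image (f := fun Z : Arr n => Real.exp (-t * Q n K 0 Z)) (g := tw l)
      (s := B) (fun X _ Y _ h => tw_inj l h)]
    apply lemmaF ht n K 0 (fun _ => 1)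
    · intro Z hZ
      obtain ⟨X, hX, rfl⟩ := Finset.mem_image.1 hZ
      exact flat_tw l (h2 X hX)
    · intro Z hZ u
      obtain ⟨X, hX, rfl⟩ := Finset.mem_image.1 hZ
      have hsg : ∀ z : ZMod 2, sg z = 1 ∨ sg z = -1 := by decide
      show (2 ^ (0 + 1) : ℤ) ∣ X u * sg _ - 1
      rcases h1 X hX u with h | h <;> rcases hsg (∑ i, l i * u i) with h' | h' <;>
        rw [h, h'] <;> norm_num
  calc (B.card : ℝ) = ∑ X ∈ B, (1:ℝ) := by simp
    _ ≤ ∑ X ∈ B, ∑ l, Real.exp (t * (2 ^ n / 2 ^ K)) * Real.exp (-t * Q n K 0 (tw l X)) := by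
        apply Finset.sum_le_sum
        intro X hX
        obtain ⟨l, hl⟩ := hgood X hX
        refine le_trans ?_ (Finset.single_le_sum
          (f := fun l => Real.exp (t * (2 ^ n / 2 ^ K)) * Real.exp (-t * Q n K 0 (tw l X)))
          (fun l _ => by positivity) (Finset.mem_univ l))
        show 1 ≤ Real.exp (t * (2 ^ n / 2 ^ K)) * Real.exp (-t * Q n K 0 (tw l X))
        rw [← Real.exp_add]
        apply Real.one_le_exp
        nlinarith
    _ = ∑ l, Real.exp (t * (2 ^ n / 2 ^ K)) * ∑ X ∈ B, Real.exp (-t * Q n K 0 (tw l X)) := by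
        rw [Finset.sum_comm]
        refine Finset.sum_congr rfl fun l _ => ?_
        rw [Finset.mul_sum]
    _ ≤ ∑ _l : Fin n → ZMod 2,
          Real.exp (t * (2 ^ n / 2 ^ K)) * (2 ^ Nn n K * th t ^ 2 ^ n) := by
        apply Finset.sum_le_sum
        intro l _
        exact mul_le_mul_of_nonneg_left (hsum l) (Real.exp_pos _).le
    _ = 2 ^ n * (Real.exp (t * (2 ^ n / 2 ^ K)) * (2 ^ Nn n K * th t ^ 2 ^ n)) := by
        rw [Finset.sum_const, Finset.card_univ, Fintype.card_fun, ZMod.card, Fintype.card_fin,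
          nsmul_eq_mul]
        push_cast
        rfl

end Pool.Agent.H33.Bent
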