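import Pool.Agent.H33.Bent

set_option autoImplicit false

namespace Pool.Agent.H33.Bent

open Finset

theorem lemmaF_zero {t : ℝ} (ht : 0 < t) (j k : ℕ) (a : Arr j) (S : Finset (Arr j))
    (hS : ∀ X ∈ S, ∀ u, (2 ^ (k + 1) : ℤ) ∣ X u - a u) :
    ∑ X ∈ S, Real.exp (-t * Q j 0 k X) ≤ th t ^ 2 ^ j := by
  classical
  let T : (Fin j → ZMod 2) → Finset ℤ := fun u => S.image (fun X => X u)
  have hsub : S ⊆ Fintype.piFinset T := by
    intro X hX
    rw [Fintype.mem_piFinset]
    intro u
    exact Finset.mem_image_of_mem (fun X : Arr j => X u) hX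
  have e1 : ∀ X : Arr j, Real.exp (-t * Q j 0 k X) =
      ∏ u, Real.exp (-t * ((X u : ℝ) ^ 2 / 4 ^ k)) := by
    intro X
    rw [Q_zero, Finset.mul_sum, Real.exp_sum]
  calc ∑ X ∈ S, Real.exp (-t * Q j 0 k X)
      = ∑ X ∈ S, ∏ u, Real.exp (-t * ((X u : ℝ) ^ 2 / 4 ^ k)) :=
        Finset.sum_congr rfl fun X _ => e1 X
    _ ≤ ∑ X ∈ Fintype.piFinset T, ∏ u, Real.exp (-t * ((X u : ℝ) ^ 2 / 4 ^ k)) :=
        Finset.sum_le_sum_of_subset_of_nonneg hsub
          (fun X _ _ => Finset.prod_nonneg fun u _ => (Real.exp_pos _).le)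
    _ = ∏ u, ∑ x ∈ T u, Real.exp (-t * ((x : ℝ) ^ 2 / 4 ^ k)) := by
        rw [Finset.prod_univ_sum]
    _ ≤ ∏ _u : Fin j → ZMod 2, th t := by
        apply Finset.prod_le_prod
        · intro u _
          exact Finset.sum_nonneg fun x _ => (Real.exp_pos _).le
        · intro u _
          apply theta_coset ht k (a u)
          intro x hx
          obtain ⟨X, hX, rfl⟩ := Finset.mem_image.1 hx
          exact hS X hX u
    _ = th t ^ 2 ^ j := by
        rw [Finset.prod_const, Finset.card_univ, Fintype.card_fun, ZMod.card, Fintype.card_fin]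

theorem lemmaF {t : ℝ} (ht : 0 < t) {A : ℤ} : ∀ (j r k : ℕ) (a : Arr j) (S : Finset (Arr j)),
    (∀ X ∈ S, Flat A X) → (∀ X ∈ S, ∀ u, (2 ^ (k + 1) : ℤ) ∣ X u - a u) →
    ∑ X ∈ S, Real.exp (-t * Q j r k X) ≤ 2 ^ Nn j r * th t ^ 2 ^ j := by
  classical
  intro j
  induction j with
  | zero =>
    intro r k a S hF hS
    cases r with
    | zero =>
      rw [Nn_zero, pow_zero, one_mul]
      exact lemmaF_zero ht 0 k a S hS
    | succ r =>
      rw [Nn_leaf, pow_one, pow_zero, pow_one]
      have hcard : S.card ≤ 2 := by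
        have hsub : S ⊆ {(fun _ => A : Arr 0), (fun _ => -A : Arr 0)} := by
          intro X hX
          have h := hF X hX (fun i => Fin.elim0 i)
          have e : WH X (fun i => Fin.elim0 i) = X (fun i => Fin.elim0 i) := by
            unfold WH
            rw [Fintype.sum_unique]
            rw [Finset.univ_eq_empty, Finset.sum_empty, sg_zero, mul_one]
            exact congrArg X (Subsingleton.elim _ _)
          rw [e] at h
          rw [Finset.mem_insert, Finset.mem_singleton]
          rcases h with h | h
          · left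
            funext u
            rw [Subsingleton.elim u (fun i => Fin.elim0 i)]
            exact h
          · right
            funext u
            rw [Subsingleton.elim u (fun i => Fin.elim0 i)]
            exact h
        exact (Finset.card_le_card hsub).trans Finset.card_le_two
      have e2 : ∑ X ∈ S, Real.exp (-t * Q 0 (r + 1) k X) = S.card := by
        rw [Finset.sum_congr rfl (fun X _ => by rw [Q_leaf, mul_zero, Real.exp_zero])]
        simp
      rw [e2]
      have h1 : (S.card : ℝ) ≤ 2 := by exact_mod_cast hcard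
      have h2 := th_ge_one ht
      linarith
  | succ j ih =>
    intro r k a S hF hS
    cases r with
    | zero =>
      rw [Nn_zero, pow_zero, one_mul]
      exact lemmaF_zero ht (j + 1) k a S hS
    | succ r =>
      rw [Nn_step]
      rw [← Finset.sum_fiberwise_of_maps_to (s := S) (t := S.image pl) (g := pl)
        (fun X hX => Finset.mem_image_of_mem pl hX)]
      have hinner : ∀ Y ∈ S.image pl,
          ∑ X ∈ S with pl X = Y, Real.exp (-t * Q (j + 1) (r + 1) k X) ≤
            Real.exp (-t * Q j (r + 2) k Y) * (2 ^ Nn j r * th t ^ 2 ^ j) := by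
        intro Y _
        have e3 : ∀ X ∈ S.filter (fun X => pl X = Y), Real.exp (-t * Q (j + 1) (r + 1) k X) =
            Real.exp (-t * Q j (r + 2) k Y) * Real.exp (-t * Q j r (k + 1) (mi X)) := by
          intro X hX
          rw [Q_step, (Finset.mem_filter.1 hX).2, mul_add, Real.exp_add]
        rw [Finset.sum_congr rfl e3, ← Finset.mul_sum]
        apply mul_le_mul_of_nonneg_left _ (Real.exp_pos _).le
        rw [← Finset.sum_image (f := fun Z : Arr j => Real.exp (-t * Q j r (k + 1) Z)) (g := mi)
          (s := S.filter (fun X => pl X = Y))]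
        · apply ih r (k + 1) (fun u => Y u - 2 * hi a u)
          · intro Z hZ
            obtain ⟨X, hX, rfl⟩ := Finset.mem_image.1 hZ
            exact flat_mi (hF X (Finset.mem_filter.1 hX).1)
          · intro Z hZ u
            obtain ⟨X, hX, rfl⟩ := Finset.mem_image.1 hZ
            obtain ⟨hX1, hX2⟩ := Finset.mem_filter.1 hX
            have h4 := hS X hX1 (Fin.cons 1 u)
            have e4 : mi X u - (Y u - 2 * hi a u) = -(2 * (hi X u - hi a u)) := by
              rw [← hX2]
              show lo X u - hi X u - (lo X u + hi X u - 2 * hi a u) = _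
              ring
            rw [e4, dvd_neg, pow_succ, mul_comm (2 ^ (k + 1) : ℤ) 2]
            exact mul_dvd_mul_left 2 h4
        · intro X hX X' hX' hXX
          have h5 := (Finset.mem_filter.1 (Finset.mem_coe.1 hX)).2
          have h6 := (Finset.mem_filter.1 (Finset.mem_coe.1 hX')).2
          exact ext_pl_mi (h5.trans h6.symm) hXX
      refine (Finset.sum_le_sum hinner).trans ?_
      rw [← Finset.sum_mul]
      have houter := ih (r + 2) k (fun u => lo a u + hi a u) (S.image pl)
        (by
          intro Z hZ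
          obtain ⟨X, hX, rfl⟩ := Finset.mem_image.1 hZ
          exact flat_pl (hF X hX))
        (by
          intro Z hZ u
          obtain ⟨X, hX, rfl⟩ := Finset.mem_image.1 hZ
          have h7 := hS X hX (Fin.cons 1 u)
          have h8 := hS X hX (Fin.cons 0 u)
          have e5 : pl X u - (lo a u + hi a u) = (X (Fin.cons 0 u) - a (Fin.cons 0 u)) +
              (X (Fin.cons 1 u) - a (Fin.cons 1 u)) := by
            show X (Fin.cons 0 u) + X (Fin.cons 1 u) -
              (a (Fin.cons 0 u) + a (Fin.cons 1 u)) = _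
            ring
          rw [e5]
          exact dvd_add h8 h7)
      have hth : 0 ≤ th t := le_trans zero_le_one (th_ge_one ht)
      calc (∑ Y ∈ S.image pl, Real.exp (-t * Q j (r + 2) k Y)) * (2 ^ Nn j r * th t ^ 2 ^ j)
          ≤ (2 ^ Nn j (r + 2) * th t ^ 2 ^ j) * (2 ^ Nn j r * th t ^ 2 ^ j) :=
            mul_le_mul_of_nonneg_right houter (by positivity)
        _ = 2 ^ (Nn j (r + 2) + Nn j r) * th t ^ 2 ^ (j + 1) := by
            rw [pow_add, pow_succ 2 j, pow_mul]
            ring

end Pool.Agent.H33.Bent
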