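import Pool.Agent.H33.BentAsym

set_option autoImplicit false

namespace Pool.Agent.H33.Bent

open Finset Filter Topology

theorem sg_inj {a b : ZMod 2} (h : sg a = sg b) : a = b := by
  revert a b
  decide

/-- The number of bent functions in `2k` variables is `2^{o(4^k)}`. -/
theorem card_bent_le {ε : ℝ} (hε : 0 < ε) : ∃ N : ℕ, ∀ k ≥ N,
    (Nat.card {f : (Fin (2 * k) → ZMod 2) → ZMod 2 //
      ∀ a : Fin (2 * k) → ZMod 2,
        (∑ x : Fin (2 * k) → ZMod 2,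
          (-1 : ℤ) ^ (f x + ∑ i, a i * x i).val) ^ 2 = 2 ^ (2 * k)} : ℝ) ≤
      Real.exp (ε * 4 ^ k) := by
  classical
  obtain ⟨N, hN⟩ := count_asym hε
  refine ⟨N, ?_⟩
  intro k hk
  let P : ((Fin (2 * k) → ZMod 2) → ZMod 2) → Prop := fun f =>
    ∀ a : Fin (2 * k) → ZMod 2,
        (∑ x : Fin (2 * k) → ZMod 2,
          (-1 : ℤ) ^ (f x + ∑ i, a i * x i).val) ^ 2 = 2 ^ (2 * k)
  let G : ((Fin (2 * k) → ZMod 2) → ZMod 2) → Arr (2 * k) := fun f x => sg (f x)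
  have hG : Function.Injective G := by
    intro f g h
    funext x
    exact sg_inj (congrFun h x)
  let B : Finset (Arr (2 * k)) := (Finset.univ.filter P).image G
  have hcard : Nat.card {f // P f} = B.card := by
    rw [Finset.card_image_of_injective _ hG, Nat.card_eq_fintype_card, Fintype.card_subtype]
  have h1 : ∀ X ∈ B, ∀ u, X u = 1 ∨ X u = -1 := by
    intro X hX u
    obtain ⟨f, _, rfl⟩ := Finset.mem_image.1 hX
    have hsg : ∀ z : ZMod 2, sg z = 1 ∨ sg z = -1 := by decide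
    exact hsg (f u)
  have h2 : ∀ X ∈ B, Flat (2 ^ k) X := by
    intro X hX a
    obtain ⟨f, hf, rfl⟩ := Finset.mem_image.1 hX
    have h3 := (Finset.mem_filter.1 hf).2 a
    have e : WH (G f) a = ∑ x : Fin (2 * k) → ZMod 2,
          (-1 : ℤ) ^ (f x + ∑ i, a i * x i).val := by
      unfold WH
      refine Finset.sum_congr rfl fun x _ => ?_
      show sg (f x) * sg _ = sg _
      rw [← sg_add]
    have e2 : (2:ℤ) ^ (2 * k) = (2 ^ k) ^ 2 := by rw [← pow_mul, mul_comm k 2]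
    rw [← e, e2] at h3
    exact sq_eq_sq_iff_eq_or_eq_neg.1 h3
  have h4 := hN (2 * k) (by omega) (2 ^ k) B h1 h2
  have h5 : (2:ℝ) ^ (2 * k) = 4 ^ k := by rw [pow_mul]; norm_num
  rw [h5] at h4
  show ((Nat.card {f // P f} : ℕ) : ℝ) ≤ _
  rw [hcard]
  exact h4

theorem centralBinom_sq_le (k : ℕ) : (Nat.centralBinom k) ^ 2 * (2 * k + 1) ≤ 16 ^ k := by
  induction k with
  | zero => simp
  | succ k ih =>
    have h := Nat.succ_mul_centralBinom_succ k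
    have h1 : ((k + 1) * Nat.centralBinom (k + 1)) ^ 2 * (2 * k + 3) =
        (2 * (2 * k + 1) * Nat.centralBinom k) ^ 2 * (2 * k + 3) := by rw [h]
    have h2 : (k + 1) ^ 2 * ((Nat.centralBinom (k + 1)) ^ 2 * (2 * (k + 1) + 1)) ≤
        (k + 1) ^ 2 * 16 ^ (k + 1) := by
      calc (k + 1) ^ 2 * ((Nat.centralBinom (k + 1)) ^ 2 * (2 * (k + 1) + 1))
          = ((k + 1) * Nat.centralBinom (k + 1)) ^ 2 * (2 * k + 3) := by ring
        _ = (2 * (2 * k + 1) * Nat.centralBinom k) ^ 2 * (2 * k + 3) := h1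
        _ = (4 * (2 * k + 1) * (2 * k + 3)) * ((Nat.centralBinom k) ^ 2 * (2 * k + 1)) := by ring
        _ ≤ (4 * (2 * k + 1) * (2 * k + 3)) * 16 ^ k := Nat.mul_le_mul_left _ ih
        _ ≤ ((k + 1) ^ 2 * 16) * 16 ^ k := by
            apply Nat.mul_le_mul_right
            nlinarith
        _ = (k + 1) ^ 2 * 16 ^ (k + 1) := by ring
    exact Nat.le_of_mul_le_mul_left h2 (by positivity)

theorem tendsto_centralBinom :
    Tendsto (fun k : ℕ => ((Nat.choose (2 * k) k : ℕ) : ℝ) / 4 ^ k) atTop (𝓝 0) := by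
  have h1 : ∀ k : ℕ, (((Nat.choose (2 * k) k : ℕ) : ℝ) / 4 ^ k) ^ 2 ≤ 1 / ((k : ℝ) + 1) := by
    intro k
    have h := centralBinom_sq_le k
    rw [Nat.centralBinom_eq_two_mul_choose] at h
    have h' : ((Nat.choose (2 * k) k : ℕ) : ℝ) ^ 2 * (2 * k + 1) ≤ 16 ^ k := by exact_mod_cast h
    rw [div_pow, div_le_div_iff₀ (by positivity) (by positivity)]
    have e : ((4:ℝ) ^ k) ^ 2 = 16 ^ k := by rw [← pow_mul, mul_comm k 2, pow_mul]; norm_num
    rw [e, one_mul]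
    have h3 : (0:ℝ) ≤ ((Nat.choose (2 * k) k : ℕ) : ℝ) ^ 2 := by positivity
    have h4 : (0:ℝ) ≤ (k:ℝ) := by positivity
    nlinarith
  have h2 : Tendsto (fun k : ℕ => (((Nat.choose (2 * k) k : ℕ) : ℝ) / 4 ^ k) ^ 2) atTop (𝓝 0) :=
    squeeze_zero (fun k => sq_nonneg _) h1 tendsto_one_div_add_atTop_nhds_zero_nat
  have h3 := h2.sqrt
  rw [Real.sqrt_zero] at h3
  refine h3.congr fun k => ?_
  rw [Real.sqrt_sq (by positivity)]

theorem final :
    ¬ (∃ c d : ℝ, 1 ≤ c ∧ c ≤ 2 ∧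
      Filter.Tendsto
        (fun k : ℕ =>
          (Nat.card {f : (Fin (2 * k) → ZMod 2) → ZMod 2 //
              ∀ a : Fin (2 * k) → ZMod 2,
                (∑ x : Fin (2 * k) → ZMod 2,
                    (-1 : ℤ) ^ (f x + ∑ i, a i * x i).val) ^ 2 = 2 ^ (2 * k)} : ℝ) /
            (2 : ℝ) ^ ((2 : ℝ) ^ ((2 * k : ℝ) - c) + d * ((Nat.choose (2 * k) k : ℕ) : ℝ)))
        Filter.atTop (nhds 1)) := by
  rintro ⟨c, d, -, hc, hlim⟩
  obtain ⟨N, hN⟩ := card_bent_le (ε := 1 / 16) (by norm_num)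
  have h1 := hlim.eventually (le_mem_nhds (show (1 / 2 : ℝ) < 1 by norm_num))
  have h2 : ∀ᶠ k : ℕ in atTop, |d| * (((Nat.choose (2 * k) k : ℕ) : ℝ) / 4 ^ k) ≤ 1 / 16 := by
    have h3 := tendsto_centralBinom.const_mul |d|
    rw [mul_zero] at h3
    exact h3.eventually (ge_mem_nhds (show (0:ℝ) < 1 / 16 by norm_num))
  obtain ⟨k, ⟨hk1, hk2⟩, hk3⟩ := ((h1.and h2).and (eventually_ge_atTop (max N 4))).exists
  have hkN : k ≥ N := le_trans (le_max_left _ _) hk3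
  have hk4 : 4 ≤ k := le_trans (le_max_right _ _) hk3
  have hup := hN k hkN
  have h4k : (0:ℝ) < 4 ^ k := by positivity
  have h256 : (256:ℝ) ≤ 4 ^ k := by
    calc (256:ℝ) = 4 ^ 4 := by norm_num
      _ ≤ 4 ^ k := pow_le_pow_right₀ (by norm_num) hk4
  -- lower bound of the exponent
  have hE : (4:ℝ) ^ k / 4 - 4 ^ k / 16 ≤
      (2 : ℝ) ^ ((2 * k : ℝ) - c) + d * ((Nat.choose (2 * k) k : ℕ) : ℝ) := by
    have h5 : (4:ℝ) ^ k / 4 ≤ (2 : ℝ) ^ ((2 * k : ℝ) - c) := by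
      have h6 : (2 : ℝ) ^ ((2 * k : ℝ) - 2) ≤ (2 : ℝ) ^ ((2 * k : ℝ) - c) :=
        Real.rpow_le_rpow_of_exponent_le (by norm_num) (by linarith)
      have h7 : (2 : ℝ) ^ ((2 * k : ℝ) - 2) = 4 ^ k / 4 := by
        rw [Real.rpow_sub (by norm_num)]
        have h8 : (2:ℝ) ^ (2 * k : ℝ) = 4 ^ k := by
          rw [Real.rpow_mul (by norm_num)]
          norm_num
        have h9 : (2:ℝ) ^ (2 : ℝ) = 4 := by norm_num
        rw [h8, h9]
      rw [← h7]; exact h6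
    have h10 : -((4:ℝ) ^ k / 16) ≤ d * ((Nat.choose (2 * k) k : ℕ) : ℝ) := by
      have h11 : |d * ((Nat.choose (2 * k) k : ℕ) : ℝ)| ≤ 4 ^ k / 16 := by
        rw [abs_mul, abs_of_nonneg (show (0:ℝ) ≤ ((Nat.choose (2 * k) k : ℕ) : ℝ) by positivity)]
        have h12 : |d| * ((Nat.choose (2 * k) k : ℕ) : ℝ) =
            |d| * (((Nat.choose (2 * k) k : ℕ) : ℝ) / 4 ^ k) * 4 ^ k := by
          field_simp
        rw [h12]
        have := mul_le_mul_of_nonneg_right hk2 h4k.le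
        linarith
      exact (abs_le.1 h11).1
    linarith
  -- combine
  have hden : (0:ℝ) < (2 : ℝ) ^ ((2 : ℝ) ^ ((2 * k : ℝ) - c) +
      d * ((Nat.choose (2 * k) k : ℕ) : ℝ)) := Real.rpow_pos_of_pos (by norm_num) _
  rw [le_div_iff₀ hden] at hk1
  have h13 : (2 : ℝ) ^ ((4:ℝ) ^ k / 4 - 4 ^ k / 16) ≤ (2 : ℝ) ^ ((2 : ℝ) ^ ((2 * k : ℝ) - c) +
      d * ((Nat.choose (2 * k) k : ℕ) : ℝ)) :=
    Real.rpow_le_rpow_of_exponent_le (by norm_num) hE
  have h14 : Real.exp ((1/2) * ((4:ℝ) ^ k / 4 - 4 ^ k / 16)) ≤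
      (2 : ℝ) ^ ((4:ℝ) ^ k / 4 - 4 ^ k / 16) := by
    rw [Real.rpow_def_of_pos (by norm_num)]
    apply Real.exp_le_exp.2
    have h15 := Real.log_two_gt_d9
    have h16 : (0:ℝ) ≤ (4:ℝ) ^ k / 4 - 4 ^ k / 16 := by linarith
    apply mul_le_mul_of_nonneg_right _ h16
    linarith
  have h17 : Real.exp ((1/2) * ((4:ℝ) ^ k / 4 - 4 ^ k / 16)) ≤ 2 * Real.exp (1 / 16 * 4 ^ k) := by
    linarith
  have h18 : 2 * Real.exp (1 / 16 * (4:ℝ) ^ k) ≤ Real.exp (1 + 1 / 16 * 4 ^ k) := by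
    rw [Real.exp_add]
    apply mul_le_mul_of_nonneg_right _ (Real.exp_pos _).le
    have := Real.add_one_le_exp (1:ℝ)
    linarith
  have h19 := Real.exp_le_exp.1 (h17.trans h18)
  linarith

end Pool.Agent.H33.Bent
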