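import Pool.Agent.H33.BentFinal

set_option autoImplicit false

namespace Pool.Agent.H33.Bent

open Finset

/-- exponent vector of a squarefree monomial -/
noncomputable def expo {n : ℕ} (S : Finset (Fin n)) : Fin n →₀ ℕ :=
  Finsupp.indicator S (fun _ _ => 1)

theorem expo_apply {n : ℕ} (S : Finset (Fin n)) (i : Fin n) :
    expo S i = if i ∈ S then 1 else 0 := by
  unfold expo
  rw [Finsupp.indicator_apply]
  split_ifs <;> rfl

theorem expo_inj {n : ℕ} : Function.Injective (expo (n := n)) := by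
  intro S T h
  ext i
  have h1 := DFunLike.congr_fun h i
  rw [expo_apply, expo_apply] at h1
  by_cases h2 : i ∈ S <;> by_cases h3 : i ∈ T <;> simp [h2, h3] at h1 ⊢

/-- polynomial with prescribed coefficients on low degree squarefree monomials -/
noncomputable def lowPoly {n m : ℕ} (c : {S : Finset (Fin n) // S.card ≤ m} → ZMod 2) :
    MvPolynomial (Fin n) (ZMod 2) :=
  ∑ S, MvPolynomial.monomial (expo S.1) (c S)

theorem totalDegree_lowPoly {n m : ℕ} (c : {S : Finset (Fin n) // S.card ≤ m} → ZMod 2) :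
    (lowPoly c).totalDegree ≤ m := by
  unfold lowPoly
  refine (MvPolynomial.totalDegree_finsetSum _ _).trans ?_
  apply Finset.sup_le
  intro S _
  refine (MvPolynomial.totalDegree_monomial_le _ _).trans ?_
  have h : ((expo S.1).sum fun _ => id) = S.1.card := by
    rw [Finsupp.sum_fintype _ _ (fun _ => rfl)]
    simp only [id]
    rw [Finset.sum_congr rfl fun i _ => expo_apply S.1 i]
    simp
  rw [h]
  exact S.2

theorem coeff_lowPoly {n m : ℕ} (c : {S : Finset (Fin n) // S.card ≤ m} → ZMod 2)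
    (S : {S : Finset (Fin n) // S.card ≤ m}) :
    MvPolynomial.coeff (expo S.1) (lowPoly c) = c S := by
  classical
  unfold lowPoly
  rw [MvPolynomial.coeff_sum]
  rw [Finset.sum_eq_single S]
  · rw [MvPolynomial.coeff_monomial, if_pos rfl]
  · intro T _ hT
    rw [MvPolynomial.coeff_monomial, if_neg]
    intro h
    exact hT (Subtype.ext (expo_inj h))
  · intro h
    exact absurd (Finset.mem_univ S) h

theorem lowPoly_mem {n m : ℕ} (c : {S : Finset (Fin n) // S.card ≤ m} → ZMod 2) :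
    lowPoly c ∈ MvPolynomial.restrictDegree (Fin n) (ZMod 2) (Fintype.card (ZMod 2) - 1) := by
  classical
  unfold lowPoly
  apply sum_mem
  intro S _
  rw [MvPolynomial.mem_restrictDegree]
  intro s hs i
  have h1 := MvPolynomial.support_monomial_subset hs
  rw [Finset.mem_singleton] at h1
  rw [h1, expo_apply, ZMod.card]
  split_ifs <;> simp

theorem lowPoly_eval_inj {n m : ℕ} {c c' : {S : Finset (Fin n) // S.card ≤ m} → ZMod 2}
    (h : ∀ x, MvPolynomial.eval x (lowPoly c) = MvPolynomial.eval x (lowPoly c')) : c = c' := by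
  have h1 : lowPoly c - lowPoly c' = 0 := by
    apply MvPolynomial.eq_zero_of_eval_eq_zero
    · intro v
      rw [map_sub, h v, sub_self]
    · exact sub_mem (lowPoly_mem c) (lowPoly_mem c')
  have h2 : lowPoly c = lowPoly c' := sub_eq_zero.1 h1
  funext S
  rw [← coeff_lowPoly c S, h2, coeff_lowPoly]

theorem card_low (m : ℕ) : 4 ^ m ≤ 2 * Fintype.card {S : Finset (Fin (2 * m)) // S.card ≤ m} := by
  classical
  rw [Fintype.card_subtype]
  have h1 : (Finset.univ.filter (fun S : Finset (Fin (2 * m)) => ¬ S.card ≤ m)).card ≤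
      (Finset.univ.filter (fun S : Finset (Fin (2 * m)) => S.card ≤ m)).card := by
    apply Finset.card_le_card_of_injOn (fun S => Sᶜ)
    · intro S hS
      have h2 := (Finset.mem_filter.1 (Finset.mem_coe.1 hS)).2
      rw [Finset.mem_coe, Finset.mem_filter]
      refine ⟨Finset.mem_univ _, ?_⟩
      rw [Finset.card_compl, Fintype.card_fin]
      omega
    · intro S _ T _ h
      exact compl_injective h
  have h3 := Finset.card_filter_add_card_filter_not (s := (Finset.univ : Finset (Finset (Fin (2 * m)))))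
    (fun S => S.card ≤ m)
  have h4 : (Finset.univ : Finset (Finset (Fin (2 * m)))).card = 4 ^ m := by
    rw [Finset.card_univ, Fintype.card_finset, Fintype.card_fin, pow_mul]
    norm_num
  omega

/-- predicate of being bent -/
def IsB {m : ℕ} (f : (Fin (2 * m) → ZMod 2) → ZMod 2) : Prop :=
  ∀ a : Fin (2 * m) → ZMod 2,
    (∑ x : Fin (2 * m) → ZMod 2, (-1 : ℤ) ^ (f x + ∑ i, a i * x i).val) ^ 2 = 2 ^ (2 * m)

theorem final_sum :
    ¬ (∀ m : ℕ, 1 ≤ m →
      ∀ f : (Fin (2 * m) → ZMod 2) → ZMod 2,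
        (∃ p : MvPolynomial (Fin (2 * m)) (ZMod 2),
            p.totalDegree ≤ m ∧ ∀ x, MvPolynomial.eval x p = f x) →
        ∃ g h : (Fin (2 * m) → ZMod 2) → ZMod 2,
          (∀ a : Fin (2 * m) → ZMod 2,
              (∑ x : Fin (2 * m) → ZMod 2,
                  (-1 : ℤ) ^ ((g x + ∑ i, a i * x i).val)) ^ 2 = 2 ^ (2 * m)) ∧
          (∀ a : Fin (2 * m) → ZMod 2,
              (∑ x : Fin (2 * m) → ZMod 2,
                  (-1 : ℤ) ^ ((h x + ∑ i, a i * x i).val)) ^ 2 = 2 ^ (2 * m)) ∧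
          ∀ x, f x = g x + h x) := by
  classical
  intro H
  obtain ⟨N, hN⟩ := card_bent_le (ε := 1 / 16) (by norm_num)
  set m := max N 1 with hm
  have hmN : m ≥ N := le_max_left _ _
  have hm1 : 1 ≤ m := le_max_right _ _
  have hB := hN m hmN
  have H' := H m hm1
  let B := {f : (Fin (2 * m) → ZMod 2) → ZMod 2 // IsB f}
  have hBcard : (Nat.card B : ℝ) ≤ Real.exp (1 / 16 * 4 ^ m) := hB
  have H2 : ∀ c : {S : Finset (Fin (2 * m)) // S.card ≤ m} → ZMod 2,
      ∃ q : B × B, ∀ x, MvPolynomial.eval x (lowPoly c) = q.1.1 x + q.2.1 x := by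
    intro c
    obtain ⟨g, h, hg, hh, hgh⟩ := H' (fun x => MvPolynomial.eval x (lowPoly c))
      ⟨lowPoly c, totalDegree_lowPoly c, fun x => rfl⟩
    exact ⟨(⟨g, hg⟩, ⟨h, hh⟩), hgh⟩
  choose Φ hΦ using H2
  have hinj : Function.Injective Φ := by
    intro c c' h
    apply lowPoly_eval_inj
    intro x
    rw [hΦ c x, hΦ c' x, h]
  have h1 := Nat.card_le_card_of_injective Φ hinj
  rw [Nat.card_prod, Nat.card_eq_fintype_card, Fintype.card_fun, ZMod.card] at h1
  have h2 := card_low m
  set M := Fintype.card {S : Finset (Fin (2 * m)) // S.card ≤ m} with hM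
  have h3 : ((2:ℝ) ^ M) ≤ (Nat.card B : ℝ) * (Nat.card B : ℝ) := by exact_mod_cast h1
  have h4 : ((2:ℝ) ^ M) ≤ Real.exp (1 / 16 * 4 ^ m) * Real.exp (1 / 16 * 4 ^ m) :=
    h3.trans (mul_le_mul hBcard hBcard (Nat.cast_nonneg _) (Real.exp_pos _).le)
  rw [← Real.exp_add] at h4
  have h5 : Real.exp (M * (1 / 2)) ≤ (2:ℝ) ^ M := by
    rw [Real.exp_nat_mul]
    apply pow_le_pow_left₀ (Real.exp_pos _).le
    have h6 := Real.log_two_gt_d9
    calc Real.exp (1 / 2) ≤ Real.exp (Real.log 2) := Real.exp_le_exp.2 (by linarith)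
      _ = 2 := Real.exp_log (by norm_num)
  have h7 := Real.exp_le_exp.1 (h5.trans h4)
  have h8 : (4:ℝ) ^ m ≤ 2 * (M : ℝ) := by exact_mod_cast h2
  have h9 : (0:ℝ) < 4 ^ m := by positivity
  linarith

end Pool.Agent.H33.Bent
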