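import Mathlib

set_option autoImplicit false

namespace Pool.Agent.H33

open Matrix Finset

section
variable {V : Type} [Fintype V] [DecidableEq V]

/-- cone of matrices with nonnegative quadratic form -/
def qcone (V : Type) [Fintype V] : PointedCone ℝ (Matrix V V ℝ) where
  carrier := {A | ∀ x : V → ℝ, 0 ≤ x ⬝ᵥ (A *ᵥ x)}
  add_mem' := by
    intro A B hA hB x
    rw [add_mulVec, dotProduct_add]
    exact add_nonneg (hA x) (hB x)
  zero_mem' := by
    intro x
    simp
  smul_mem' := by
    intro c A hA x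
    have : (c • A) = (c : ℝ) • A := rfl
    rw [this, smul_mulVec, dotProduct_smul, smul_eq_mul]
    exact mul_nonneg c.2 (hA x)

/-- matrices supported on the diagonal and the edges -/
def suppMod (Y : SimpleGraph V) : Submodule ℝ (Matrix V V ℝ) where
  carrier := {A | ∀ x y, x ≠ y → ¬ Y.Adj x y → A x y = 0}
  add_mem' := by
    intro A B hA hB x y h1 h2
    simp [hA x y h1 h2, hB x y h1 h2]
  zero_mem' := by
    intro x y _ _
    simp
  smul_mem' := by
    intro c A hA x y h1 h2
    simp [hA x y h1 h2]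

/-- the linear functional `t * trace - sum of entries` -/
def func (V : Type) [Fintype V] (t : ℝ) : Matrix V V ℝ →ₗ[ℝ] ℝ where
  toFun A := t * A.trace - ∑ x, ∑ y, A x y
  map_add' := by
    intro A B
    simp only [trace_add, Matrix.add_apply, Finset.sum_add_distrib]
    ring
  map_smul' := by
    intro c A
    simp only [trace_smul, Matrix.smul_apply, smul_eq_mul, RingHom.id_apply, ← Finset.mul_sum]
    ring

theorem dense_aux (A : Matrix V V ℝ) : ∃ c : ℝ, ∀ x : V → ℝ,
    0 ≤ x ⬝ᵥ ((c • (1 : Matrix V V ℝ) + A) *ᵥ x) := by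
  refine ⟨∑ i, ∑ j, |A i j|, fun x => ?_⟩
  rw [add_mulVec, dotProduct_add, smul_mulVec, one_mulVec, dotProduct_smul, smul_eq_mul]
  have h1 : x ⬝ᵥ (A *ᵥ x) = ∑ i, ∑ j, A i j * (x i * x j) := by
    simp only [dotProduct, mulVec, Finset.mul_sum]
    refine Finset.sum_congr rfl fun a _ => Finset.sum_congr rfl fun b _ => ?_
    ring
  have h2 : ∀ i j, - (|A i j| * (x ⬝ᵥ x)) ≤ A i j * (x i * x j) := by
    intro i j
    have hi : ∀ k, x k * x k ≤ x ⬝ᵥ x := fun k =>
      Finset.single_le_sum (f := fun k => x k * x k) (fun k _ => mul_self_nonneg _)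
        (Finset.mem_univ k)
    have h3 : |x i * x j| ≤ x ⬝ᵥ x := by
      rw [abs_le]
      constructor <;> nlinarith [hi i, hi j, sq_nonneg (x i + x j), sq_nonneg (x i - x j)]
    have h4 : |A i j * (x i * x j)| ≤ |A i j| * (x ⬝ᵥ x) := by
      rw [abs_mul]
      exact mul_le_mul_of_nonneg_left h3 (abs_nonneg _)
    exact (abs_le.1 h4).1
  rw [h1, Finset.sum_mul]
  simp only [Finset.sum_mul]
  rw [← Finset.sum_add_distrib]
  refine Finset.sum_nonneg fun i _ => ?_
  rw [← Finset.sum_add_distrib]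
  refine Finset.sum_nonneg fun j _ => ?_
  linarith [h2 i j]

theorem quad_eq (A : Matrix V V ℝ) (x : V → ℝ) :
    x ⬝ᵥ (A *ᵥ x) = ∑ i, ∑ j, A i j * (x i * x j) := by
  simp only [dotProduct, mulVec, Finset.mul_sum]
  refine Finset.sum_congr rfl fun a _ => Finset.sum_congr rfl fun b _ => ?_
  ring

theorem psd_iff (A : Matrix V V ℝ) : A.PosSemidef ↔ A.IsSymm ∧ ∀ x : V → ℝ, 0 ≤ x ⬝ᵥ (A *ᵥ x) := by
  rw [posSemidef_iff_dotProduct_mulVec]
  simp only [star_trivial]
  constructor
  · rintro ⟨h1, h2⟩
    exact ⟨by simpa [Matrix.IsSymm, Matrix.IsHermitian] using h1, h2⟩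
  · rintro ⟨h1, h2⟩
    exact ⟨by simpa [Matrix.IsSymm, Matrix.IsHermitian] using h1, h2⟩

/-- SDP duality for the theta function, in the form needed. -/
theorem duality (Y : SimpleGraph V) (t : ℝ) :
    (∃ B : Matrix V V ℝ, B.PosSemidef ∧ (∀ x y, x ≠ y → ¬ Y.Adj x y → B x y = 0) ∧
      t * B.trace < ∑ x, ∑ y, B x y) ∨
    (∃ C : Matrix V V ℝ, C.PosSemidef ∧ (∀ x y, Y.Adj x y → C x y = 0) ∧ (∀ x, C x x = t) ∧
      (Fintype.card V : ℝ) ^ 2 ≤ ∑ x, ∑ y, C x y) := by
  by_cases hB : ∃ B : Matrix V V ℝ, B.PosSemidef ∧ (∀ x y, x ≠ y → ¬ Y.Adj x y → B x y = 0) ∧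
      t * B.trace < ∑ x, ∑ y, B x y
  · exact Or.inl hB
  right
  push Not at hB
  -- the partial functional
  let f : Matrix V V ℝ →ₗ.[ℝ] ℝ := ⟨suppMod Y, (func V t).domRestrict (suppMod Y)⟩
  have hf : ∀ x : f.domain, f x = func V t x := fun x => rfl
  have nonneg : ∀ x : f.domain, (x : Matrix V V ℝ) ∈ qcone V → 0 ≤ f x := by
    rintro ⟨A, hA⟩ hq
    have hA' : ∀ x y, x ≠ y → ¬ Y.Adj x y → A x y = 0 := hA
    have hq' : ∀ x : V → ℝ, 0 ≤ x ⬝ᵥ (A *ᵥ x) := hq
    rw [hf]
    change 0 ≤ t * A.trace - ∑ x, ∑ y, A x y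
    have hS : ((1/2 : ℝ) • (A + Aᵀ)).PosSemidef := by
      rw [psd_iff]
      constructor
      · unfold Matrix.IsSymm
        rw [transpose_smul, transpose_add, transpose_transpose, add_comm]
      · intro x
        rw [smul_mulVec, dotProduct_smul, add_mulVec, dotProduct_add]
        have h1 : x ⬝ᵥ (Aᵀ *ᵥ x) = x ⬝ᵥ (A *ᵥ x) := by
          rw [quad_eq, quad_eq, Finset.sum_comm]
          refine Finset.sum_congr rfl fun i _ => Finset.sum_congr rfl fun j _ => ?_
          rw [transpose_apply]
          ring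
        rw [h1, smul_eq_mul]
        have := hq' x
        linarith
    have hs := hB ((1/2 : ℝ) • (A + Aᵀ)) hS (by
      intro x y h1 h2
      simp only [Matrix.smul_apply, Matrix.add_apply, transpose_apply, smul_eq_mul]
      rw [hA' x y h1 h2, hA' y x h1.symm (fun h => h2 h.symm)]
      simp)
    have h3 : ((1/2 : ℝ) • (A + Aᵀ)).trace = A.trace := by
      rw [trace_smul, trace_add, trace_transpose, smul_eq_mul]; ring
    have h4 : ∑ x, ∑ y, ((1/2 : ℝ) • (A + Aᵀ)) x y = ∑ x, ∑ y, A x y := by
      have h5 : ∑ x, ∑ y, A y x = ∑ x, ∑ y, A x y := Finset.sum_comm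
      simp only [Matrix.smul_apply, Matrix.add_apply, transpose_apply, smul_eq_mul,
        ← Finset.mul_sum, Finset.sum_add_distrib]
      rw [h5]; ring
    rw [h3, h4] at hs
    linarith
  have dense : ∀ y : Matrix V V ℝ, ∃ x : f.domain, (x : Matrix V V ℝ) + y ∈ qcone V := by
    intro y
    obtain ⟨c, hc⟩ := dense_aux y
    refine ⟨⟨c • (1 : Matrix V V ℝ), ?_⟩, hc⟩
    intro a b hab _
    simp [hab]
  obtain ⟨g, hg1, hg2⟩ := riesz_extension (qcone V) f nonneg dense
  -- g on single matrices
  have hgsum : ∀ A : Matrix V V ℝ, g A = ∑ i, ∑ j, A i j * g (Matrix.single i j 1) := by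
    intro A
    conv_lhs => rw [matrix_eq_sum_single A]
    rw [map_sum]
    refine Finset.sum_congr rfl fun i _ => ?_
    rw [map_sum]
    refine Finset.sum_congr rfl fun j _ => ?_
    have : Matrix.single i j (A i j) = (A i j) • Matrix.single i j (1 : ℝ) := by
      rw [smul_single]; simp
    rw [this, map_smul, smul_eq_mul]
  have hanti : ∀ A : Matrix V V ℝ, Aᵀ = -A → g A = 0 := by
    intro A hA
    have h0 : ∀ x : V → ℝ, x ⬝ᵥ (A *ᵥ x) = 0 := by
      intro x
      have h1 : x ⬝ᵥ (Aᵀ *ᵥ x) = x ⬝ᵥ (A *ᵥ x) := by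
        rw [quad_eq, quad_eq, Finset.sum_comm]
        refine Finset.sum_congr rfl fun i _ => Finset.sum_congr rfl fun j _ => ?_
        rw [transpose_apply]
        ring
      rw [hA, neg_mulVec, dotProduct_neg] at h1
      linarith
    have h1 : 0 ≤ g A := hg2 A (fun x => (h0 x).ge)
    have h2 : 0 ≤ g (-A) := hg2 (-A) (fun x => by rw [neg_mulVec, dotProduct_neg, h0 x]; simp)
    rw [map_neg] at h2
    linarith
  have hsymm : ∀ i j, g (Matrix.single i j 1) = g (Matrix.single j i 1) := by
    intro i j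
    have := hanti (Matrix.single i j 1 - Matrix.single j i 1) (by
      rw [transpose_sub, transpose_single, transpose_single]; simp)
    rw [map_sub] at this
    linarith
  have hdiag : ∀ i, g (Matrix.single i i 1) = t - 1 := by
    intro i
    have hm : Matrix.single i i (1 : ℝ) ∈ suppMod Y := by
      intro a b hab _
      rw [Matrix.single_apply]
      split_ifs with h
      · exact absurd (h.1.symm.trans h.2) hab
      · rfl
    have h1 := hg1 ⟨Matrix.single i i (1 : ℝ), hm⟩
    rw [hf] at h1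
    change g (Matrix.single i i (1 : ℝ)) = t * (Matrix.single i i (1 : ℝ)).trace -
      ∑ x, ∑ y, (Matrix.single i i (1 : ℝ)) x y at h1
    rw [h1]
    have h2 : (Matrix.single i i (1 : ℝ)).trace = 1 := by simp
    have h3 : ∑ x, ∑ y, (Matrix.single i i (1 : ℝ)) x y = 1 := by
      rw [Finset.sum_eq_single i, Finset.sum_eq_single i]
      · simp
      · intro b _ hb
        simp [Matrix.single_apply, hb.symm]
      · simp
      · intro b _ hb
        refine Finset.sum_eq_zero fun c _ => ?_
        simp [Matrix.single_apply, hb.symm]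
      · simp
    rw [h2, h3]; ring
  have hedge : ∀ i j, Y.Adj i j → g (Matrix.single i j 1) = -1 := by
    intro i j hij
    have hm : Matrix.single i j (1 : ℝ) ∈ suppMod Y := by
      intro a b _ hn
      rw [Matrix.single_apply]
      split_ifs with h
      · exfalso; apply hn; rw [← h.1, ← h.2]; exact hij
      · rfl
    have h1 := hg1 ⟨Matrix.single i j (1 : ℝ), hm⟩
    rw [hf] at h1
    change g (Matrix.single i j (1 : ℝ)) = t * (Matrix.single i j (1 : ℝ)).trace -
      ∑ x, ∑ y, (Matrix.single i j (1 : ℝ)) x y at h1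
    rw [h1]
    have h2 : (Matrix.single i j (1 : ℝ)).trace = 0 := by
      rw [trace_single_eq_of_ne _ _ _ hij.ne]
    have h3 : ∑ x, ∑ y, (Matrix.single i j (1 : ℝ)) x y = 1 := by
      rw [Finset.sum_eq_single i, Finset.sum_eq_single j]
      · simp
      · intro b _ hb
        simp [Matrix.single_apply, hb.symm]
      · simp
      · intro b _ hb
        refine Finset.sum_eq_zero fun c _ => ?_
        simp [Matrix.single_apply, hb.symm]
      · simp
    rw [h2, h3]; ring
  have hquad : ∀ x : V → ℝ, 0 ≤ ∑ i, ∑ j, g (Matrix.single i j 1) * (x i * x j) := by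
    intro x
    have h1 : 0 ≤ g (Matrix.of fun i j => x i * x j) := by
      apply hg2
      intro y
      have : y ⬝ᵥ ((Matrix.of fun i j => x i * x j) *ᵥ y) = (∑ i, y i * x i) ^ 2 := by
        rw [quad_eq, sq, Finset.sum_mul_sum]
        refine Finset.sum_congr rfl fun i _ => Finset.sum_congr rfl fun j _ => ?_
        simp only [of_apply]
        ring
      rw [this]
      positivity
    rw [hgsum] at h1
    refine h1.trans_eq ?_
    refine Finset.sum_congr rfl fun i _ => Finset.sum_congr rfl fun j _ => ?_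
    simp only [of_apply]
    ring
  refine ⟨Matrix.of fun i j => g (Matrix.single i j 1) + 1, ?_, ?_, ?_, ?_⟩
  · rw [psd_iff]
    constructor
    · ext i j
      simp only [transpose_apply, of_apply]
      rw [hsymm]
    · intro x
      rw [quad_eq]
      have h2 : ∑ i, ∑ j, (Matrix.of fun i j => g (Matrix.single i j 1) + 1) i j * (x i * x j)
          = ∑ i, ∑ j, g (Matrix.single i j 1) * (x i * x j) + (∑ i, x i) ^ 2 := by
        rw [sq, Finset.sum_mul_sum, ← Finset.sum_add_distrib]
        refine Finset.sum_congr rfl fun i _ => ?_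
        rw [← Finset.sum_add_distrib]
        refine Finset.sum_congr rfl fun j _ => ?_
        simp only [of_apply]
        ring
      rw [h2]
      have := hquad x
      positivity
  · intro x y hxy
    simp only [of_apply, hedge x y hxy]
    ring
  · intro x
    simp only [of_apply, hdiag x]
    ring
  · simp only [of_apply, Finset.sum_add_distrib]
    have h1 := hquad (fun _ => 1)
    simp only [mul_one] at h1
    have h2 : ∑ _x : V, ∑ _y : V, (1 : ℝ) = (Fintype.card V : ℝ) ^ 2 := by
      simp [sq]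
    rw [h2]
    linarith

end

end Pool.Agent.H33
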