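import Mathlib

set_option autoImplicit false

namespace Pool.Agent.H33

open Matrix Finset
open scoped Kronecker

/-- A theta-type certificate of value `h + 1` for a finite graph `X`. -/
def Cert {V : Type} [Fintype V] [DecidableEq V] (X : SimpleGraph V) (h : ℝ) : Prop :=
  ∃ A : Matrix V V ℝ, (∀ x y, ¬ X.Adj x y → A x y = 0) ∧
    (1 + A).PosSemidef ∧ (h • (1 : Matrix V V ℝ) - A).PosSemidef ∧
    ∃ v : V → ℝ, v ≠ 0 ∧ v ⬝ᵥ (A *ᵥ v) = h * (v ⬝ᵥ v)

/-- categorical product of graphs -/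
def tprod {V W : Type} (X : SimpleGraph V) (Y : SimpleGraph W) : SimpleGraph (V × W) where
  Adj a b := X.Adj a.1 b.1 ∧ Y.Adj a.2 b.2
  symm := ⟨fun _ _ h => ⟨h.1.symm, h.2.symm⟩⟩
  loopless := ⟨fun _ h => X.loopless.irrefl _ h.1⟩

theorem kron_add_smul {V W : Type} [Fintype V] [DecidableEq V] [Fintype W] [DecidableEq W]
    (A : Matrix V V ℝ) (B : Matrix W W ℝ) (h : ℝ) :
    (h + 1) • ((A ⊗ₖ B) + h • (1 : Matrix (V × W) (V × W) ℝ)) =
      h • ((1 + A) ⊗ₖ (1 + B)) + (h • (1 : Matrix V V ℝ) - A) ⊗ₖ (h • (1 : Matrix W W ℝ) - B) := by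
  ext ⟨a, b⟩ ⟨c, d⟩
  simp only [Matrix.smul_apply, Matrix.add_apply, Matrix.sub_apply, kroneckerMap_apply,
    smul_eq_mul, Matrix.one_apply, Prod.mk.injEq]
  by_cases h1 : a = c <;> by_cases h2 : b = d <;> simp [h1, h2] <;> ring

theorem kron_sub_smul {V W : Type} [Fintype V] [DecidableEq V] [Fintype W] [DecidableEq W]
    (A : Matrix V V ℝ) (B : Matrix W W ℝ) (h : ℝ) :
    ((h + 1) ^ 2) • ((h ^ 2) • (1 : Matrix (V × W) (V × W) ℝ) - (A ⊗ₖ B)) =
      (h ^ 2 + h) • ((1 + A) ⊗ₖ (h • (1 : Matrix W W ℝ) - B)) +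
      ((h ^ 2 + h) • ((h • (1 : Matrix V V ℝ) - A) ⊗ₖ (1 + B)) +
      (h ^ 2 - 1) • ((h • (1 : Matrix V V ℝ) - A) ⊗ₖ (h • (1 : Matrix W W ℝ) - B))) := by
  ext ⟨a, b⟩ ⟨c, d⟩
  simp only [Matrix.smul_apply, Matrix.add_apply, Matrix.sub_apply, kroneckerMap_apply,
    smul_eq_mul, Matrix.one_apply, Prod.mk.injEq]
  by_cases h1 : a = c <;> by_cases h2 : b = d <;> simp [h1, h2] <;> ring

theorem psd_of_smul {V : Type} [Fintype V] [DecidableEq V] {A : Matrix V V ℝ} {c : ℝ}
    (hc : 0 < c) (h : (c • A).PosSemidef) : A.PosSemidef := by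
  have := h.smul (a := c⁻¹) (by positivity)
  rwa [smul_smul, inv_mul_cancel₀ hc.ne', one_smul] at this

theorem Cert.tprod {V W : Type} [Fintype V] [DecidableEq V] [Fintype W] [DecidableEq W]
    {X : SimpleGraph V} {Y : SimpleGraph W} {h : ℝ} (hh : 1 ≤ h)
    (hX : Cert X h) (hY : Cert Y h) : Cert (tprod X Y) h := by
  obtain ⟨A, hA0, hA1, hA2, v, hv0, hv⟩ := hX
  obtain ⟨B, hB0, hB1, hB2, w, hw0, hw⟩ := hY
  have hpos : 0 < h := by linarith
  refine ⟨h⁻¹ • (A ⊗ₖ B), ?_, ?_, ?_, fun p => v p.1 * w p.2, ?_, ?_⟩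
  · rintro ⟨a, b⟩ ⟨c, d⟩ hn
    simp only [Matrix.smul_apply, kroneckerMap_apply, smul_eq_mul]
    by_cases h1 : X.Adj a c
    · have : ¬ Y.Adj b d := fun h2 => hn (And.intro h1 h2)
      simp [hB0 _ _ this]
    · simp [hA0 _ _ h1]
  · have key : ((h + 1) • ((A ⊗ₖ B) + h • (1 : Matrix (V × W) (V × W) ℝ))).PosSemidef := by
      rw [kron_add_smul]
      exact ((hA1.kronecker hB1).smul hpos.le).add (hA2.kronecker hB2)
    have key2 := psd_of_smul (by linarith) key
    have key3 := key2.smul (a := h⁻¹) (by positivity)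
    rw [smul_add, smul_smul, inv_mul_cancel₀ hpos.ne', one_smul, add_comm] at key3
    exact key3
  · have key : (((h + 1) ^ 2) • ((h ^ 2) • (1 : Matrix (V × W) (V × W) ℝ) - (A ⊗ₖ B))).PosSemidef := by
      rw [kron_sub_smul]
      refine ((hA1.kronecker hB2).smul (by positivity)).add
        (((hA2.kronecker hB1).smul (by positivity)).add ((hA2.kronecker hB2).smul (by nlinarith)))
    have key2 := psd_of_smul (by positivity) key
    have key3 := key2.smul (a := h⁻¹) (by positivity)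
    have e : h⁻¹ * h ^ 2 = h := by field_simp
    rw [smul_sub, smul_smul, e] at key3
    exact key3
  · intro h0
    apply hv0
    obtain ⟨b, hb⟩ := Function.ne_iff.1 hw0
    ext a
    have := congrFun h0 (a, b)
    simp only [Pi.zero_apply, mul_eq_zero] at this
    rcases this with h1 | h1
    · exact h1
    · exact absurd h1 hb
  · have e1 : (fun p : V × W => v p.1 * w p.2) ⬝ᵥ ((A ⊗ₖ B) *ᵥ (fun p : V × W => v p.1 * w p.2))
        = (v ⬝ᵥ (A *ᵥ v)) * (w ⬝ᵥ (B *ᵥ w)) := by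
      have e3 : ∀ a b, (∑ c, ∑ d, A a c * B b d * (v c * w d)) =
          (∑ c, A a c * v c) * (∑ d, B b d * w d) := by
        intro a b
        rw [Finset.sum_mul_sum]
        refine Finset.sum_congr rfl fun c _ => Finset.sum_congr rfl fun d _ => ?_
        ring
      simp only [dotProduct, mulVec, Fintype.sum_prod_type, kroneckerMap_apply]
      rw [Finset.sum_mul_sum]
      refine Finset.sum_congr rfl fun a _ => Finset.sum_congr rfl fun b _ => ?_
      rw [e3]
      ring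
    have e2 : (fun p : V × W => v p.1 * w p.2) ⬝ᵥ (fun p : V × W => v p.1 * w p.2)
        = (v ⬝ᵥ v) * (w ⬝ᵥ w) := by
      simp only [dotProduct, Fintype.sum_prod_type, Finset.sum_mul_sum]
      refine Finset.sum_congr rfl fun a _ => Finset.sum_congr rfl fun b _ => ?_
      ring
    rw [smul_mulVec, dotProduct_smul, e1, e2, hv, hw, smul_eq_mul]
    field_simp

/-- transfer along a homomorphism against an upper certificate -/
theorem Cert.le_of_hom {V W : Type} [Fintype V] [DecidableEq V]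
    {X : SimpleGraph V} {Y : SimpleGraph W} {h τ : ℝ} (hX : Cert X h) (φ : X →g Y)
    (T : Matrix W W ℝ) (hT : T.PosSemidef) (hTd : ∀ i, T i i = τ - 1)
    (hTe : ∀ i j, Y.Adj i j → T i j = -1) : h + 1 ≤ τ := by
  obtain ⟨A, hA0, hA1, hA2, v, hv0, hv⟩ := hX
  have hS : ((1 + A) ⊙ (T.submatrix φ φ)).PosSemidef := hA1.hadamard (hT.submatrix φ)
  have hq := hS.dotProduct_mulVec_nonneg v
  have e : ((1 + A) ⊙ (T.submatrix φ φ)) = (τ - 1) • (1 : Matrix V V ℝ) - A := by
    ext x y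
    simp only [hadamard_apply, Matrix.add_apply, submatrix_apply, Matrix.sub_apply,
      Matrix.smul_apply, smul_eq_mul, Matrix.one_apply]
    by_cases hxy : x = y
    · subst hxy
      have : A x x = 0 := hA0 _ _ (X.loopless.irrefl x)
      simp [this, hTd]
    · by_cases hadj : X.Adj x y
      · simp [hxy, hTe _ _ (φ.map_adj hadj)]
      · simp [hxy, hA0 _ _ hadj]
  rw [e, sub_mulVec, smul_mulVec, one_mulVec, dotProduct_sub, dotProduct_smul] at hq
  simp only [star_trivial, smul_eq_mul] at hq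
  rw [hv] at hq
  have hvv : 0 < v ⬝ᵥ v := by
    have := dotProduct_self_eq_zero (v := v)
    have h2 : 0 ≤ v ⬝ᵥ v := Finset.sum_nonneg fun i _ => mul_self_nonneg (v i)
    rcases h2.lt_or_eq with h3 | h3
    · exact h3
    · exact absurd (this.1 h3.symm) hv0
  nlinarith

end Pool.Agent.H33
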