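import Mathlib
import Pool.Agent.H33.Theta
import Pool.Agent.H33.Duality

set_option autoImplicit false

namespace Pool.Agent.H33

open Matrix Finset

section
variable {V : Type} [Fintype V] [DecidableEq V]

theorem exists_top [Nonempty V] (A : Matrix V V ℝ) :
    ∃ u : V → ℝ, u ⬝ᵥ u = 1 ∧ ∀ x : V → ℝ, x ⬝ᵥ (A *ᵥ x) ≤ (u ⬝ᵥ (A *ᵥ u)) * (x ⬝ᵥ x) := by
  have hcl : IsClosed {x : V → ℝ | x ⬝ᵥ x = 1} := by
    apply isClosed_eq
    · exact continuous_id.dotProduct continuous_id
    · exact continuous_const
  have hbd : Bornology.IsBounded {x : V → ℝ | x ⬝ᵥ x = 1} := by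
    rw [Metric.isBounded_iff_subset_closedBall 0]
    refine ⟨1, fun x hx => ?_⟩
    rw [mem_closedBall_zero_iff, pi_norm_le_iff_of_nonneg zero_le_one]
    intro i
    have hx' : x ⬝ᵥ x = 1 := hx
    have hi : x i * x i ≤ x ⬝ᵥ x :=
      Finset.single_le_sum (f := fun k => x k * x k) (fun k _ => mul_self_nonneg _)
        (Finset.mem_univ i)
    rw [Real.norm_eq_abs, abs_le]
    constructor <;> nlinarith
  have hK : IsCompact {x : V → ℝ | x ⬝ᵥ x = 1} := Metric.isCompact_of_isClosed_isBounded hcl hbd
  have hne : {x : V → ℝ | x ⬝ᵥ x = 1}.Nonempty := by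
    obtain ⟨i⟩ := (inferInstance : Nonempty V)
    exact ⟨Pi.single i 1, by simp⟩
  have hcont : ContinuousOn (fun x : V → ℝ => x ⬝ᵥ (A *ᵥ x)) {x : V → ℝ | x ⬝ᵥ x = 1} := by
    apply Continuous.continuousOn
    exact continuous_id.dotProduct (continuous_const.matrix_mulVec continuous_id)
  obtain ⟨u, hu, hmax⟩ := hK.exists_isMaxOn hne hcont
  refine ⟨u, hu, fun x => ?_⟩
  by_cases hx : x = 0
  · subst hx; simp
  have hpos : 0 < x ⬝ᵥ x := by
    have h2 : 0 ≤ x ⬝ᵥ x := Finset.sum_nonneg fun i _ => mul_self_nonneg (x i)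
    rcases h2.lt_or_eq with h3 | h3
    · exact h3
    · exact absurd (dotProduct_self_eq_zero.1 h3.symm) hx
  set r := Real.sqrt (x ⬝ᵥ x) with hr
  have hrpos : 0 < r := Real.sqrt_pos.2 hpos
  have hr2 : r * r = x ⬝ᵥ x := Real.mul_self_sqrt hpos.le
  have hy : (r⁻¹ • x) ⬝ᵥ (r⁻¹ • x) = 1 := by
    rw [smul_dotProduct, dotProduct_smul, ← hr2, smul_eq_mul, smul_eq_mul]
    field_simp
  have h1 := hmax (a := r⁻¹ • x) hy
  simp only [Set.mem_ofPred_eq] at h1
  rw [mulVec_smul, smul_dotProduct, dotProduct_smul, smul_eq_mul, smul_eq_mul] at h1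
  have h2 : r⁻¹ * (r⁻¹ * (x ⬝ᵥ (A *ᵥ x))) * (r * r) = x ⬝ᵥ (A *ᵥ x) := by
    field_simp
  rw [← hr2, ← h2]
  exact mul_le_mul_of_nonneg_right h1 (by positivity)

theorem psd_diag_zero {B : Matrix V V ℝ} (hB : B.PosSemidef) {x y : V} (hx : B x x = 0) :
    B x y = 0 := by
  obtain ⟨hs, hq⟩ := (psd_iff B).1 hB
  have hsym : B y x = B x y := by
    have := congrFun (congrFun hs x) y
    simpa using this
  have key : ∀ s : ℝ, 0 ≤ 2 * s * B x y + B y y := by
    intro s
    by_cases hxy : x = y
    · subst hxy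
      rw [hx]; simp
    have h := hq (Pi.single x s + Pi.single y 1)
    have e : (Pi.single x s + Pi.single y (1:ℝ)) ⬝ᵥ (B *ᵥ (Pi.single x s + Pi.single y (1:ℝ)))
        = s * s * B x x + s * B x y + s * B y x + B y y := by
      rw [mulVec_add, dotProduct_add, add_dotProduct, add_dotProduct]
      simp only [single_dotProduct, mulVec_single, Pi.smul_apply, MulOpposite.smul_eq_mul_unop,
        MulOpposite.unop_op, Matrix.col_apply]
      ring
    rw [e, hx, hsym] at h
    linarith
  by_contra hne
  have h1 := key (-(B y y + 1) / (2 * B x y))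
  have : 2 * (-(B y y + 1) / (2 * B x y)) * B x y = -(B y y + 1) := by
    field_simp
  rw [this] at h1
  linarith

theorem cert_of_psd (Y : SimpleGraph V) (t : ℝ) (ht : 1 < t) (B : Matrix V V ℝ)
    (hB : B.PosSemidef) (hsupp : ∀ x y, x ≠ y → ¬ Y.Adj x y → B x y = 0)
    (htr : 0 < B.trace) (hs : t * B.trace ≤ ∑ x, ∑ y, B x y) : Cert Y (t - 1) := by
  classical
  have hne : Nonempty V := by
    by_contra hV
    rw [not_nonempty_iff] at hV
    simp [Matrix.trace] at htr
  set w : V → ℝ := fun x => (Real.sqrt (B x x))⁻¹ with hw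
  set v : V → ℝ := fun x => Real.sqrt (B x x) with hv
  have hd : ∀ x, 0 ≤ B x x := fun x => hB.diag_nonneg
  set A : Matrix V V ℝ := Matrix.of fun x y => if x = y then 0 else w x * B x y * w y with hA
  have hAsupp : ∀ x y, ¬ Y.Adj x y → A x y = 0 := by
    intro x y h
    simp only [hA, of_apply]
    split_ifs with h1
    · rfl
    · rw [hsupp x y h1 h]; ring
  have h1A : (1 + A).PosSemidef := by
    have e : 1 + A = diagonal (fun x => if B x x = 0 then (1:ℝ) else 0) +
        (diagonal w)ᴴ * B * diagonal w := by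
      ext x y
      simp only [Matrix.add_apply, Matrix.one_apply, hA, of_apply, diagonal_conjTranspose,
        star_trivial, mul_diagonal, diagonal_mul, diagonal_apply]
      by_cases hxy : x = y
      · subst hxy
        simp only [if_true]
        by_cases hx : B x x = 0
        · simp [hx, hw]
        · simp only [hx, if_false, hw]
          have : 0 < B x x := lt_of_le_of_ne (hd x) (Ne.symm hx)
          have hsq : Real.sqrt (B x x) * Real.sqrt (B x x) = B x x := Real.mul_self_sqrt (hd x)
          have hpos : 0 < Real.sqrt (B x x) := Real.sqrt_pos.2 this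
          have aux : ∀ s b : ℝ, 0 < s → s * s = b → s⁻¹ * b * s⁻¹ = 1 := by
            intro s b hs' h
            subst h
            field_simp
          have := aux _ _ hpos hsq
          linarith
      · simp [hxy]
    rw [e]
    refine PosSemidef.add (PosSemidef.diagonal ?_) (hB.conjTranspose_mul_mul_same _)
    intro x
    simp only [Pi.zero_apply]
    split_ifs <;> norm_num
  have hvv : v ⬝ᵥ v = B.trace := by
    simp only [dotProduct, hv, Matrix.trace, diag_apply]
    exact Finset.sum_congr rfl fun x _ => Real.mul_self_sqrt (hd x)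
  have hvAv : v ⬝ᵥ (A *ᵥ v) = ∑ x, ∑ y, B x y - B.trace := by
    rw [quad_eq]
    have e1 : B.trace = ∑ x, ∑ y, if x = y then B x y else 0 := by
      simp [Matrix.trace]
    rw [e1, ← Finset.sum_sub_distrib]
    refine Finset.sum_congr rfl fun x _ => ?_
    rw [← Finset.sum_sub_distrib]
    refine Finset.sum_congr rfl fun y _ => ?_
    simp only [hA, of_apply]
    by_cases hxy : x = y
    · simp [hxy]
    · simp only [hxy, if_false, sub_zero]
      by_cases hx : B x x = 0
      · rw [psd_diag_zero hB hx]; ring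
      by_cases hy : B y y = 0
      · have hsym : B x y = B y x := by
          have := congrFun (congrFun ((psd_iff B).1 hB).1 x) y
          simpa using this.symm
        rw [hsym, psd_diag_zero hB hy]; ring
      have hx' : 0 < Real.sqrt (B x x) := Real.sqrt_pos.2 (lt_of_le_of_ne (hd x) (Ne.symm hx))
      have hy' : 0 < Real.sqrt (B y y) := Real.sqrt_pos.2 (lt_of_le_of_ne (hd y) (Ne.symm hy))
      simp only [hw, hv]
      field_simp
  obtain ⟨u, hu1, hu2⟩ := exists_top A
  set L := u ⬝ᵥ (A *ᵥ u) with hL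
  have hLge : t - 1 ≤ L := by
    have h1 := hu2 v
    rw [hvAv, hvv] at h1
    have h2 : (t - 1) * B.trace ≤ L * B.trace := by linarith
    exact le_of_mul_le_mul_right h2 htr
  have hLpos : 0 < L := by linarith
  have htop : (L • (1 : Matrix V V ℝ) - A).PosSemidef := by
    rw [psd_iff]
    constructor
    · have h1 := ((psd_iff _).1 h1A).1
      have h2 : A.IsSymm := by
        have h3 : A = (1 + A) - 1 := by simp
        rw [h3]
        exact h1.sub (Matrix.isSymm_one)
      exact (Matrix.isSymm_one.smul L).sub h2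
    · intro x
      rw [sub_mulVec, smul_mulVec, one_mulVec, dotProduct_sub, dotProduct_smul, smul_eq_mul]
      linarith [hu2 x]
  set c := (t - 1) / L with hc
  have hcpos : 0 < c := div_pos (by linarith) hLpos
  have hc1 : c ≤ 1 := (div_le_one hLpos).2 hLge
  have hcL : c * L = t - 1 := div_mul_cancel₀ _ hLpos.ne'
  refine ⟨c • A, ?_, ?_, ?_, u, ?_, ?_⟩
  · intro x y h
    simp [hAsupp x y h]
  · have e : 1 + c • A = (1 - c) • (1 : Matrix V V ℝ) + c • (1 + A) := by
      rw [smul_add, ← add_assoc, ← add_smul]; simp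
    rw [e]
    exact (PosSemidef.one.smul (by linarith)).add (h1A.smul hcpos.le)
  · have e : (t - 1) • (1 : Matrix V V ℝ) - c • A = c • (L • (1 : Matrix V V ℝ) - A) := by
      rw [smul_sub, smul_smul, hcL]
    rw [e]
    exact htop.smul hcpos.le
  · intro h
    rw [h] at hu1
    simp at hu1
  · rw [smul_mulVec, dotProduct_smul, smul_eq_mul, hu1, ← hL, hcL, mul_one]

/-- The Ramsey-type property: `Y` or its complement has a certificate of value `√n`. -/
theorem cert_or_compl (Y : SimpleGraph V) (hV : 1 < Fintype.card V) :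
    Cert Y (Real.sqrt (Fintype.card V) - 1) ∨ Cert Yᶜ (Real.sqrt (Fintype.card V) - 1) := by
  have hcard : (1 : ℝ) < Fintype.card V := by exact_mod_cast hV
  have ht : 1 < Real.sqrt (Fintype.card V) := by
    rw [Real.lt_sqrt (by norm_num)]; simpa using hcard
  have hsq : Real.sqrt (Fintype.card V) * Real.sqrt (Fintype.card V) = Fintype.card V :=
    Real.mul_self_sqrt (by positivity)
  rcases duality Y (Real.sqrt (Fintype.card V)) with ⟨B, hB, hsupp, hlt⟩ | ⟨C, hC, hedge, hdiag, hsum⟩
  · left
    refine cert_of_psd Y _ ht B hB hsupp ?_ hlt.le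
    have h0 : 0 ≤ B.trace := hB.trace_nonneg
    rcases h0.lt_or_eq with h1 | h1
    · exact h1
    · exfalso
      have h2 : ∀ x, B x x = 0 := by
        have : ∑ x, B x x = 0 := h1.symm
        intro x
        exact (Finset.sum_eq_zero_iff_of_nonneg (fun x _ => hB.diag_nonneg)).1 this x
          (Finset.mem_univ x)
      have h3 : ∑ x, ∑ y, B x y = 0 :=
        Finset.sum_eq_zero fun x _ => Finset.sum_eq_zero fun y _ => psd_diag_zero hB (h2 x)
      rw [h3, ← h1] at hlt
      simp at hlt
  · right
    have htr : C.trace = Fintype.card V * Real.sqrt (Fintype.card V) := by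
      simp [Matrix.trace, hdiag]
    refine cert_of_psd Yᶜ _ ht C hC ?_ ?_ ?_
    · intro x y hxy hn
      apply hedge
      rw [SimpleGraph.compl_adj] at hn
      by_contra h
      exact hn ⟨hxy, h⟩
    · rw [htr]
      positivity
    · rw [htr]
      calc Real.sqrt (Fintype.card V) * (Fintype.card V * Real.sqrt (Fintype.card V))
          = (Real.sqrt (Fintype.card V) * Real.sqrt (Fintype.card V)) * Fintype.card V := by ring
        _ = (Fintype.card V : ℝ) ^ 2 := by rw [hsq]; ring
        _ ≤ _ := hsum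

end

end Pool.Agent.H33
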