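import Mathlib
import Pool.Agent.H33.Normalize

set_option autoImplicit false

namespace Pool.Agent.H33

open Matrix Finset
open scoped Kronecker

/-- all-ones matrix -/
def onesM (W : Type) : Matrix W W ℝ := Matrix.of fun _ _ => 1

theorem onesM_psd (W : Type) [Fintype W] [DecidableEq W] : (onesM W).PosSemidef := by
  rw [psd_iff]
  constructor
  · ext i j; simp [onesM]
  · intro x
    rw [quad_eq]
    have : ∑ i, ∑ j, onesM W i j * (x i * x j) = (∑ i, x i) ^ 2 := by
      rw [sq, Finset.sum_mul_sum]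
      refine Finset.sum_congr rfl fun i _ => Finset.sum_congr rfl fun j _ => ?_
      simp [onesM]
    rw [this]
    positivity

/-- strong product of graphs -/
def sprod {V W : Type} (X : SimpleGraph V) (Y : SimpleGraph W) : SimpleGraph (V × W) where
  Adj a b := a ≠ b ∧ (a.1 = b.1 ∨ X.Adj a.1 b.1) ∧ (a.2 = b.2 ∨ Y.Adj a.2 b.2)
  symm := ⟨fun _ _ h => ⟨h.1.symm, h.2.1.imp Eq.symm (fun k => k.symm),
    h.2.2.imp Eq.symm (fun k => k.symm)⟩⟩
  loopless := ⟨fun _ h => h.1 rfl⟩

/-- `F` is locally `m`-colourable and has theta number at most `τ`. -/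
def Good {W : Type} [Fintype W] [DecidableEq W] (F : SimpleGraph W) (τ : ℝ) (m : ℕ) : Prop :=
  (∃ C : Matrix W W ℝ, C.PosSemidef ∧ (C - onesM W).PosSemidef ∧ (∀ x, C x x = τ) ∧
    ∀ x y, x ≠ y → ¬ F.Adj x y → C x y = 0) ∧
  (∀ v, ∃ c : W → Fin m, ∀ x y, (v = x ∨ F.Adj v x) → (v = y ∨ F.Adj v y) → F.Adj x y → c x ≠ c y)

theorem Good.sprod {V W : Type} [Fintype V] [DecidableEq V] [Fintype W] [DecidableEq W]
    {X : SimpleGraph V} {Y : SimpleGraph W} {τ σ : ℝ} {m l : ℕ}
    (hX : Good X τ m) (hY : Good Y σ l) : Good (sprod X Y) (τ * σ) (m * l) := by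
  obtain ⟨⟨C, hC, hCJ, hCd, hCe⟩, hXc⟩ := hX
  obtain ⟨⟨D, hD, hDJ, hDd, hDe⟩, hYc⟩ := hY
  refine ⟨⟨C ⊗ₖ D, hC.kronecker hD, ?_, ?_, ?_⟩, ?_⟩
  · have e : (C ⊗ₖ D) - onesM (V × W) = C ⊗ₖ (D - onesM W) + (C - onesM V) ⊗ₖ onesM W := by
      ext ⟨a, b⟩ ⟨c, d⟩
      simp only [Matrix.sub_apply, Matrix.add_apply, kroneckerMap_apply, onesM, of_apply]
      ring
    rw [e]
    exact (hC.kronecker hDJ).add (hCJ.kronecker (onesM_psd W))
  · rintro ⟨a, b⟩
    simp [hCd, hDd]
  · rintro ⟨a, b⟩ ⟨c, d⟩ hne hn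
    simp only [kroneckerMap_apply]
    by_cases h1 : a = c ∨ X.Adj a c
    · by_cases h2 : b = d ∨ Y.Adj b d
      · exact absurd (And.intro hne (And.intro h1 h2)) hn
      · push Not at h2
        rw [hDe b d h2.1 h2.2, mul_zero]
    · push Not at h1
      rw [hCe a c h1.1 h1.2, zero_mul]
  · rintro ⟨a, b⟩
    obtain ⟨f, hf⟩ := hXc a
    obtain ⟨g, hg⟩ := hYc b
    refine ⟨fun p => finProdFinEquiv (f p.1, g p.2), ?_⟩
    rintro ⟨x, y⟩ ⟨x', y'⟩ h1 h2 ⟨hne, h3, h4⟩ heq
    have heq' := finProdFinEquiv.injective heq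
    simp only [Prod.mk.injEq] at heq'
    have k1 : a = x ∨ X.Adj a x := by
      rcases h1 with h | h
      · left; exact congrArg Prod.fst h
      · exact h.2.1
    have k2 : b = y ∨ Y.Adj b y := by
      rcases h1 with h | h
      · left; exact congrArg Prod.snd h
      · exact h.2.2
    have k3 : a = x' ∨ X.Adj a x' := by
      rcases h2 with h | h
      · left; exact congrArg Prod.fst h
      · exact h.2.1
    have k4 : b = y' ∨ Y.Adj b y' := by
      rcases h2 with h | h
      · left; exact congrArg Prod.snd h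
      · exact h.2.2
    simp only at h3 h4
    rcases h3 with h3 | h3
    · rcases h4 with h4 | h4
      · exact hne (by rw [h3, h4])
      · exact hg y y' k2 k4 h4 heq'.2
    · exact hf x x' k1 k3 h3 heq'.1

theorem good_top (m : ℕ) : Good (⊤ : SimpleGraph (Fin m)) 1 m := by
  refine ⟨⟨onesM (Fin m), onesM_psd _, ?_, ?_, ?_⟩, ?_⟩
  · rw [sub_self]; exact PosSemidef.zero
  · intro x; simp [onesM]
  · intro x y h1 h2
    simp only [SimpleGraph.top_adj] at h2
    exact absurd h1 h2
  · intro v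
    refine ⟨id, fun x y _ _ h => ?_⟩
    simpa using h

/-- adjacency lists of the Petersen graph -/
def petB (i j : Fin 10) : Bool :=
  (![![1, 4, 5], ![0, 2, 6], ![1, 3, 7], ![2, 4, 8], ![3, 0, 9],
    ![0, 7, 8], ![1, 8, 9], ![2, 9, 5], ![3, 5, 6], ![4, 6, 7]] : Fin 10 → Fin 3 → Fin 10) i 0 = j ||
  (![![1, 4, 5], ![0, 2, 6], ![1, 3, 7], ![2, 4, 8], ![3, 0, 9],
    ![0, 7, 8], ![1, 8, 9], ![2, 9, 5], ![3, 5, 6], ![4, 6, 7]] : Fin 10 → Fin 3 → Fin 10) i 1 = j ||
  (![![1, 4, 5], ![0, 2, 6], ![1, 3, 7], ![2, 4, 8], ![3, 0, 9],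
    ![0, 7, 8], ![1, 8, 9], ![2, 9, 5], ![3, 5, 6], ![4, 6, 7]] : Fin 10 → Fin 3 → Fin 10) i 2 = j

theorem petB_symm : ∀ i j, petB i j = petB j i := by decide
theorem petB_irrefl : ∀ i, petB i i = false := by decide

def pet : SimpleGraph (Fin 10) where
  Adj i j := petB i j = true
  symm := ⟨fun i j h => by rw [petB_symm]; exact h⟩
  loopless := ⟨fun i h => by rw [petB_irrefl] at h; exact absurd h (by decide)⟩

def petT (i j : Fin 10) : ℤ := if i = j then 3 else if petB i j then 1 else -1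

theorem petT_sq : ∀ i j, ∑ k, petT k i * petT k j = 6 * petT i j := by decide

theorem pet_triangle_free : ∀ i j k, petB i j = true → petB i k = true → petB j k = false := by
  decide

theorem good_pet : Good pet 4 2 := by
  have hT : (Matrix.of fun i j => (petT i j : ℝ)).PosSemidef := by
    have e : (Matrix.of fun i j => (petT i j : ℝ)) =
        (1/6 : ℝ) • ((Matrix.of fun i j => (petT i j : ℝ))ᴴ * (Matrix.of fun i j => (petT i j : ℝ))) := by
      ext i j
      have h := petT_sq i j
      have h' : ∑ k, (petT k i : ℝ) * petT k j = 6 * petT i j := by exact_mod_cast h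
      simp only [of_apply, Matrix.smul_apply, mul_apply, conjTranspose_apply, star_trivial,
        smul_eq_mul]
      rw [h']
      ring
    rw [e]
    exact (posSemidef_conjTranspose_mul_self _).smul (by norm_num)
  refine ⟨⟨(Matrix.of fun i j => (petT i j : ℝ)) + onesM (Fin 10), hT.add (onesM_psd _), ?_, ?_, ?_⟩, ?_⟩
  · rw [add_sub_cancel_right]; exact hT
  · intro x
    simp only [Matrix.add_apply, of_apply, petT, onesM, if_true]
    norm_num
  · intro x y h1 h2
    have h2' : petB x y = false := by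
      simpa [pet] using h2
    simp only [Matrix.add_apply, of_apply, petT, onesM, h1, h2', if_false]
    norm_num
  · intro v
    refine ⟨fun x => if v = x then 0 else 1, ?_⟩
    intro x y hx hy hxy heq
    by_cases h1 : v = x
    · by_cases h2 : v = y
      · subst h1; subst h2
        exact pet.loopless.irrefl _ hxy
      · simp [h1, h1 ▸ h2] at heq
    · by_cases h2 : v = y
      · simp [h2, h2 ▸ h1] at heq
      · have h3 : petB v x = true := by
          rcases hx with h | h
          · exact absurd h h1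
          · exact h
        have h4 : petB v y = true := by
          rcases hy with h | h
          · exact absurd h h2
          · exact h
        have h5 : petB x y = true := hxy
        rw [pet_triangle_free v x y h3 h4] at h5
        exact absurd h5 (by decide)

theorem good_pow (k : ℕ) : ∃ (W : Type) (_ : Fintype W) (_ : DecidableEq W) (F : SimpleGraph W),
    Fintype.card W = 20 ^ k ∧ Good F (4 ^ k) (4 ^ k) := by
  induction k with
  | zero =>
    refine ⟨Fin 1, inferInstance, inferInstance, ⊤, by simp, ?_⟩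
    simpa using good_top 1
  | succ k ih =>
    obtain ⟨W, i1, i2, F, hc, hF⟩ := ih
    refine ⟨W × (Fin 10 × Fin 2), inferInstance, inferInstance, sprod F (sprod pet ⊤), ?_, ?_⟩
    · simp [hc]; ring
    · have h := hF.sprod (good_pet.sprod (good_top 2))
      have e1 : (4 : ℝ) ^ k * (4 * 1) = 4 ^ (k + 1) := by ring
      have e2 : 4 ^ k * (2 * 2) = 4 ^ (k + 1) := by ring
      rw [e1, e2] at h
      exact h

/-- `m` times identity minus all-ones is PSD -/
theorem psd_top (m : ℕ) : ((m : ℝ) • (1 : Matrix (Fin m) (Fin m) ℝ) - onesM (Fin m)).PosSemidef := by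
  rw [psd_iff]
  constructor
  · refine (Matrix.isSymm_one.smul _).sub ?_
    ext i j; simp [onesM]
  · intro x
    rw [sub_mulVec, smul_mulVec, one_mulVec, dotProduct_sub, dotProduct_smul, smul_eq_mul]
    have h1 : x ⬝ᵥ (onesM (Fin m) *ᵥ x) = (∑ i, x i) ^ 2 := by
      rw [quad_eq, sq, Finset.sum_mul_sum]
      refine Finset.sum_congr rfl fun i _ => Finset.sum_congr rfl fun j _ => ?_
      simp [onesM]
    have h2 : x ⬝ᵥ x = ∑ i, x i ^ 2 := by
      simp only [dotProduct]
      exact Finset.sum_congr rfl fun i _ => by ring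
    have h3 := sq_sum_le_card_mul_sum_sq (s := (Finset.univ : Finset (Fin m))) (f := x)
    simp only [Finset.card_univ, Fintype.card_fin] at h3
    rw [h1, h2]
    linarith

/-- no homomorphism to a closed neighbourhood -/
theorem Good.no_hom_local {V W : Type} [Fintype V] [DecidableEq V] [Fintype W] [DecidableEq W]
    {G : SimpleGraph V} {F : SimpleGraph W} {h τ : ℝ} {m : ℕ} (hF : Good F τ m) (hG : Cert G h)
    (hm : (m : ℝ) < h + 1) (v : W) (φ : G →g F) (hφ : ∀ x, F.Adj v (φ x)) : False := by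
  obtain ⟨c, hc⟩ := hF.2 v
  let ψ : G →g (⊤ : SimpleGraph (Fin m)) :=
    ⟨fun x => c (φ x), fun {x y} hxy => by
      simp only [SimpleGraph.top_adj]
      exact hc _ _ (Or.inr (hφ x)) (Or.inr (hφ y)) (φ.map_adj hxy)⟩
  have := hG.le_of_hom (τ := m) ψ _ (psd_top m) (by
    intro i; simp [onesM]) (by
    intro i j hij
    simp only [SimpleGraph.top_adj] at hij
    simp [onesM, hij])
  linarith

/-- no homomorphism to the complement -/
theorem Good.no_hom_compl {V W : Type} [Fintype V] [DecidableEq V] [Fintype W] [DecidableEq W]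
    {G : SimpleGraph V} {F : SimpleGraph W} {h τ : ℝ} {m : ℕ} (hF : Good F τ m) (hG : Cert G h)
    (hm : τ < h + 1) (φ : G →g Fᶜ) : False := by
  obtain ⟨C, _, hCJ, hCd, hCe⟩ := hF.1
  have := hG.le_of_hom (τ := τ) φ _ hCJ (by
    intro i; simp [onesM, hCd]) (by
    intro i j hij
    rw [SimpleGraph.compl_adj] at hij
    simp [onesM, hCe i j hij.1 hij.2])
  linarith

/-- Universal graph: maps to `Y` or `Yᶜ` for all `Y` on `N` vertices, yet has large theta. -/
theorem exists_universal (N : ℕ) (hN : 4 ≤ N) :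
    ∃ (V : Type) (_ : Fintype V) (_ : DecidableEq V) (G : SimpleGraph V),
      Cert G (Real.sqrt N - 1) ∧
      ∀ Y : SimpleGraph (Fin N), Nonempty (G →g Y) ∨ Nonempty (G →g Yᶜ) := by
  classical
  set h := Real.sqrt N - 1 with hh
  have h1 : 1 ≤ h := by
    have : (2 : ℝ) ≤ Real.sqrt N := by
      have h4 : (4 : ℝ) ≤ N := by exact_mod_cast hN
      exact Real.le_sqrt_of_sq_le (by linarith)
    linarith
  have hor : ∀ Y : SimpleGraph (Fin N), Cert Y h ∨ Cert Yᶜ h := by
    intro Y
    have := cert_or_compl Y (by simpa using (by omega : 1 < N))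
    simpa using this
  obtain ⟨Y0, hY0⟩ : ∃ Y : SimpleGraph (Fin N), Cert Y h := by
    rcases hor ⊤ with h | h
    · exact ⟨_, h⟩
    · exact ⟨_, h⟩
  have key : ∀ S : Finset (SimpleGraph (Fin N)), (∀ Y ∈ S, Cert Y h) →
      ∃ (V : Type) (_ : Fintype V) (_ : DecidableEq V) (G : SimpleGraph V),
      Cert G h ∧ ∀ Y ∈ S, Nonempty (G →g Y) := by
    intro S
    induction S using Finset.induction_on with
    | empty =>
      intro _
      exact ⟨Fin N, inferInstance, inferInstance, Y0, hY0, by simp⟩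
    | insert Y S hYS ih =>
      intro hS
      obtain ⟨V, i1, i2, G, hG, hGS⟩ := ih (fun Z hZ => hS Z (Finset.mem_insert_of_mem hZ))
      refine ⟨V × Fin N, inferInstance, inferInstance, tprod G Y,
        Cert.tprod h1 hG (hS Y (Finset.mem_insert_self _ _)), ?_⟩
      intro Z hZ
      rcases Finset.mem_insert.1 hZ with rfl | hZ
      · exact ⟨⟨Prod.snd, fun hab => hab.2⟩⟩
      · obtain ⟨φ⟩ := hGS Z hZ
        exact ⟨φ.comp ⟨Prod.fst, fun hab => hab.1⟩⟩
  obtain ⟨V, i1, i2, G, hG, hGS⟩ := key (Finset.univ.filter fun Y => Cert Y h) (by simp)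
  refine ⟨V, i1, i2, G, hG, fun Y => ?_⟩
  rcases hor Y with h | h
  · exact Or.inl (hGS Y (by simp [h]))
  · exact Or.inr (hGS Yᶜ (by simp [h]))

end Pool.Agent.H33
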