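import Mathlib

set_option autoImplicit false

namespace Pool.Agent.H33

open Finset

/-- finite Ramsey theorem for two colours -/
theorem ramsey (s : ℕ) : ∀ t : ℕ, ∃ N : ℕ, ∀ (V : Type) [DecidableEq V] (A : Finset V)
    (col : V → V → Bool), (∀ a b, col a b = col b a) → N ≤ A.card →
    (∃ S ⊆ A, S.card = s ∧ ∀ x ∈ S, ∀ y ∈ S, x ≠ y → col x y = true) ∨
    (∃ S ⊆ A, S.card = t ∧ ∀ x ∈ S, ∀ y ∈ S, x ≠ y → col x y = false) := by
  induction s with
  | zero =>
    intro t
    exact ⟨0, fun V _ A col _ _ => Or.inl ⟨∅, by simp, by simp, by simp⟩⟩
  | succ s ihs =>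
    intro t
    induction t with
    | zero => exact ⟨0, fun V _ A col _ _ => Or.inr ⟨∅, by simp, by simp, by simp⟩⟩
    | succ t iht =>
      obtain ⟨N1, h1⟩ := ihs (t + 1)
      obtain ⟨N2, h2⟩ := iht
      refine ⟨N1 + N2 + 1, fun V _ A col hsym hA => ?_⟩
      have hne : A.Nonempty := by
        rw [← Finset.card_pos]; omega
      obtain ⟨v, hv⟩ := hne
      set R := (A.erase v).filter (fun x => col v x = true) with hR
      set B := (A.erase v).filter (fun x => ¬ col v x = true) with hB
      have hcard : R.card + B.card = (A.erase v).card :=
        Finset.card_filter_add_card_filter_not (s := A.erase v) (fun x => col v x = true)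
      rw [Finset.card_erase_of_mem hv] at hcard
      by_cases hc : N1 ≤ R.card
      · rcases h1 V R col hsym hc with ⟨S, hS, hSc, hmono⟩ | ⟨S, hS, hSc, hmono⟩
        · left
          have hvS : v ∉ S := fun h => by
            have := hS h
            simp [hR] at this
          refine ⟨insert v S, ?_, ?_, ?_⟩
          · intro x hx
            rcases Finset.mem_insert.1 hx with rfl | hx
            · exact hv
            · have := hS hx
              simp only [hR, Finset.mem_filter, Finset.mem_erase] at this
              exact this.1.2
          · rw [Finset.card_insert_of_notMem hvS, hSc]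
          · intro x hx y hy hxy
            rcases Finset.mem_insert.1 hx with rfl | hx
            · rcases Finset.mem_insert.1 hy with rfl | hy
              · exact absurd rfl hxy
              · have := hS hy
                simp only [hR, Finset.mem_filter] at this
                exact this.2
            · rcases Finset.mem_insert.1 hy with hyv | hy
              · subst hyv
                have := hS (by assumption : x ∈ S)
                simp only [hR, Finset.mem_filter] at this
                rw [hsym]
                exact this.2
              · exact hmono x hx y hy hxy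
        · right
          refine ⟨S, fun x hx => ?_, hSc, hmono⟩
          have := hS hx
          simp only [hR, Finset.mem_filter, Finset.mem_erase] at this
          exact this.1.2
      · have hc2 : N2 ≤ B.card := by omega
        rcases h2 V B col hsym hc2 with ⟨S, hS, hSc, hmono⟩ | ⟨S, hS, hSc, hmono⟩
        · left
          refine ⟨S, fun x hx => ?_, hSc, hmono⟩
          have := hS hx
          simp only [hB, Finset.mem_filter, Finset.mem_erase] at this
          exact this.1.2
        · right
          have hvS : v ∉ S := fun h => by
            have := hS h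
            simp [hB] at this
          refine ⟨insert v S, ?_, ?_, ?_⟩
          · intro x hx
            rcases Finset.mem_insert.1 hx with rfl | hx
            · exact hv
            · have := hS hx
              simp only [hB, Finset.mem_filter, Finset.mem_erase] at this
              exact this.1.2
          · rw [Finset.card_insert_of_notMem hvS, hSc]
          · intro x hx y hy hxy
            rcases Finset.mem_insert.1 hx with rfl | hx
            · rcases Finset.mem_insert.1 hy with rfl | hy
              · exact absurd rfl hxy
              · have := hS hy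
                simp only [hB, Finset.mem_filter] at this
                simpa using this.2
            · rcases Finset.mem_insert.1 hy with hyv | hy
              · subst hyv
                have := hS (by assumption : x ∈ S)
                simp only [hB, Finset.mem_filter] at this
                rw [hsym]
                simpa using this.2
              · exact hmono x hx y hy hxy

/-- from a finset with at least m elements extract an injection -/
theorem exists_inj_of_card {V : Type} (S : Finset V) (m : ℕ) (h : m ≤ S.card) :
    ∃ f : Fin m → V, Function.Injective f ∧ ∀ i, f i ∈ S := by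
  obtain ⟨e⟩ : Nonempty (Fin m ↪ S) := by
    apply Function.Embedding.nonempty_of_card_le
    simpa using h
  exact ⟨fun i => (e i : V), fun i j hij => e.injective (Subtype.ext hij), fun i => (e i).2⟩

/-- bipartite Ramsey -/
theorem bip_ramsey (m : ℕ) : ∃ K : ℕ, ∀ c : Fin K → Fin K → Bool,
    ∃ f g : Fin m → Fin K, Function.Injective f ∧ Function.Injective g ∧
      ∃ b, ∀ a a', c (f a) (g a') = b := by
  classical
  set L := 2 * m with hL
  obtain ⟨K, hK⟩ : ∃ K, K = L + 2 ^ L * m := ⟨_, rfl⟩
  refine ⟨K, fun c => ?_⟩
  have hLK : L ≤ K := by omega
  set ρ : Fin K → (Fin L → Bool) := fun y a => c (Fin.castLE hLK a) y with hρ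
  obtain ⟨p, hp⟩ : ∃ p : Fin L → Bool, m ≤ (Finset.univ.filter fun y => ρ y = p).card := by
    apply Fintype.exists_le_card_fiber_of_mul_le_card ρ (n := m)
    · simp [hK]
  obtain ⟨b, hb⟩ : ∃ b : Bool, m ≤ (Finset.univ.filter fun a => p a = b).card := by
    apply Fintype.exists_le_card_fiber_of_mul_le_card p (n := m)
    · simp [hL]
  obtain ⟨g, hg1, hg2⟩ := exists_inj_of_card _ m hp
  obtain ⟨f, hf1, hf2⟩ := exists_inj_of_card _ m hb
  refine ⟨fun a => Fin.castLE hLK (f a), g, ?_, hg1, b, ?_⟩
  · intro x y hxy
    exact hf1 (Fin.castLE_injective hLK hxy)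
  · intro a a'
    have h1 := hg2 a'
    have h2 := hf2 a
    simp only [Finset.mem_filter, Finset.mem_univ, true_and] at h1 h2
    have h3 := congrFun h1 (f a)
    simp only [hρ] at h3
    exact h3.trans h2

/-- multipartite blow-up Ramsey -/
theorem blowup_ramsey (N : ℕ) (S : Finset (Fin N × Fin N)) (hS : ∀ p ∈ S, p.1 ≠ p.2) :
    ∀ m : ℕ, ∃ K : ℕ, ∀ col : (Fin N × Fin K) → (Fin N × Fin K) → Bool,
      ∃ e : Fin N → Fin m → Fin K, (∀ i, Function.Injective (e i)) ∧
        ∀ p ∈ S, ∃ b, ∀ a a', col (p.1, e p.1 a) (p.2, e p.2 a') = b := by
  classical
  induction S using Finset.induction_on with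
  | empty =>
    intro m
    exact ⟨m, fun col => ⟨fun _ => id, fun _ => Function.injective_id, by simp⟩⟩
  | insert p S hpS ih =>
    intro m
    obtain ⟨M, hM⟩ := bip_ramsey m
    obtain ⟨K, hK⟩ := ih (fun q hq => hS q (Finset.mem_insert_of_mem hq)) M
    refine ⟨K, fun col => ?_⟩
    obtain ⟨e, he1, he2⟩ := hK col
    obtain ⟨f, g, hf, hg, b, hb⟩ := hM (fun a a' => col (p.1, e p.1 a) (p.2, e p.2 a'))
    have hp : p.1 ≠ p.2 := hS p (Finset.mem_insert_self _ _)
    refine ⟨fun i a => if i = p.2 then e i (g a) else e i (f a), ?_, ?_⟩
    · intro i x y hxy
      simp only at hxy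
      split_ifs at hxy with h
      · exact hg (he1 i hxy)
      · exact hf (he1 i hxy)
    · intro q hq
      rcases Finset.mem_insert.1 hq with rfl | hq
      · refine ⟨b, fun a a' => ?_⟩
        simp only [hp, if_false, if_true]
        exact hb a a'
      · obtain ⟨b', hb'⟩ := he2 q hq
        refine ⟨b', fun a a' => ?_⟩
        have : ∀ i a, ∃ a'', (if i = p.2 then e i (g a) else e i (f a)) = e i a'' := by
          intro i a
          split_ifs
          · exact ⟨_, rfl⟩
          · exact ⟨_, rfl⟩
        obtain ⟨x, hx⟩ := this q.1 a
        obtain ⟨y, hy⟩ := this q.2 a'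
        simp only [hx, hy]
        exact hb' x y

end Pool.Agent.H33
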