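import Mathlib
import Pool.Agent.H33.Good
import Pool.Agent.H33.RamseyAux

set_option autoImplicit false

namespace Pool.Agent.H33

open Finset

/-- blow-up host graph -/
def blow (N K : ℕ) : SimpleGraph (Fin N × Fin K) where
  Adj a b := a.1 ≠ b.1
  symm := ⟨fun _ _ h => h.symm⟩
  loopless := ⟨fun _ h => h rfl⟩

/-- if `G` maps to `Y` or `Yᶜ` for all `Y` on `N` vertices then the chromatic Ramsey number of
`G` is at most `N`. -/
theorem upper {n N : ℕ} (G : SimpleGraph (Fin n))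
    (hG : ∀ Y : SimpleGraph (Fin N), Nonempty (G →g Y) ∨ Nonempty (G →g Yᶜ)) :
    ∃ (m : ℕ) (H : SimpleGraph (Fin m)), H.Colorable N ∧
      ∀ col : Fin m → Fin m → Bool, (∀ a b, col a b = col b a) →
        ∃ (f : Fin n → Fin m) (b : Bool), Function.Injective f ∧
          ∀ x y : Fin n, G.Adj x y → H.Adj (f x) (f y) ∧ col (f x) (f y) = b := by
  classical
  obtain ⟨K, hK⟩ := blowup_ramsey N (Finset.univ.filter fun p : Fin N × Fin N => p.1 ≠ p.2)
    (by simp) n
  have E : (Fin N × Fin K) ≃ Fin (N * K) := finProdFinEquiv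
  refine ⟨N * K, (blow N K).comap E.symm, ?_, ?_⟩
  · refine ⟨SimpleGraph.Coloring.mk (fun x => (E.symm x).1) ?_⟩
    intro x y hxy
    exact hxy
  · intro col hsym
    obtain ⟨e, he1, he2⟩ := hK (fun a b => col (E a) (E b))
    have he3 : ∀ i j : Fin N, ∃ b : Bool, i ≠ j → ∀ a a', col (E (i, e i a)) (E (j, e j a')) = b := by
      intro i j
      by_cases hij : i = j
      · exact ⟨true, fun h => absurd hij h⟩
      · obtain ⟨b, hb⟩ := he2 (i, j) (by simp [hij])
        exact ⟨b, fun _ => hb⟩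
    choose c hc using he3
    let Y : SimpleGraph (Fin N) :=
      { Adj := fun i j => i ≠ j ∧ ∀ a a', col (E (i, e i a)) (E (j, e j a')) = true
        symm := ⟨fun i j h => ⟨h.1.symm, fun a a' => by rw [hsym]; exact h.2 a' a⟩⟩
        loopless := ⟨fun i h => h.1 rfl⟩ }
    rcases hG Y with ⟨⟨φ⟩⟩ | ⟨⟨φ⟩⟩
    · refine ⟨fun x => E (φ x, e (φ x) x), true, ?_, ?_⟩
      · intro x y hxy
        have h1 := E.injective hxy
        simp only [Prod.mk.injEq] at h1
        obtain ⟨h1, h2⟩ := h1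
        rw [h1] at h2
        exact he1 _ h2
      · intro x y hxy
        have h1 : Y.Adj (φ x) (φ y) := φ.map_adj hxy
        refine ⟨?_, h1.2 _ _⟩
        simp only [SimpleGraph.comap_adj, Equiv.symm_apply_apply]
        exact h1.1
    · refine ⟨fun x => E (φ x, e (φ x) x), false, ?_, ?_⟩
      · intro x y hxy
        have h1 := E.injective hxy
        simp only [Prod.mk.injEq] at h1
        obtain ⟨h1, h2⟩ := h1
        rw [h1] at h2
        exact he1 _ h2
      · intro x y hxy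
        have h1 : Yᶜ.Adj (φ x) (φ y) := φ.map_adj hxy
        rw [SimpleGraph.compl_adj] at h1
        refine ⟨?_, ?_⟩
        · simp only [SimpleGraph.comap_adj, Equiv.symm_apply_apply]
          exact h1.1
        · have h2 : c (φ x) (φ y) ≠ true := fun h3 =>
            h1.2 ⟨h1.1, fun a a' => by rw [hc _ _ h1.1 a a', h3]⟩
          have h4 : c (φ x) (φ y) = false := by simpa using h2
          rw [hc _ _ h1.1 x y, h4]

/-- if there is a graph `F` on `M` vertices such that `G` maps neither to `F` nor to `Fᶜ`, then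
every host graph for `G` has chromatic number larger than `M` -/
theorem lower {n N : ℕ} (G : SimpleGraph (Fin n)) {W : Type} [Fintype W]
    (F : SimpleGraph W) (h1 : ∀ φ : G →g F, False) (h2 : ∀ φ : G →g Fᶜ, False)
    (hN : ∃ (m : ℕ) (H : SimpleGraph (Fin m)), H.Colorable N ∧
      ∀ col : Fin m → Fin m → Bool, (∀ a b, col a b = col b a) →
        ∃ (f : Fin n → Fin m) (b : Bool), Function.Injective f ∧
          ∀ x y : Fin n, G.Adj x y → H.Adj (f x) (f y) ∧ col (f x) (f y) = b) :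
    Fintype.card W < N := by
  classical
  by_contra hle
  push Not at hle
  obtain ⟨m, H, hH, hcol⟩ := hN
  have hHW : H.Colorable (Fintype.card W) := hH.mono hle
  obtain ⟨C⟩ := hHW
  let κ : Fin m → W := fun x => (Fintype.equivFin W).symm (C x)
  have hκ : ∀ x y, H.Adj x y → κ x ≠ κ y := by
    intro x y hxy heq
    exact C.valid hxy ((Fintype.equivFin W).symm.injective heq)
  obtain ⟨f, b, _, hf⟩ := hcol (fun x y => decide (F.Adj (κ x) (κ y)))
    (fun a b => by simp [SimpleGraph.adj_comm])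
  cases b with
  | true =>
    refine h1 ⟨fun x => κ (f x), ?_⟩
    intro x y hxy
    have := (hf x y hxy).2
    simpa using this
  | false =>
    refine h2 ⟨fun x => κ (f x), ?_⟩
    intro x y hxy
    have h3 := (hf x y hxy).2
    have h4 := hκ _ _ (hf x y hxy).1
    rw [SimpleGraph.compl_adj]
    exact ⟨h4, by simpa using h3⟩

/-- existence of some host graph -/
theorem nonempty_host {n : ℕ} (G : SimpleGraph (Fin n)) :
    ∃ N : ℕ, ∃ (m : ℕ) (H : SimpleGraph (Fin m)), H.Colorable N ∧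
      ∀ col : Fin m → Fin m → Bool, (∀ a b, col a b = col b a) →
        ∃ (f : Fin n → Fin m) (b : Bool), Function.Injective f ∧
          ∀ x y : Fin n, G.Adj x y → H.Adj (f x) (f y) ∧ col (f x) (f y) = b := by
  classical
  obtain ⟨R, hR⟩ := ramsey n n
  refine ⟨R, R, ⊤, ?_, ?_⟩
  · exact ⟨SimpleGraph.Coloring.mk id (by simp)⟩
  · intro col hsym
    rcases hR (Fin R) Finset.univ col hsym (by simp) with ⟨S, -, hS, hmono⟩ | ⟨S, -, hS, hmono⟩
    · obtain ⟨f, hf1, hf2⟩ := exists_inj_of_card S n hS.ge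
      refine ⟨f, true, hf1, fun x y hxy => ⟨?_, ?_⟩⟩
      · rw [SimpleGraph.top_adj]
        exact fun h => hxy.ne (hf1 h)
      · exact hmono _ (hf2 x) _ (hf2 y) (fun h => hxy.ne (hf1 h))
    · obtain ⟨f, hf1, hf2⟩ := exists_inj_of_card S n hS.ge
      refine ⟨f, false, hf1, fun x y hxy => ⟨?_, ?_⟩⟩
      · rw [SimpleGraph.top_adj]
        exact fun h => hxy.ne (hf1 h)
      · exact hmono _ (hf2 x) _ (hf2 y) (fun h => hxy.ne (hf1 h))

/-- cone over a graph, apex `0` -/
def cone {n : ℕ} (G : SimpleGraph (Fin n)) : SimpleGraph (Fin (n + 1)) where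
  Adj x y := x ≠ y ∧ (x = 0 ∨ y = 0 ∨ ∃ a b, x = Fin.succ a ∧ y = Fin.succ b ∧ G.Adj a b)
  symm := ⟨by
    rintro x y ⟨h1, h2 | h2 | ⟨a, b, h3, h4, h5⟩⟩
    · exact ⟨h1.symm, Or.inr (Or.inl h2)⟩
    · exact ⟨h1.symm, Or.inl h2⟩
    · exact ⟨h1.symm, Or.inr (Or.inr ⟨b, a, h4, h3, h5.symm⟩)⟩⟩
  loopless := ⟨fun _ h => h.1 rfl⟩

theorem cone_adj_succ {n : ℕ} (G : SimpleGraph (Fin n)) (a b : Fin n) :
    (cone G).Adj (Fin.succ a) (Fin.succ b) ↔ G.Adj a b := by
  constructor
  · rintro ⟨h1, h2 | h2 | ⟨c, d, h3, h4, h5⟩⟩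
    · exact absurd h2 (Fin.succ_ne_zero a)
    · exact absurd h2 (Fin.succ_ne_zero b)
    · rw [Fin.succ_inj] at h3 h4
      rw [h3, h4]; exact h5
  · intro h
    exact ⟨fun he => h.ne (Fin.succ_injective _ he), Or.inr (Or.inr ⟨a, b, rfl, rfl, h⟩)⟩

theorem cone_adj_zero {n : ℕ} (G : SimpleGraph (Fin n)) (a : Fin n) :
    (cone G).Adj 0 (Fin.succ a) :=
  ⟨(Fin.succ_ne_zero a).symm, Or.inl rfl⟩

/-- Main construction: for every `k ≥ 1` there is a graph `G` whose chromatic Ramsey number is at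
most `16^k+1` while that of its cone is larger than `20^k`. -/
theorem main_construction (k : ℕ) (hk : 1 ≤ k) :
    ∃ (n : ℕ) (G : SimpleGraph (Fin n)), 0 < n ∧
      (∃ (m : ℕ) (H : SimpleGraph (Fin m)), H.Colorable (16 ^ k + 1) ∧
      ∀ col : Fin m → Fin m → Bool, (∀ a b, col a b = col b a) →
        ∃ (f : Fin n → Fin m) (b : Bool), Function.Injective f ∧
          ∀ x y : Fin n, G.Adj x y → H.Adj (f x) (f y) ∧ col (f x) (f y) = b) ∧
      ∀ N : ℕ, (∃ (m : ℕ) (H : SimpleGraph (Fin m)), H.Colorable N ∧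
      ∀ col : Fin m → Fin m → Bool, (∀ a b, col a b = col b a) →
        ∃ (f : Fin (n + 1) → Fin m) (b : Bool), Function.Injective f ∧
          ∀ x y : Fin (n + 1), (cone G).Adj x y → H.Adj (f x) (f y) ∧ col (f x) (f y) = b) →
      20 ^ k < N := by
  have h16 : 16 ≤ 16 ^ k := by
    calc 16 = 16 ^ 1 := by norm_num
      _ ≤ 16 ^ k := Nat.pow_le_pow_right (by norm_num) hk
  obtain ⟨V, i1, i2, G, hG, hGY⟩ := exists_universal (16 ^ k + 1) (by omega)
  obtain ⟨W, j1, j2, F, hW, hF⟩ := good_pow k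
  set h : ℝ := Real.sqrt ((16 ^ k + 1 : ℕ) : ℝ) - 1 with hh
  have hlt : (4 : ℝ) ^ k < h + 1 := by
    rw [hh, sub_add_cancel]
    apply Real.lt_sqrt_of_sq_lt
    push_cast
    have : ((4 : ℝ) ^ k) ^ 2 = 16 ^ k := by
      rw [← pow_mul, mul_comm, pow_mul]; norm_num
    rw [this]
    linarith
  have e := Fintype.equivFin V
  let n := Fintype.card V
  let G' : SimpleGraph (Fin n) := G.comap e.symm
  let ι : G →g G' := ⟨e, fun {x y} hxy => by
    simp only [G', SimpleGraph.comap_adj, Equiv.symm_apply_apply]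
    exact hxy⟩
  let ι' : G' →g G := ⟨e.symm, fun {x y} hxy => hxy⟩
  refine ⟨n, G', ?_, ?_, ?_⟩
  · rw [Fintype.card_pos_iff]
    obtain ⟨_, _, _, _, v, hv, _⟩ := hG
    by_contra hne
    rw [not_nonempty_iff] at hne
    exact hv (Subsingleton.elim _ _)
  · apply upper
    intro Y
    rcases hGY Y with ⟨⟨φ⟩⟩ | ⟨⟨φ⟩⟩
    · exact Or.inl ⟨φ.comp ι'⟩
    · exact Or.inr ⟨φ.comp ι'⟩
  · intro N hN
    rw [← hW]
    refine lower (cone G') F ?_ ?_ hN
    · intro φ
      let ψ : G →g F := ⟨fun x => φ (Fin.succ (ι x)), fun {x y} hxy =>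
        φ.map_adj ((cone_adj_succ G' _ _).2 (ι.map_adj hxy))⟩
      refine hF.no_hom_local hG (by push_cast; exact hlt) (φ 0) ψ ?_
      intro x
      exact φ.map_adj (cone_adj_zero G' _)
    · intro φ
      let ψ : G →g Fᶜ := ⟨fun x => φ (Fin.succ (ι x)), fun {x y} hxy =>
        φ.map_adj ((cone_adj_succ G' _ _).2 (ι.map_adj hxy))⟩
      exact hF.no_hom_compl hG hlt ψ

end Pool.Agent.H33
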