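import Mathlib

set_option autoImplicit false

namespace Pool.Agent.H33

universe u

/-- positive semidefinite symmetric kernel -/
structure PSDKernel {V : Type u} (X : V → V → ℝ) : Prop where
  symm : ∀ u v, X u v = X v u
  nonneg : ∀ f : V →₀ ℝ, 0 ≤ f.sum fun u a => f.sum fun v b => a * b * X u v

/-- pre-Hilbert core attached to a kernel -/
@[reducible] noncomputable def kernelCore {V : Type u} {X : V → V → ℝ} (hX : PSDKernel X) :
    PreInnerProductSpace.Core ℝ (V →₀ ℝ) where
  inner f g := f.sum fun u a => g.sum fun v b => a * b * X u v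
  conj_inner_symm f g := by
    simp only [conj_trivial]
    rw [Finsupp.sum_comm]
    refine Finsupp.sum_congr fun u _ => Finsupp.sum_congr fun v _ => ?_
    rw [hX.symm]; ring
  add_left f g h := by
    rw [Finsupp.sum_add_index'] <;> simp [← Finsupp.sum_add, add_mul]
  smul_left f g r := by
    rw [Finsupp.sum_smul_index] <;> simp [Finsupp.mul_sum, ← mul_assoc]
  re_inner_nonneg f := by
    simpa using hX.nonneg f

/-- Every PSD kernel is a Gram kernel in a Hilbert space. -/
theorem exists_hilbert {V : Type u} {X : V → V → ℝ} (hX : PSDKernel X) :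
    ∃ (E : Type u) (_ : NormedAddCommGroup E) (_ : InnerProductSpace ℝ E) (_ : CompleteSpace E)
      (f : V → E), ∀ u v, inner ℝ (f u) (f v) = X u v := by
  letI c : PreInnerProductSpace.Core ℝ (V →₀ ℝ) := kernelCore hX
  letI : SeminormedAddCommGroup (V →₀ ℝ) := InnerProductSpace.Core.toSeminormedAddCommGroup (𝕜 := ℝ)
  letI : InnerProductSpace ℝ (V →₀ ℝ) := .ofCore _
  refine ⟨UniformSpace.Completion (V →₀ ℝ), inferInstance, inferInstance, inferInstance,
    fun v => ((Finsupp.single v (1:ℝ) : V →₀ ℝ) : UniformSpace.Completion (V →₀ ℝ)), ?_⟩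
  intro u v
  rw [UniformSpace.Completion.inner_coe]
  change (Finsupp.single u (1:ℝ)).sum (fun u a => (Finsupp.single v (1:ℝ)).sum fun v b => a * b * X u v) = _
  rw [Finsupp.sum_single_index, Finsupp.sum_single_index]
  · ring
  · simp
  · simp

end Pool.Agent.H33
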