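import Mathlib
import Pool.Agent.H33.Kernel

set_option autoImplicit false

namespace Pool.Agent.H33

open Finset

universe u

variable {V : Type u}

/-- number of elements of `T` on the same side as `v` -/
def same [DecidableEq V] (κ : V → Bool) (v : V) (T : Finset V) : ℕ :=
  (T.filter fun u => κ u = κ v).card

/-- kernel of a cut -/
def cutK (κ : V → Bool) : V → V → ℝ := fun u v => if κ u = κ v then 1 else -1

theorem cutK_eq (κ : V → Bool) (u v : V) :
    cutK κ u v = (if κ u then 1 else -1) * (if κ v then 1 else -1) := by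
  unfold cutK
  cases κ u <;> cases κ v <;> simp

theorem sum_cutK [DecidableEq V] (κ : V → Bool) (v : V) (T : Finset V) :
    ∑ u ∈ T, (1 + cutK κ u v) = 2 * (same κ v T : ℝ) := by
  unfold same
  rw [Finset.card_filter]
  push_cast
  rw [Finset.mul_sum]
  refine Finset.sum_congr rfl fun u _ => ?_
  unfold cutK
  split_ifs <;> norm_num

/-- the set of admissible kernels -/
def admK (V : Type u) : Set (V → V → ℝ) :=
  {X | (∀ u v, X u v ∈ Set.Icc (-1 : ℝ) 1) ∧ (∀ v, X v v = 1) ∧ (∀ u v, X u v = X v u) ∧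
    ∀ f : V →₀ ℝ, 0 ≤ f.sum fun u a => f.sum fun v b => a * b * X u v}

theorem admK_psd {X : V → V → ℝ} (h : X ∈ admK V) : PSDKernel X := ⟨h.2.2.1, h.2.2.2⟩

theorem cutK_mem (κ : V → Bool) : cutK κ ∈ admK V := by
  refine ⟨?_, ?_, ?_, ?_⟩
  · intro u v
    unfold cutK
    split_ifs <;> norm_num
  · intro v; simp [cutK]
  · intro u v
    rw [cutK_eq, cutK_eq]; ring
  · intro f
    have : (f.sum fun u a => f.sum fun v b => a * b * cutK κ u v) =
        (f.sum fun u a => a * (if κ u then 1 else -1)) ^ 2 := by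
      rw [sq]
      simp only [Finsupp.sum]
      rw [Finset.sum_mul_sum]
      refine Finset.sum_congr rfl fun u _ => Finset.sum_congr rfl fun v _ => ?_
      rw [cutK_eq]; ring
    rw [this]
    positivity

theorem admK_convex : Convex ℝ (admK V) := by
  intro X hX Y hY a b ha hb hab
  refine ⟨?_, ?_, ?_, ?_⟩
  · intro u v
    have h1 := hX.1 u v
    have h2 := hY.1 u v
    simp only [Pi.add_apply, Pi.smul_apply, smul_eq_mul, Set.mem_Icc] at *
    constructor <;> nlinarith
  · intro v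
    simp only [Pi.add_apply, Pi.smul_apply, smul_eq_mul, hX.2.1 v, hY.2.1 v]
    linarith
  · intro u v
    simp only [Pi.add_apply, Pi.smul_apply, smul_eq_mul]
    rw [hX.2.2.1 u v, hY.2.2.1 u v]
  · intro f
    have : (f.sum fun u c => f.sum fun v d => c * d * (a • X + b • Y) u v) =
        a * (f.sum fun u c => f.sum fun v d => c * d * X u v) +
        b * (f.sum fun u c => f.sum fun v d => c * d * Y u v) := by
      simp only [Finsupp.sum, Finset.mul_sum, ← Finset.sum_add_distrib]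
      refine Finset.sum_congr rfl fun u _ => Finset.sum_congr rfl fun v _ => ?_
      simp only [Pi.add_apply, Pi.smul_apply, smul_eq_mul]
      ring
    rw [this]
    have h1 := hX.2.2.2 f
    have h2 := hY.2.2.2 f
    positivity

theorem admK_compact : IsCompact (admK V) := by
  have h1 : IsCompact (Set.pi Set.univ (fun _ : V => Set.pi Set.univ
      (fun _ : V => Set.Icc (-1 : ℝ) 1))) :=
    isCompact_univ_pi fun _ => isCompact_univ_pi fun _ => isCompact_Icc
  refine h1.of_isClosed_subset ?_ ?_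
  · have hc : ∀ u v : V, Continuous fun X : V → V → ℝ => X u v := fun u v =>
      (continuous_apply v).comp (continuous_apply u)
    have e : admK V = (⋂ u, ⋂ v, {X : V → V → ℝ | X u v ∈ Set.Icc (-1 : ℝ) 1}) ∩
        ((⋂ v, {X : V → V → ℝ | X v v = 1}) ∩ ((⋂ u, ⋂ v, {X : V → V → ℝ | X u v = X v u}) ∩
        ⋂ f : V →₀ ℝ, {X : V → V → ℝ | 0 ≤ f.sum fun u a => f.sum fun v b => a * b * X u v})) := by
      ext X
      simp [admK]
    rw [e]
    refine IsClosed.inter ?_ (IsClosed.inter ?_ (IsClosed.inter ?_ ?_))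
    · exact isClosed_iInter fun u => isClosed_iInter fun v => isClosed_Icc.preimage (hc u v)
    · exact isClosed_iInter fun v => isClosed_eq (hc v v) continuous_const
    · exact isClosed_iInter fun u => isClosed_iInter fun v => isClosed_eq (hc u v) (hc v u)
    · refine isClosed_iInter fun f => isClosed_le continuous_const ?_
      simp only [Finsupp.sum]
      exact continuous_finsetSum _ fun u _ => continuous_finsetSum _ fun v _ =>
        continuous_const.mul (hc u v)
  · intro X hX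
    rw [Set.mem_univ_pi]
    intro u
    rw [Set.mem_univ_pi]
    intro v
    exact hX.1 u v

/-- finite minimax step -/
theorem finite_minimax [DecidableEq V] (C : ℝ) (I : Finset V) (T : V → Finset V)
    (h : ∀ w : V → ℕ, ∃ κ : V → Bool,
      (∑ v ∈ I, (w v : ℝ) * same κ v (T v)) ≤ C * ∑ v ∈ I, (w v : ℝ))
    (ε : ℝ) (hε : 0 < ε) :
    ∃ X ∈ admK V, ∀ v ∈ I, ∑ u ∈ T v, (1 + X u v) ≤ 2 * C + ε := by
  classical
  by_contra hcon
  push Not at hcon
  -- linear map
  let A : (V → V → ℝ) →ₗ[ℝ] (I → ℝ) :=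
    { toFun := fun X v => ∑ u ∈ T v, X u v
      map_add' := by
        intro X Y; ext v
        simp [Finset.sum_add_distrib]
      map_smul' := by
        intro a X; ext v
        simp [Finset.mul_sum] }
  let t : Set (I → ℝ) := A '' admK V
  let s : Set (I → ℝ) := Set.pi Set.univ fun v => Set.Iio (2 * C + ε - (T v).card)
  have hs1 : Convex ℝ s := convex_pi fun _ _ => convex_Iio _
  have hs2 : IsOpen s := isOpen_set_pi Set.finite_univ fun _ _ => isOpen_Iio
  have ht : Convex ℝ t := admK_convex.linear_image A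
  have hdisj : Disjoint s t := by
    rw [Set.disjoint_left]
    rintro x hx ⟨X, hX, rfl⟩
    obtain ⟨v, hv, hlt⟩ := hcon X hX
    have h1 : A X ⟨v, hv⟩ < 2 * C + ε - (T v).card := hx ⟨v, hv⟩ (Set.mem_univ _)
    have h2 : A X ⟨v, hv⟩ = ∑ u ∈ T v, X u v := rfl
    rw [Finset.sum_add_distrib] at hlt
    simp only [Finset.sum_const, nsmul_eq_mul, mul_one] at hlt
    linarith
  obtain ⟨f, c, hf1, hf2⟩ := geometric_hahn_banach_open hs1 hs2 ht hdisj
  let w : I → ℝ := fun v => f (Pi.single v 1)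
  have hfsum : ∀ x : I → ℝ, f x = ∑ v, x v * w v := by
    intro x
    have : x = ∑ v, x v • (Pi.single v (1:ℝ) : I → ℝ) := by
      ext v
      simp [Finset.sum_apply, Pi.single_apply]
    conv_lhs => rw [this]
    rw [map_sum]
    refine Finset.sum_congr rfl fun v _ => ?_
    rw [map_smul, smul_eq_mul]
  -- weights nonneg
  let x0 : I → ℝ := fun v => 2 * C + ε / 2 - (T v).card
  have hx0 : ∀ y : I → ℝ, (∀ v, y v ≤ x0 v) → y ∈ s := by
    intro y hy v _
    have := hy v
    simp only [x0] at this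
    simp only [Set.mem_Iio]
    linarith
  have hw : ∀ v, 0 ≤ w v := by
    intro v
    by_contra hneg
    push Not at hneg
    have hx : f x0 < c := hf1 x0 (hx0 x0 fun _ => le_rfl)
    -- move far in direction -e_v
    let a : ℝ := (c - f x0) / (- w v)
    have ha : 0 ≤ a := div_nonneg (by linarith) (by linarith)
    have hy : f (x0 - a • (Pi.single v (1:ℝ) : I → ℝ)) < c := by
      refine hf1 _ (hx0 _ fun v' => ?_)
      simp only [Pi.sub_apply, Pi.smul_apply, smul_eq_mul]
      have : 0 ≤ a * (Pi.single v (1:ℝ) : I → ℝ) v' := by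
        apply mul_nonneg ha
        rw [Pi.single_apply]
        split_ifs <;> norm_num
      linarith
    rw [map_sub, map_smul, smul_eq_mul] at hy
    have h3 : a * f (Pi.single v (1:ℝ) : I → ℝ) = -(c - f x0) := by
      change a * w v = _
      simp only [a]
      rw [div_neg, neg_mul, div_mul_cancel₀ _ hneg.ne]
    rw [h3] at hy
    linarith
  have hx0c : f x0 < c := hf1 x0 (hx0 x0 fun _ => le_rfl)
  -- all cuts
  have hcut : ∀ κ : V → Bool, c ≤ ∑ v : I, (2 * (same κ v (T v) : ℝ) - (T v).card) * w v := by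
    intro κ
    have h1 := hf2 (A (cutK κ)) ⟨_, cutK_mem κ, rfl⟩
    rw [hfsum] at h1
    refine h1.trans_eq (Finset.sum_congr rfl fun v _ => ?_)
    have h2 : A (cutK κ) v = ∑ u ∈ T v, cutK κ u v := rfl
    have h3 := sum_cutK κ v (T v)
    rw [Finset.sum_add_distrib] at h3
    simp only [Finset.sum_const, nsmul_eq_mul, mul_one] at h3
    rw [h2]
    congr 1
    linarith
  rw [hfsum] at hx0c
  -- gap
  have hgap : ∀ κ : V → Bool, (C + ε / 4) * ∑ v : I, w v < ∑ v : I, (same κ v (T v) : ℝ) * w v := by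
    intro κ
    have h1 := hx0c.trans_le (hcut κ)
    simp only [x0] at h1
    have e1 : ∑ v : I, (2 * C + ε / 2 - ((T v).card : ℝ)) * w v =
        2 * ((C + ε / 4) * ∑ v : I, w v) - ∑ v : I, ((T v).card : ℝ) * w v := by
      rw [Finset.mul_sum, Finset.mul_sum, ← Finset.sum_sub_distrib]
      exact Finset.sum_congr rfl fun v _ => by ring
    have e2 : ∑ v : I, (2 * (same κ v (T v) : ℝ) - (T v).card) * w v =
        2 * (∑ v : I, (same κ v (T v) : ℝ) * w v) - ∑ v : I, ((T v).card : ℝ) * w v := by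
      rw [Finset.mul_sum, ← Finset.sum_sub_distrib]
      exact Finset.sum_congr rfl fun v _ => by ring
    rw [e1, e2] at h1
    linarith
  set W := ∑ v : I, w v with hW
  have hWnn : 0 ≤ W := Finset.sum_nonneg fun v _ => hw v
  have hWpos : 0 < W := by
    rcases hWnn.lt_or_eq with h1 | h1
    · exact h1
    · exfalso
      have h2 : ∀ v, w v = 0 := fun v =>
        (Finset.sum_eq_zero_iff_of_nonneg (fun v _ => hw v)).1 h1.symm v (Finset.mem_univ _)
      have h3 := hgap (fun _ => true)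
      rw [← h1] at h3
      simp [h2] at h3
  -- integer approximation
  set K : ℝ := ∑ v : I, ((T v).card : ℝ) + |C| * I.card with hK
  obtain ⟨N, hN⟩ := exists_nat_gt (K / (ε / 4 * W))
  have hN' : K < N * (ε / 4 * W) := by
    rwa [div_lt_iff₀ (by positivity)] at hN
  let n : V → ℕ := fun v => if hv : v ∈ I then ⌊(N : ℝ) * w ⟨v, hv⟩⌋₊ else 0
  obtain ⟨κ, hκ⟩ := h n
  have hsum1 : ∑ v ∈ I, (n v : ℝ) * same κ v (T v) = ∑ v : I, (n v : ℝ) * same κ v (T v) :=
    (Finset.sum_coe_sort I (fun v => (n v : ℝ) * same κ v (T v))).symm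
  have hsum2 : ∑ v ∈ I, (n v : ℝ) = ∑ v : I, (n v : ℝ) :=
    (Finset.sum_coe_sort I (fun v => (n v : ℝ))).symm
  rw [hsum1, hsum2] at hκ
  have hn : ∀ v : I, (n v : ℝ) ≤ N * w v ∧ (N : ℝ) * w v ≤ n v + 1 := by
    intro v
    have : n v = ⌊(N : ℝ) * w v⌋₊ := by
      simp only [n]
      rw [dif_pos v.2]
    rw [this]
    exact ⟨Nat.floor_le (mul_nonneg (Nat.cast_nonneg _) (hw v)), (Nat.lt_floor_add_one _).le⟩
  have h1 : (N : ℝ) * ∑ v : I, (same κ v (T v) : ℝ) * w v ≤
      ∑ v : I, (n v : ℝ) * same κ v (T v) + ∑ v : I, ((T v).card : ℝ) := by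
    rw [Finset.mul_sum, ← Finset.sum_add_distrib]
    refine Finset.sum_le_sum fun v _ => ?_
    have h2 := (hn v).2
    have h3 : (same κ v (T v) : ℝ) ≤ (T v).card := by
      exact_mod_cast Finset.card_filter_le _ _
    have h4 : (0:ℝ) ≤ same κ v (T v) := Nat.cast_nonneg _
    nlinarith
  have h2 : C * ∑ v : I, (n v : ℝ) ≤ N * (C * W) + |C| * I.card := by
    have e1 : (N : ℝ) * (C * W) + |C| * I.card = ∑ v : I, (N * (C * w v) + |C|) := by
      rw [Finset.sum_add_distrib, hW, Finset.mul_sum, Finset.mul_sum]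
      simp [mul_comm]
    rw [e1, Finset.mul_sum]
    refine Finset.sum_le_sum fun v _ => ?_
    obtain ⟨h3, h4⟩ := hn v
    have h5 : |C * ((N : ℝ) * w v - n v)| ≤ |C| * 1 := by
      rw [abs_mul]
      refine mul_le_mul_of_nonneg_left ?_ (abs_nonneg _)
      rw [abs_le]; constructor <;> linarith
    have h6 := (abs_le.1 h5).1
    have h7 : C * (n v : ℝ) = C * (N * w v) - C * (N * w v - n v) := by ring
    have h8 : C * (N * w v) = N * (C * w v) := by ring
    linarith
  have h3 := hgap κ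
  have h4 : (N : ℝ) * ((C + ε / 4) * W) ≤ (N : ℝ) * ∑ v : I, (same κ v (T v) : ℝ) * w v :=
    mul_le_mul_of_nonneg_left h3.le (Nat.cast_nonneg _)
  have h5 : (N : ℝ) * ((C + ε / 4) * W) = N * (C * W) + N * (ε / 4 * W) := by ring
  linarith

/-- compactness: a global kernel -/
theorem exists_kernel [DecidableEq V] (C : ℝ) (S : Set V) (hub : V → Set V)
    (h : ∀ (I : Finset V) (T : V → Finset V), (∀ v ∈ I, v ∈ S ∧ (T v : Set V) ⊆ hub v) →
      ∀ w : V → ℕ, ∃ κ : V → Bool,
      (∑ v ∈ I, (w v : ℝ) * same κ v (T v)) ≤ C * ∑ v ∈ I, (w v : ℝ)) :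
    ∃ X ∈ admK V, ∀ v ∈ S, ∀ T : Finset V, (T : Set V) ⊆ hub v → ∑ u ∈ T, (1 + X u v) ≤ 2 * C := by
  classical
  let ι := {p : V × Finset V × ℕ // p.1 ∈ S ∧ (p.2.1 : Set V) ⊆ hub p.1}
  let t : ι → Set (V → V → ℝ) := fun p =>
    {X | ∑ u ∈ p.1.2.1, (1 + X u p.1.1) ≤ 2 * C + 1 / (p.1.2.2 + 1)}
  have hc : ∀ u v : V, Continuous fun X : V → V → ℝ => X u v := fun u v =>
    (continuous_apply v).comp (continuous_apply u)
  have ht : ∀ p, IsClosed (t p) := fun p =>
    isClosed_le (continuous_finsetSum _ fun u _ => continuous_const.add (hc _ _)) continuous_const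
  have hfin : ∀ U : Finset ι, (admK V ∩ ⋂ p ∈ U, t p).Nonempty := by
    intro U
    let I : Finset V := U.image fun p => p.1.1
    let T : V → Finset V := fun v => (U.filter fun p => p.1.1 = v).biUnion fun p => p.1.2.1
    have hI : ∀ v ∈ I, v ∈ S ∧ (T v : Set V) ⊆ hub v := by
      intro v hv
      rw [Finset.mem_image] at hv
      obtain ⟨p, hp, rfl⟩ := hv
      refine ⟨p.2.1, ?_⟩
      intro u hu
      simp only [T, Finset.coe_biUnion, Set.mem_iUnion, Finset.mem_coe, Finset.mem_filter] at hu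
      obtain ⟨q, ⟨_, hq⟩, hu⟩ := hu
      rw [← hq]
      exact q.2.2 hu
    let M : ℕ := U.sup fun p => p.1.2.2
    obtain ⟨X, hX, hXI⟩ := finite_minimax C I T (h I T hI) (1 / (M + 1)) (by positivity)
    refine ⟨X, hX, ?_⟩
    rw [Set.mem_iInter₂]
    intro p hp
    have h1 := hXI p.1.1 (Finset.mem_image_of_mem _ hp)
    have h2 : ∑ u ∈ p.1.2.1, (1 + X u p.1.1) ≤ ∑ u ∈ T p.1.1, (1 + X u p.1.1) := by
      refine Finset.sum_le_sum_of_subset_of_nonneg ?_ ?_
      · intro u hu
        simp only [T, Finset.mem_biUnion, Finset.mem_filter]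
        exact ⟨p, ⟨hp, rfl⟩, hu⟩
      · intro u _ _
        have := (hX.1 u p.1.1).1
        linarith
    have h3 : (p.1.2.2 : ℝ) ≤ M := by
      exact_mod_cast Finset.le_sup (f := fun p : ι => p.1.2.2) hp
    have h4 : (1 : ℝ) / (M + 1) ≤ 1 / (p.1.2.2 + 1) := by
      apply one_div_le_one_div_of_le <;> [positivity; linarith]
    change ∑ u ∈ p.1.2.1, (1 + X u p.1.1) ≤ 2 * C + 1 / (p.1.2.2 + 1)
    linarith
  obtain ⟨X, hX, hXt⟩ := admK_compact.inter_iInter_nonempty t ht hfin
  refine ⟨X, hX, fun v hv T hT => ?_⟩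
  rw [Set.mem_iInter] at hXt
  apply le_of_forall_pos_le_add
  intro ε hε
  obtain ⟨n, hn⟩ := exists_nat_one_div_lt hε
  have := hXt ⟨(v, T, n), hv, hT⟩
  change ∑ u ∈ T, (1 + X u v) ≤ 2 * C + 1 / ((n:ℝ) + 1) at this
  linarith

end Pool.Agent.H33
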