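import Mathlib
import Pool.Agent.H33.Minimax

set_option autoImplicit false

namespace Pool.Agent.H33

open Finset

universe u

variable {V : Type u} [DecidableEq V] (G : SimpleGraph V)

open Classical in
/-- monochromatic edges inside `W` -/
noncomputable def medges (κ : V → Bool) (W : Finset V) : Finset (Sym2 V) :=
  W.sym2.filter fun e => e ∈ G.edgeSet ∧ ∀ x ∈ e, ∀ y ∈ e, κ x = κ y

open Classical in
/-- monochromatic edges inside `Γ ∪ B` meeting `Γ` -/
noncomputable def cedges (κ : V → Bool) (Γ B : Finset V) : Finset (Sym2 V) :=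
  (medges G κ (Γ ∪ B)).filter fun e => ∃ x ∈ e, x ∈ Γ

variable {G}

theorem mem_medges {κ : V → Bool} {W : Finset V} {e : Sym2 V} :
    e ∈ medges G κ W ↔ (∀ x ∈ e, x ∈ W) ∧ e ∈ G.edgeSet ∧ ∀ x ∈ e, ∀ y ∈ e, κ x = κ y := by
  simp only [medges, Finset.mem_filter, Finset.mem_sym2_iff]

theorem mem_cedges {κ : V → Bool} {Γ B : Finset V} {e : Sym2 V} :
    e ∈ cedges G κ Γ B ↔ ((∀ x ∈ e, x ∈ Γ ∪ B) ∧ e ∈ G.edgeSet ∧ ∀ x ∈ e, ∀ y ∈ e, κ x = κ y) ∧
      ∃ x ∈ e, x ∈ Γ := by
  simp only [cedges, Finset.mem_filter, mem_medges]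

theorem medges_mono {κ : V → Bool} {W W' : Finset V} (h : W ⊆ W') :
    medges G κ W ⊆ medges G κ W' := by
  intro e he
  rw [mem_medges] at he ⊢
  exact ⟨fun x hx => h (he.1 x hx), he.2⟩

theorem cedges_sub_medges {κ : V → Bool} {Γ B W : Finset V} (h : Γ ∪ B ⊆ W) :
    cedges G κ Γ B ⊆ medges G κ W := by
  intro e he
  rw [mem_cedges] at he
  rw [mem_medges]
  exact ⟨fun x hx => h (he.1.1 x hx), he.1.2⟩

variable (G)

/-- `g` is realizable over `B` with `k` vertices -/
def Rlz (B : Finset V) (g : (V → Bool) → ℕ) (k : ℕ) : Prop :=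
  ∀ Z : Finset V, ∃ Γ : Finset V, Disjoint Γ Z ∧ Γ.card = k ∧
    ∀ κ : V → Bool, g κ ≤ (cedges G κ Γ B).card

/-- `g` depends only on the values on `B` -/
def Dep (g : (V → Bool) → ℕ) (B : Finset V) : Prop :=
  ∀ κ κ' : V → Bool, (∀ b ∈ B, κ b = κ' b) → g κ = g κ'

/-- the (weakened) hypothesis: infinitely many sizes with linear bipartite deficiency -/
def Hyp (C : ℕ) : Prop :=
  ∀ N : ℕ, ∃ n ≥ N, ∀ W : Finset V, W.card = n → ∃ κ : V → Bool, (medges G κ W).card ≤ C * n

variable {G}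

theorem Rlz.zero (B : Finset V) : Rlz G B (fun _ => 0) 0 :=
  fun _ => ⟨∅, by simp, by simp, by simp⟩

theorem Rlz.mono {B B' : Finset V} {g : (V → Bool) → ℕ} {k : ℕ} (h : Rlz G B g k)
    (hB : B ⊆ B') : Rlz G B' g k := by
  intro Z
  obtain ⟨Γ, h1, h2, h3⟩ := h Z
  refine ⟨Γ, h1, h2, fun κ => (h3 κ).trans (Finset.card_le_card ?_)⟩
  intro e he
  rw [mem_cedges] at he ⊢
  exact ⟨⟨fun x hx => Finset.union_subset_union (Finset.Subset.refl _) hB (he.1.1 x hx), he.1.2⟩,
    he.2⟩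

theorem Rlz.add {B : Finset V} {g₁ g₂ : (V → Bool) → ℕ} {k₁ k₂ : ℕ} (h₁ : Rlz G B g₁ k₁)
    (h₂ : Rlz G B g₂ k₂) : Rlz G B (fun κ => g₁ κ + g₂ κ) (k₁ + k₂) := by
  intro Z
  obtain ⟨Γ₁, a1, a2, a3⟩ := h₁ (Z ∪ B)
  obtain ⟨Γ₂, b1, b2, b3⟩ := h₂ (Z ∪ B ∪ Γ₁)
  rw [Finset.disjoint_union_right] at a1 b1
  rw [Finset.disjoint_union_right] at b1
  refine ⟨Γ₁ ∪ Γ₂, ?_, ?_, ?_⟩
  · rw [Finset.disjoint_union_left]
    exact ⟨a1.1, b1.1.1⟩
  · rw [Finset.card_union_of_disjoint b1.2.symm, a2, b2]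
  · intro κ
    have hdisj : Disjoint (cedges G κ Γ₁ B) (cedges G κ Γ₂ B) := by
      rw [Finset.disjoint_left]
      intro e he1 he2
      rw [mem_cedges] at he1 he2
      obtain ⟨x, hx, hxΓ⟩ := he2.2
      rcases Finset.mem_union.1 (he1.1.1 x hx) with h | h
      · exact Finset.disjoint_left.1 b1.2 hxΓ h
      · exact Finset.disjoint_left.1 b1.1.2 hxΓ h
    calc g₁ κ + g₂ κ ≤ (cedges G κ Γ₁ B).card + (cedges G κ Γ₂ B).card :=
          Nat.add_le_add (a3 κ) (b3 κ)
      _ = (cedges G κ Γ₁ B ∪ cedges G κ Γ₂ B).card := (Finset.card_union_of_disjoint hdisj).symm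
      _ ≤ _ := by
        apply Finset.card_le_card
        intro e he
        rcases Finset.mem_union.1 he with h | h
        · rw [mem_cedges] at h ⊢
          refine ⟨⟨fun x hx => ?_, h.1.2⟩, ?_⟩
          · rcases Finset.mem_union.1 (h.1.1 x hx) with h' | h'
            · simp [h']
            · simp [h']
          · obtain ⟨x, hx, hxΓ⟩ := h.2
            exact ⟨x, hx, by simp [hxΓ]⟩
        · rw [mem_cedges] at h ⊢
          refine ⟨⟨fun x hx => ?_, h.1.2⟩, ?_⟩
          · rcases Finset.mem_union.1 (h.1.1 x hx) with h' | h'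
            · simp [h']
            · simp [h']
          · obtain ⟨x, hx, hxΓ⟩ := h.2
            exact ⟨x, hx, by simp [hxΓ]⟩

theorem Rlz.mul {B : Finset V} {g : (V → Bool) → ℕ} {k : ℕ} (h : Rlz G B g k) (M : ℕ) :
    Rlz G B (fun κ => M * g κ) (M * k) := by
  induction M with
  | zero => simpa using Rlz.zero B
  | succ M ih =>
    have := ih.add h
    simpa [Nat.succ_mul] using this

theorem Rlz.sum {B : Finset V} {ι : Type*} [DecidableEq ι] (I : Finset ι)
    (g : ι → (V → Bool) → ℕ) (k : ι → ℕ) (h : ∀ i ∈ I, Rlz G B (g i) (k i)) :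
    Rlz G B (fun κ => ∑ i ∈ I, g i κ) (∑ i ∈ I, k i) := by
  induction I using Finset.induction_on with
  | empty => simpa using Rlz.zero B
  | insert a s ha ih =>
    have h1 := h a (Finset.mem_insert_self _ _)
    have h2 := ih fun i hi => h i (Finset.mem_insert_of_mem hi)
    have := h1.add h2
    simpa [Finset.sum_insert ha] using this

/-- realizable costs are somewhere at most `C k` -/
theorem Rlz.bound [Infinite V] {C : ℕ} (hC : Hyp G C) {B : Finset V} {g : (V → Bool) → ℕ} {k : ℕ}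
    (h : Rlz G B g k) : ∃ κ, g κ ≤ C * k := by
  by_contra hcon
  push Not at hcon
  rcases Nat.eq_zero_or_pos k with hk | hk
  · obtain ⟨Γ, -, h2, h3⟩ := h ∅
    rw [hk, Finset.card_eq_zero] at h2
    subst h2
    have h4 := h3 (fun _ => true)
    have h5 : cedges G (fun _ => true) ∅ B = ∅ := by
      ext e
      rw [mem_cedges]
      simp
    rw [h5] at h4
    have := hcon (fun _ => true)
    simp at h4
    omega
  · set b := B.card with hb
    obtain ⟨n, hn, hW⟩ := hC (b + k * (C * (b + k) + 1))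
    set K := (n - b) / k with hK
    obtain ⟨Γ, h1, h2, h3⟩ := (h.mul K) B
    have hKk : K * k ≤ n - b := Nat.div_mul_le_self _ _
    have hKlow : C * (b + k) + 1 ≤ K := by
      rw [hK, Nat.le_div_iff_mul_le hk]
      have : b + k * (C * (b + k) + 1) ≤ n := hn
      have e : k * (C * (b + k) + 1) = (C * (b + k) + 1) * k := Nat.mul_comm _ _
      omega
    have hKup : n - b < (K + 1) * k := by
      have := Nat.lt_div_mul_add (a := n - b) hk
      rw [hK, Nat.add_mul, Nat.one_mul]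
      exact this
    have hcard : (Γ ∪ B).card ≤ n := by
      rw [Finset.card_union_of_disjoint h1, h2]
      have : b ≤ n := by
        have : b + k * (C * (b + k) + 1) ≤ n := hn
        omega
      omega
    obtain ⟨W, hW1, hW2⟩ := Infinite.exists_superset_card_eq (Γ ∪ B) n hcard
    obtain ⟨κ, hκ⟩ := hW W hW2
    have h4 := h3 κ
    have h5 := Finset.card_le_card (cedges_sub_medges (G := G) (κ := κ) hW1)
    have h6 := hcon κ
    have h7 : K * (C * k + 1) ≤ K * g κ := Nat.mul_le_mul_left _ h6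
    have h8 : K * (C * k + 1) ≤ C * n := by
      calc K * (C * k + 1) ≤ K * g κ := h7
        _ ≤ _ := h4
        _ ≤ _ := h5
        _ ≤ _ := hκ
    have h9 : n ≤ b + (K + 1) * k := by omega
    have h10 : C * n ≤ C * (b + (K + 1) * k) := Nat.mul_le_mul_left _ h9
    have h11 : K * (C * k + 1) = C * (K * k) + K := by ring
    have h12 : C * (b + (K + 1) * k) = C * (K * k) + C * (b + k) := by ring
    omega

variable (G)

/-- closed sets: anything outside can be copied infinitely often -/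
def ClosedP (N : Set V) : Prop :=
  ∀ (B D : Finset V) (g : (V → Bool) → ℕ) (k : ℕ), (B : Set V) ⊆ N → (∀ v ∈ D, v ∉ N) →
    Dep g (B ∪ D) → Rlz G (B ∪ D) g k → ∀ Z : Finset V, ∃ φ : V → V, (∀ u ∈ B, φ u = u) ∧
      Set.InjOn φ D ∧ (∀ v ∈ D, φ v ∉ Z) ∧ Rlz G (B ∪ D.image φ) (fun κ => g (κ ∘ φ)) k ∧
      ∀ u ∈ B, ∀ v ∈ D, G.Adj u v → G.Adj u (φ v)

variable {G}

/-- size of the smaller colour class on `T` -/
def minor (T : Finset V) (κ : V → Bool) : ℕ :=
  min (T.filter fun u => κ u = true).card (T.filter fun u => κ u = false).card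

omit [DecidableEq V] in
theorem minor_dep (T : Finset V) {κ κ' : V → Bool} (h : ∀ u ∈ T, κ u = κ' u) :
    minor T κ = minor T κ' := by
  unfold minor
  congr 2
  · exact Finset.filter_congr fun u hu => by rw [h u hu]
  · exact Finset.filter_congr fun u hu => by rw [h u hu]

theorem minor_le_same (T : Finset V) (κ : V → Bool) (v : V) : minor T κ ≤ same κ v T := by
  unfold minor same
  cases κ v
  · exact min_le_right _ _
  · exact min_le_left _ _

theorem same_le_minor (T : Finset V) (κ : V → Bool) (v : V) (h : 2 * same κ v T ≤ T.card) :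
    same κ v T ≤ minor T κ := by
  have hcard := Finset.card_filter_add_card_filter_not (s := T) (fun u => κ u = true)
  have e : (T.filter fun u => ¬ κ u = true) = T.filter fun u => κ u = false :=
    Finset.filter_congr fun u _ => by simp
  rw [e] at hcard
  unfold minor same at *
  cases hv : κ v
  · rw [hv] at h
    exact le_min (by omega) le_rfl
  · rw [hv] at h
    exact le_min le_rfl (by omega)

/-- edges from copies to their hubs -/
theorem card_hub_edges {κ : V → Bool} {B Γ : Finset V} (J : Finset V) (T : V → Finset V)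
    (φ : V → V) (hinj : Set.InjOn φ J) (hT : ∀ v ∈ J, T v ⊆ B) (hφ : ∀ v ∈ J, φ v ∉ B)
    (hΓ : ∀ v ∈ J, φ v ∈ Γ) (hadj : ∀ v ∈ J, ∀ u ∈ T v, G.Adj u (φ v)) :
    ∃ E : Finset (Sym2 V), E ⊆ cedges G κ Γ B ∧ E.card = ∑ v ∈ J, same κ (φ v) (T v) ∧
      ∀ e ∈ E, ∀ x ∈ e, x ∈ B ∨ ∃ v ∈ J, x = φ v := by
  let P : Finset ((_ : V) × V) := J.sigma fun v => (T v).filter fun u => κ u = κ (φ v)
  refine ⟨P.image fun p => s(p.2, φ p.1), ?_, ?_, ?_⟩
  · intro e he
    rw [Finset.mem_image] at he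
    obtain ⟨⟨v, u⟩, hp, rfl⟩ := he
    simp only [P, Finset.mem_sigma, Finset.mem_filter] at hp
    obtain ⟨hv, hu, hκ⟩ := hp
    rw [mem_cedges]
    refine ⟨⟨?_, ?_, ?_⟩, ?_⟩
    · intro x hx
      rw [Sym2.mem_iff] at hx
      rcases hx with rfl | rfl
      · exact Finset.mem_union_right _ (hT v hv hu)
      · exact Finset.mem_union_left _ (hΓ v hv)
    · rw [SimpleGraph.mem_edgeSet]
      exact hadj v hv u hu
    · intro x hx y hy
      rw [Sym2.mem_iff] at hx hy
      rcases hx with rfl | rfl <;> rcases hy with rfl | rfl <;> simp [hκ]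
    · exact ⟨φ v, by simp, hΓ v hv⟩
  · rw [Finset.card_image_of_injOn, Finset.card_sigma]
    · rfl
    · rintro ⟨v, u⟩ hp ⟨v', u'⟩ hp' heq
      simp only [P, Finset.coe_sigma, Set.mem_sigma_iff, Finset.mem_coe, Finset.mem_filter] at hp hp'
      simp only [Sym2.eq_iff] at heq
      rcases heq with ⟨h1, h2⟩ | ⟨h1, h2⟩
      · have := hinj hp.1 hp'.1 h2
        subst this
        subst h1
        rfl
      · exfalso
        apply hφ v' hp'.1
        rw [← h1]
        exact hT v hp.1 hp.2.1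
  · intro e he x hx
    rw [Finset.mem_image] at he
    obtain ⟨⟨v, u⟩, hp, rfl⟩ := he
    simp only [P, Finset.mem_sigma, Finset.mem_filter] at hp
    rw [Sym2.mem_iff] at hx
    rcases hx with rfl | rfl
    · exact Or.inl (hT v hp.1 hp.2.1)
    · exact Or.inr ⟨v, hp.1, rfl⟩

/-- leaf gadgets -/
theorem leaf {N : Set V} (hN : ClosedP G N) {T : Finset V} (hT : (T : Set V) ⊆ N) {v : V}
    (hv : v ∉ N) (hadj : ∀ u ∈ T, G.Adj u v) : Rlz G T (minor T) 1 := by
  intro Z
  obtain ⟨φ, h1, h2, h3, -, h5⟩ := hN T {v} (fun _ => 0) 0 hT (by simpa using hv)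
    (fun _ _ _ => rfl) (Rlz.zero _) (Z ∪ T)
  have hφv : φ v ∉ Z ∪ T := h3 v (by simp)
  rw [Finset.mem_union, not_or] at hφv
  refine ⟨{φ v}, ?_, by simp, fun κ => ?_⟩
  · rw [Finset.disjoint_singleton_left]
    exact hφv.1
  · obtain ⟨E, hE1, hE2, -⟩ := card_hub_edges (G := G) (κ := κ) (B := T) (Γ := {φ v}) {v}
      (fun _ => T) φ (by simp) (by simp) (by simpa using hφv.2) (by simp)
      (by
        intro w hw u hu
        rw [Finset.mem_singleton] at hw
        subst hw
        exact h5 u hu w (by simp) (hadj u hu))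
    rw [Finset.sum_singleton] at hE2
    calc minor T κ ≤ same κ (φ v) T := minor_le_same _ _ _
      _ = E.card := hE2.symm
      _ ≤ _ := Finset.card_le_card hE1

/-- elimination of a block outside a closed set -/
theorem elim {N : Set V} (hN : ClosedP G N) {B D J : Finset V} (hB : (B : Set V) ⊆ N)
    (hD : ∀ v ∈ D, v ∉ N) (hJ : J ⊆ D) (T : V → Finset V) (hT : ∀ v ∈ J, T v ⊆ B)
    (hadj : ∀ v ∈ J, ∀ u ∈ T v, G.Adj u v) {g : (V → Bool) → ℕ} {k : ℕ} (hg : Dep g (B ∪ D))
    (h : Rlz G (B ∪ D) g k) (M : ℕ) :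
    Rlz G B (fun κ => sInf {n | ∃ p : V → Bool, n = M * g (D.piecewise p κ) +
      ∑ v ∈ J, same (D.piecewise p κ) v (T v)}) (D.card + M * k) := by
  intro Z
  obtain ⟨φ, h1, h2, h3, h4, h5⟩ := hN B D g k hB hD hg h (Z ∪ B)
  obtain ⟨Γ, c1, c2, c3⟩ := (h4.mul M) (Z ∪ B ∪ D.image φ)
  rw [Finset.disjoint_union_right, Finset.disjoint_union_right] at c1
  have hBD : ∀ u ∈ B, u ∉ D := fun u hu hu' => hD u hu' (hB hu)
  refine ⟨D.image φ ∪ Γ, ?_, ?_, ?_⟩
  · rw [Finset.disjoint_union_left]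
    refine ⟨?_, c1.1.1⟩
    rw [Finset.disjoint_left]
    intro x hx
    rw [Finset.mem_image] at hx
    obtain ⟨v, hv, rfl⟩ := hx
    have := h3 v hv
    rw [Finset.mem_union, not_or] at this
    exact this.1
  · rw [Finset.card_union_of_disjoint c1.2.symm, c2, Finset.card_image_of_injOn h2]
  · intro κ
    have hle : sInf {n | ∃ p : V → Bool, n = M * g (D.piecewise p κ) +
        ∑ v ∈ J, same (D.piecewise p κ) v (T v)} ≤
        M * g (D.piecewise (κ ∘ φ) κ) + ∑ v ∈ J, same (D.piecewise (κ ∘ φ) κ) v (T v) :=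
      Nat.sInf_le ⟨κ ∘ φ, rfl⟩
    have hgeq : g (D.piecewise (κ ∘ φ) κ) = g (κ ∘ φ) := by
      apply hg
      intro b hb
      rcases Finset.mem_union.1 hb with h | h
      · rw [Finset.piecewise_eq_of_notMem _ _ _ (hBD b h)]
        simp [h1 b h]
      · rw [Finset.piecewise_eq_of_mem _ _ _ h]
    have hsame : ∀ v ∈ J, same (D.piecewise (κ ∘ φ) κ) v (T v) = same κ (φ v) (T v) := by
      intro v hv
      unfold same
      congr 1
      apply Finset.filter_congr
      intro u hu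
      rw [Finset.piecewise_eq_of_notMem _ _ _ (hBD u (hT v hv hu)),
        Finset.piecewise_eq_of_mem _ _ _ (hJ hv)]
      rfl
    obtain ⟨E, hE1, hE2, hE3⟩ := card_hub_edges (G := G) (κ := κ) (B := B) (Γ := D.image φ ∪ Γ) J
      T φ (h2.mono (by exact_mod_cast hJ)) hT
      (fun v hv hb => by
        have := h3 v (hJ hv)
        rw [Finset.mem_union, not_or] at this
        exact this.2 hb)
      (fun v hv => Finset.mem_union_left _ (Finset.mem_image_of_mem _ (hJ hv)))
      (fun v hv u hu => h5 u (hT v hv hu) v (hJ hv) (hadj v hv u hu))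
    have hsub : cedges G κ Γ (B ∪ D.image φ) ⊆ cedges G κ (D.image φ ∪ Γ) B := by
      intro e he
      rw [mem_cedges] at he ⊢
      refine ⟨⟨fun x hx => ?_, he.1.2⟩, ?_⟩
      · have := he.1.1 x hx
        simp only [Finset.mem_union] at this ⊢
        tauto
      · obtain ⟨x, hx, hxΓ⟩ := he.2
        exact ⟨x, hx, Finset.mem_union_right _ hxΓ⟩
    have hdisj : Disjoint (cedges G κ Γ (B ∪ D.image φ)) E := by
      rw [Finset.disjoint_left]
      intro e he he'
      rw [mem_cedges] at he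
      obtain ⟨x, hx, hxΓ⟩ := he.2
      rcases hE3 e he' x hx with h | ⟨v, hv, rfl⟩
      · exact Finset.disjoint_left.1 c1.1.2 hxΓ h
      · exact Finset.disjoint_left.1 c1.2 hxΓ (Finset.mem_image_of_mem _ (hJ hv))
    calc sInf {n | ∃ p : V → Bool, n = M * g (D.piecewise p κ) +
          ∑ v ∈ J, same (D.piecewise p κ) v (T v)}
        ≤ M * g (D.piecewise (κ ∘ φ) κ) + ∑ v ∈ J, same (D.piecewise (κ ∘ φ) κ) v (T v) := hle
      _ = M * g (κ ∘ φ) + ∑ v ∈ J, same κ (φ v) (T v) := by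
          rw [hgeq, Finset.sum_congr rfl hsame]
      _ ≤ (cedges G κ Γ (B ∪ D.image φ)).card + E.card := by
          rw [hE2]
          exact Nat.add_le_add_right (c3 κ) _
      _ = (cedges G κ Γ (B ∪ D.image φ) ∪ E).card := (Finset.card_union_of_disjoint hdisj).symm
      _ ≤ _ := Finset.card_le_card (Finset.union_subset hsub hE1)

end Pool.Agent.H33
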