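import Mathlib
import Pool.Agent.H33.Gadget

set_option autoImplicit false

namespace Pool.Agent.H33

open Finset Cardinal

universe u

/-- rank function whose initial segments are closed under countably many operations -/
theorem exists_rank {V : Type u} (hV : ℵ₀ < #V) (F : (n : ℕ) → ℕ → (Fin n → V) → V) :
    ∃ (_ : LinearOrder V) (_ : WellFoundedLT V) (ρ : V → V), (∀ x, #{v // ρ v = x} < #V) ∧
      ∀ x, (∃ u, ρ u < x) → ∀ n i (a : Fin n → V), (∀ j, ρ (a j) < x) → ρ (F n i a) < x := by
  classical
  obtain ⟨lo, wf, hord⟩ := exists_ord_eq_type_lt V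
  let L : FirstOrder.Language.{0, 0} := ⟨fun _ => ℕ, fun _ => Empty⟩
  let str : L.Structure V := { funMap := fun {n} f x => F n f x, RelMap := fun {_} r => r.elim }
  let M : V → L.Substructure V := fun x => FirstOrder.Language.Substructure.closure L (Set.Iic x)
  have hMmono : ∀ x y, x ≤ y → ∀ v, v ∈ M x → v ∈ M y := by
    intro x y hxy v hv
    exact (FirstOrder.Language.Substructure.closure L).monotone (Set.Iic_subset_Iic.2 hxy) hv
  have hMself : ∀ v, v ∈ M v := fun v =>
    FirstOrder.Language.Substructure.subset_closure (Set.mem_Iic.2 le_rfl)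
  have hMF : ∀ x n i (a : Fin n → V), (∀ j, a j ∈ M x) → F n i a ∈ M x := by
    intro x n i a ha
    exact (M x).fun_mem (n := n) i a ha
  let ρ : V → V := fun v => wf.wf.min {x | v ∈ M x} ⟨v, hMself v⟩
  have hρmem : ∀ v, v ∈ M (ρ v) := fun v => wf.wf.min_mem {x | v ∈ M x} ⟨v, hMself v⟩
  have hρle : ∀ v x, v ∈ M x → ρ v ≤ x := by
    intro v x hx
    by_contra h
    push Not at h
    exact wf.wf.not_lt_min {x | v ∈ M x} hx h
  refine ⟨lo, wf, ρ, ?_, ?_⟩
  · intro x
    have h1 : #{v // ρ v = x} ≤ #(M x) :=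
      Cardinal.mk_le_of_injective (f := fun v => (⟨v.1, by
          have h0 := hρmem v.1
          rw [v.2] at h0
          exact h0⟩ : M x))
        (fun a b hab => by
          have := congrArg Subtype.val hab
          exact Subtype.ext this)
    have h2 : #(M x) ≤ max ℵ₀ (#(Set.Iic x) + ℵ₀) := by
      have h3 := FirstOrder.Language.Substructure.lift_card_closure_le (L := L) (s := Set.Iic x)
      have h4 : #(Σ i, L.Functions i) ≤ ℵ₀ := by
        have : Countable (Σ i, L.Functions i) := by
          change Countable (Σ _ : ℕ, ℕ)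
          infer_instance
        exact mk_le_aleph0
      have h5 : Cardinal.lift.{u, 0} #(Σ i, L.Functions i) ≤ ℵ₀ := by
        rw [← Cardinal.lift_aleph0.{u, 0}]
        exact Cardinal.lift_le.2 h4
      have h6 : Cardinal.lift.{0, u} #(M x) = #(M x) := Cardinal.lift_id'.{0, u} _
      have h7 : Cardinal.lift.{0, u} #(Set.Iic x) = #(Set.Iic x) := Cardinal.lift_id'.{0, u} _
      rw [h7] at h3
      rw [← h6]
      exact h3.trans (max_le_max le_rfl (add_le_add le_rfl h5))
    have h3 : #(Set.Iic x) < #V := by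
      have h4 : #(Set.Iio x) < #V := mk_Iio_lt x hord
      have h5 : #(Set.Iic x) ≤ #(Set.Iio x) + 1 := by
        rw [← Set.Iio_insert]
        exact mk_insert_le
      refine h5.trans_lt ?_
      exact Cardinal.add_lt_of_lt hV.le h4 (one_lt_aleph0.trans hV)
    refine (h1.trans h2).trans_lt ?_
    exact max_lt hV (Cardinal.add_lt_of_lt hV.le h3 hV)
  · rintro x ⟨u, hu⟩ n i a ha
    obtain ⟨y, hy, hmax⟩ := Finset.exists_max_image (insert (ρ u) (Finset.univ.image fun j => ρ (a j)))
      id ⟨_, Finset.mem_insert_self _ _⟩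
    have hyx : y < x := by
      rcases Finset.mem_insert.1 hy with rfl | hy
      · exact hu
      · obtain ⟨j, -, rfl⟩ := Finset.mem_image.1 hy
        exact ha j
    have h1 : ∀ j, a j ∈ M y := by
      intro j
      exact hMmono _ _ (hmax (ρ (a j)) (Finset.mem_insert_of_mem
        (Finset.mem_image_of_mem _ (Finset.mem_univ j)))) _ (hρmem (a j))
    exact (hρle _ _ (hMF y n i a h1)).trans_lt hyx

variable {V : Type u} [DecidableEq V] (G : SimpleGraph V)

/-- tuple version of realizability together with injectivity and adjacency pattern -/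
def QRel (n m : ℕ) (g : (Fin n ⊕ Fin m → Bool) → ℕ) (k : ℕ) (pat : Finset (Fin n × Fin m))
    (a : Fin n → V) (d : Fin m → V) : Prop :=
  Function.Injective d ∧
    Rlz G (Finset.univ.image (Sum.elim a d)) (fun κ => g (κ ∘ Sum.elim a d)) k ∧
    ∀ p ∈ pat, G.Adj (a p.1) (d p.2)

/-- index type of the closure operations -/
abbrev Idx (n : ℕ) : Type := Σ m : ℕ, ((Fin n ⊕ Fin m → Bool) → ℕ) × ℕ × Finset (Fin n × Fin m)

instance (n : ℕ) : Countable (Idx n) := by
  unfold Idx
  infer_instance

instance (n : ℕ) : Nonempty (Idx n) := ⟨⟨0, fun _ => 0, 0, ∅⟩⟩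

/-- finite hitting set if there is one -/
def HitP (n : ℕ) (idx : Idx n) (a : Fin n → V) (Z : Finset V) : Prop :=
  ∀ d : Fin idx.1 → V, QRel G n idx.1 idx.2.1 idx.2.2.1 idx.2.2.2 a d → ∃ y, d y ∈ Z

open Classical in
noncomputable def Hit (n : ℕ) (idx : Idx n) (a : Fin n → V) : Finset V :=
  if h : ∃ Z, HitP G n idx a Z then h.choose else ∅

theorem closedP_of_hit (N : Set V)
    (hN : ∀ n (idx : Idx n) (a : Fin n → V), (∀ j, a j ∈ N) → ∀ z ∈ Hit G n idx a, z ∈ N) :
    ClosedP G N := by
  classical
  intro B D g k hB hD hg hR Z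
  let eB := B.equivFin
  let eD := D.equivFin
  let a : Fin B.card → V := fun i => (eB.symm i : V)
  let d : Fin D.card → V := fun i => (eD.symm i : V)
  let ext : (Fin B.card ⊕ Fin D.card → Bool) → V → Bool := fun p v =>
    if h : v ∈ B then p (Sum.inl (eB ⟨v, h⟩)) else
      if h' : v ∈ D then p (Sum.inr (eD ⟨v, h'⟩)) else false
  let gt : (Fin B.card ⊕ Fin D.card → Bool) → ℕ := fun p => g (ext p)
  let pat : Finset (Fin B.card × Fin D.card) := Finset.univ.filter fun p => G.Adj (a p.1) (d p.2)
  have haB : ∀ i, a i ∈ B := fun i => (eB.symm i).2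
  have hdD : ∀ i, d i ∈ D := fun i => (eD.symm i).2
  have hBD : ∀ u ∈ B, u ∉ D := fun u hu hu' => hD u hu' (hB hu)
  have haidx : ∀ v (h : v ∈ B), a (eB ⟨v, h⟩) = v := fun v h => by simp [a]
  have hdidx : ∀ v (h : v ∈ D), d (eD ⟨v, h⟩) = v := fun v h => by simp [d]
  -- general computation
  have himg : ∀ d' : Fin D.card → V, Finset.univ.image (Sum.elim a d') =
      B ∪ Finset.univ.image d' := by
    intro d'
    ext x
    simp only [Finset.mem_image, Finset.mem_univ, true_and, Finset.mem_union, Sum.exists,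
      Sum.elim_inl, Sum.elim_inr]
    constructor
    · rintro (⟨i, rfl⟩ | h)
      · exact Or.inl (haB i)
      · exact Or.inr h
    · rintro (h | h)
      · exact Or.inl ⟨eB ⟨x, h⟩, haidx x h⟩
      · exact Or.inr h
  have himgd : Finset.univ.image d = D := by
    ext x
    simp only [Finset.mem_image, Finset.mem_univ, true_and]
    constructor
    · rintro ⟨i, rfl⟩; exact hdD i
    · intro h; exact ⟨eD ⟨x, h⟩, hdidx x h⟩
  have hQ : QRel G B.card D.card gt k pat a d := by
    refine ⟨?_, ?_, ?_⟩
    · intro i j hij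
      exact eD.symm.injective (Subtype.ext hij)
    · rw [himg, himgd]
      have : (fun κ : V → Bool => gt (κ ∘ Sum.elim a d)) = g := by
        funext κ
        apply hg
        intro b hb
        simp only [ext]
        by_cases h : b ∈ B
        · rw [dif_pos h]
          simp [haidx]
        · rw [dif_neg h]
          have h' : b ∈ D := by
            rcases Finset.mem_union.1 hb with h1 | h1
            · exact absurd h1 h
            · exact h1
          rw [dif_pos h']
          simp [hdidx]
      rw [this]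
      exact hR
    · intro p hp
      exact (Finset.mem_filter.1 hp).2
  let idx : Idx B.card := ⟨D.card, gt, k, pat⟩
  have hno : ¬ ∃ Z, HitP G B.card idx a Z := by
    intro hex
    have h1 : HitP G B.card idx a (Hit G B.card idx a) := by
      unfold Hit
      rw [dif_pos hex]
      exact hex.choose_spec
    obtain ⟨y, hy⟩ := h1 d hQ
    exact hD (d y) (hdD y) (hN _ idx a (fun j => hB (haB j)) _ hy)
  have hZ : ¬ HitP G B.card idx a Z := fun h => hno ⟨Z, h⟩
  unfold HitP at hZ
  push Not at hZ
  obtain ⟨d', hQ', hd'⟩ := hZ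
  change Fin D.card → V at d'
  change QRel G B.card D.card gt k pat a d' at hQ'
  let φ : V → V := fun v => if h : v ∈ D then d' (eD ⟨v, h⟩) else v
  have hφD : ∀ v (h : v ∈ D), φ v = d' (eD ⟨v, h⟩) := fun v h => by simp [φ, h]
  have hφB : ∀ v, v ∉ D → φ v = v := fun v h => by simp [φ, h]
  refine ⟨φ, fun u hu => hφB u (hBD u hu), ?_, ?_, ?_, ?_⟩
  · intro x hx y hy hxy
    rw [hφD x hx, hφD y hy] at hxy
    have := eD.injective (hQ'.1 hxy)
    exact congrArg Subtype.val this
  · intro v hv
    rw [hφD v hv]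
    exact hd' _
  · have h1 := hQ'.2.1
    rw [himg] at h1
    have h2 : Finset.univ.image d' = D.image φ := by
      ext x
      simp only [Finset.mem_image, Finset.mem_univ, true_and]
      constructor
      · rintro ⟨i, rfl⟩
        refine ⟨d i, hdD i, ?_⟩
        rw [hφD (d i) (hdD i)]
        congr 1
        simp [d]
      · rintro ⟨v, hv, rfl⟩
        exact ⟨eD ⟨v, hv⟩, (hφD v hv).symm⟩
    rw [h2] at h1
    have h3 : (fun κ : V → Bool => gt (κ ∘ Sum.elim a d')) = fun κ => g (κ ∘ φ) := by
      funext κ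
      apply hg
      intro b hb
      simp only [ext]
      by_cases h : b ∈ B
      · rw [dif_pos h]
        simp [haidx, hφB b (hBD b h)]
      · rw [dif_neg h]
        have h' : b ∈ D := by
          rcases Finset.mem_union.1 hb with h1 | h1
          · exact absurd h1 h
          · exact h1
        rw [dif_pos h']
        simp [hφD b h']
    rw [h3] at h1
    exact h1
  · intro u hu v hv huv
    rw [hφD v hv]
    have := hQ'.2.2 (eB ⟨u, hu⟩, eD ⟨v, hv⟩) (by
      simp only [pat, Finset.mem_filter, Finset.mem_univ, true_and]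
      rw [haidx, hdidx]
      exact huv)
    rwa [haidx] at this

/-- rank function with closed initial segments -/
theorem exists_closed_rank (hV : ℵ₀ < #V) :
    ∃ (_ : LinearOrder V) (_ : WellFoundedLT V) (ρ : V → V), (∀ x, #{v // ρ v = x} < #V) ∧
      ∀ x, (∃ u, ρ u < x) → ClosedP G {u | ρ u < x} := by
  classical
  have : Infinite V := by
    rw [Cardinal.infinite_iff]; exact hV.le
  have hsurj : ∀ n, ∃ e : ℕ → Idx n × ℕ, Function.Surjective e := fun n =>
    exists_surjective_nat _
  choose e he using hsurj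
  obtain ⟨v0⟩ : Nonempty V := inferInstance
  obtain ⟨lo, wf, ρ, h1, h2⟩ := exists_rank hV fun n i a =>
    ((Hit G n (e n i).1 a).toList).getD (e n i).2 v0
  refine ⟨lo, wf, ρ, h1, fun x hx => ?_⟩
  apply closedP_of_hit
  intro n idx a ha z hz
  have hz' : z ∈ (Hit G n idx a).toList := Finset.mem_toList.2 hz
  obtain ⟨j, hj, hjz⟩ := List.mem_iff_getElem.1 hz'
  obtain ⟨i, hi⟩ := he n (idx, j)
  have h3 := h2 x hx n i a ha
  rw [hi] at h3
  simp only [List.getD_eq_getElem?_getD, List.getElem?_eq_getElem hj, Option.getD_some, hjz] at h3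
  exact h3

end Pool.Agent.H33
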