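import Mathlib

set_option autoImplicit false

namespace Pool.Agent.H33

universe u

/-- gap lemma -/
theorem exists_gap {ι : Type u} (x : ι → ℝ) (hx : ∃ i, x i ≠ 0)
    (hfin : ∀ ε : ℝ, 0 < ε → {i | ε ≤ |x i|}.Finite) :
    ∃ r : ℚ, ∃ δ : ℝ, 0 < δ ∧ 0 < (r : ℝ) ∧ (∃ i, (r : ℝ) < |x i|) ∧
      ∀ i, |x i| ≤ r - δ ∨ r + δ ≤ |x i| := by
  obtain ⟨i0, hi0⟩ := hx
  have hpos : 0 < |x i0| := abs_pos.2 hi0
  set r0 := |x i0| / 2 with hr0
  have hr0pos : 0 < r0 := by positivity
  have hF := hfin r0 hr0pos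
  set F := hF.toFinset with hFdef
  -- infinitely many rationals in (r0, |x i0|)
  have hinf : ∃ r : ℚ, r0 < (r : ℝ) ∧ (r : ℝ) < |x i0| ∧ ∀ i ∈ F, |x i| ≠ r := by
    have h1 : (Set.Ioo r0 |x i0| ∩ Set.range ((↑) : ℚ → ℝ)).Infinite := by
      intro hfi
      -- use density repeatedly
      have hlt : r0 < |x i0| := by rw [hr0]; linarith
      -- the set is finite, nonempty; take the minimum
      obtain ⟨q, hq1, hq2⟩ := exists_rat_btwn hlt
      obtain ⟨m, hm, hmin⟩ := hfi.exists_minimal ⟨(q:ℝ), ⟨hq1, hq2⟩, ⟨q, rfl⟩⟩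
      obtain ⟨q', h1', h2'⟩ := exists_rat_btwn hm.1.1
      have := hmin (y := (q' : ℝ)) ⟨⟨h1', h2'.trans hm.1.2⟩, ⟨q', rfl⟩⟩ h2'.le
      exact absurd h2' (not_lt.2 this)
    have h2 : ((F.image fun i => |x i|) : Set ℝ).Finite := Finset.finite_toSet _
    obtain ⟨y, hy1, hy2⟩ := (h1.sdiff h2).nonempty
    obtain ⟨r, rfl⟩ := hy1.2
    refine ⟨r, hy1.1.1, hy1.1.2, fun i hi he => hy2 ?_⟩
    rw [Finset.mem_coe, Finset.mem_image]
    exact ⟨i, hi, he⟩
  obtain ⟨r, hr1, hr2, hr3⟩ := hinf
  have hi0F : i0 ∈ F := by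
    rw [hFdef, Set.Finite.mem_toFinset]
    change r0 ≤ |x i0|
    rw [hr0]; linarith
  obtain ⟨j, hj, hjmin⟩ := F.exists_min_image (fun i => abs (|x i| - r)) ⟨i0, hi0F⟩
  have hjpos : 0 < abs (|x j| - r) := abs_pos.2 (sub_ne_zero.2 (hr3 j hj))
  refine ⟨r, min (r - r0) (abs (|x j| - r)), lt_min (by linarith) hjpos, by linarith,
    ⟨i0, hr2⟩, fun i => ?_⟩
  by_cases hi : i ∈ F
  · have h1 := hjmin i hi
    have h2 := min_le_right ((r:ℝ) - r0) (abs (|x j| - r))
    rcases le_total (|x i|) r with h3 | h3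
    · left
      rw [abs_of_nonpos (by linarith : |x i| - r ≤ 0)] at h1
      linarith
    · right
      rw [abs_of_nonneg (by linarith : 0 ≤ |x i| - r)] at h1
      linarith
  · left
    have h1 : ¬ r0 ≤ |x i| := by
      intro h
      apply hi
      rw [hFdef, Set.Finite.mem_toFinset]
      exact h
    have h2 := min_le_left ((r:ℝ) - r0) (abs (|x j| - r))
    push Not at h1
    linarith

/-- A Hilbert space has a countable colouring in which no nonzero `x` is in the closure of
the antipodes of its own class. -/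
theorem exists_coloring_hilbert (E : Type u) [NormedAddCommGroup E] [InnerProductSpace ℝ E]
    [CompleteSpace E] :
    ∃ c : E → ℚ × Bool, ∀ x : E, x ≠ 0 → ∃ δ : ℝ, 0 < δ ∧ ∀ y, ‖x + y‖ < δ → c y ≠ c x := by
  classical
  obtain ⟨w, b, -⟩ := exists_hilbertBasis ℝ E
  let co : E → w → ℝ := fun x i => inner ℝ (b i) x
  have hco_add : ∀ x y i, co (x + y) i = co x i + co y i := fun x y i => inner_add_right _ _ _
  have hco_le : ∀ x i, |co x i| ≤ ‖x‖ := by
    intro x i
    have h1 := abs_real_inner_le_norm (b i) x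
    rwa [b.orthonormal.norm_eq_one i, one_mul] at h1
  have hfin : ∀ x, ∀ ε : ℝ, 0 < ε → {i | ε ≤ |co x i|}.Finite := by
    intro x ε hε
    have hs := b.orthonormal.inner_products_summable x
    have ht := hs.tendsto_cofinite_zero
    have hev := ht.eventually (gt_mem_nhds (show (0:ℝ) < ε ^ 2 by positivity))
    rw [Filter.eventually_cofinite] at hev
    refine hev.subset fun i hi => ?_
    change ¬ (‖inner ℝ (b i) x‖ ^ 2 < ε ^ 2)
    have hi' : ε ≤ |co x i| := hi
    rw [not_lt, Real.norm_eq_abs]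
    exact pow_le_pow_left₀ hε.le hi' 2
  have hne : ∀ x : E, x ≠ 0 → ∃ i, co x i ≠ 0 := by
    intro x hx
    by_contra h
    push Not at h
    apply hx
    have : b.repr x = 0 := by
      ext i
      rw [b.repr_apply_apply]
      simpa using h i
    exact b.repr.map_eq_zero_iff.1 this
  -- choose thresholds
  have hgap : ∀ x : E, ∃ r : ℚ, x ≠ 0 → ∃ δ : ℝ, 0 < δ ∧ 0 < (r : ℝ) ∧ (∃ i, (r : ℝ) < |co x i|) ∧
      ∀ i, |co x i| ≤ r - δ ∨ r + δ ≤ |co x i| := by
    intro x
    by_cases hx : x = 0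
    · exact ⟨0, fun h => absurd hx h⟩
    · obtain ⟨r, h⟩ := exists_gap (co x) (hne x hx) (hfin x)
      exact ⟨r, fun _ => h⟩
  choose r hr using hgap
  let T : ℚ → E → Set w := fun q x => {i | (q : ℝ) < |co x i|}
  let sg : ℚ → E → Bool := fun q x => if h : (T q x).Nonempty then decide (0 < co x h.some) else false
  refine ⟨fun x => (r x, sg (r x) x), fun x hx => ?_⟩
  obtain ⟨δ, hδ, hr0, ⟨i0, hi0⟩, hi⟩ := hr x hx
  refine ⟨δ, hδ, fun y hy heq => ?_⟩
  simp only [Prod.mk.injEq] at heq
  obtain ⟨h1, h2⟩ := heq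
  rw [h1] at h2
  have hclose : ∀ i, |co x i + co y i| < δ := by
    intro i
    rw [← hco_add]
    exact lt_of_le_of_lt (hco_le _ _) hy
  have hT : T (r x) y = T (r x) x := by
    ext i
    change ((r x : ℝ) < |co y i|) ↔ ((r x : ℝ) < |co x i|)
    have hc := hclose i
    have e1 : |co y i| ≤ |co x i + co y i| + |co x i| := by
      have := abs_sub (co x i + co y i) (co x i)
      have e : co x i + co y i - co x i = co y i := by ring
      rw [e] at this
      exact this
    have e2 : |co x i| ≤ |co x i + co y i| + |co y i| := by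
      have := abs_sub (co x i + co y i) (co y i)
      have e : co x i + co y i - co y i = co x i := by ring
      rw [e] at this
      exact this
    rcases hi i with h | h
    · constructor
      · intro h3; linarith
      · intro h3; linarith
    · constructor
      · intro h3; linarith
      · intro h3; linarith
  have hTne : (T (r x) x).Nonempty := ⟨i0, hi0⟩
  have hsx : sg (r x) x = decide (0 < co x hTne.some) := by
    simp only [sg]
    rw [dif_pos hTne]
  have hsy : sg (r x) y = decide (0 < co y hTne.some) := by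
    simp only [sg]
    have hTy : (T (r x) y).Nonempty := by rw [hT]; exact hTne
    rw [dif_pos hTy]
    have : hTy.some = hTne.some := by
      congr 1
    rw [this]
  rw [hsx, hsy] at h2
  set e := hTne.some with he
  have heT : (r x : ℝ) < |co x e| := hTne.some_mem
  have hlarge : r x + δ ≤ |co x e| := by
    rcases hi e with h | h
    · linarith
    · exact h
  have hc := hclose e
  rw [abs_lt] at hc
  rcases le_total 0 (co x e) with h3 | h3
  · rw [abs_of_nonneg h3] at hlarge
    have hx1 : 0 < co x e := by linarith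
    have hy1 : ¬ 0 < co y e := by linarith
    simp [hx1, hy1] at h2
  · rw [abs_of_nonpos h3] at hlarge
    have hx1 : ¬ 0 < co x e := by linarith
    have hy1 : 0 < co y e := by linarith
    simp [hx1, hy1] at h2

end Pool.Agent.H33
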