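import Mathlib
import Pool.Agent.H33.Kernel
import Pool.Agent.H33.HilbertColor

set_option autoImplicit false

namespace Pool.Agent.H33

universe u v

/-- greedy colouring along a well-founded rank with finite out-degrees -/
theorem exists_greedy {V : Type u} {O : Type v} [LinearOrder O] [WellFoundedLT O]
    (ρ : V → O) (H : V → Set V) (hH : ∀ v, (H v).Finite) (hρ : ∀ v, ∀ u ∈ H v, ρ u < ρ v) :
    ∃ g : V → ℕ, ∀ v, ∀ u ∈ H v, g u ≠ g v := by
  classical
  have hwf : WellFounded (fun u v : V => ρ u < ρ v) := InvImage.wf ρ wellFounded_lt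
  let F : (v : V) → ((u : V) → ρ u < ρ v → ℕ) → ℕ := fun v rec =>
    sInf {n | ∀ u (hu : u ∈ H v), rec u (hρ v u hu) ≠ n}
  refine ⟨hwf.fix F, fun v u hu => ?_⟩
  have h1 : hwf.fix F v = sInf {n | ∀ u, u ∈ H v → hwf.fix F u ≠ n} := by
    rw [hwf.fix_eq]
  have hne : {n | ∀ u, u ∈ H v → hwf.fix F u ≠ n}.Nonempty := by
    obtain ⟨n, hn⟩ := ((hH v).image (hwf.fix F)).infinite_compl.nonempty
    exact ⟨n, fun u hu he => hn ⟨u, hu, he⟩⟩
  have h2 := Nat.sInf_mem hne
  rw [← h1] at h2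
  exact h2 u hu

theorem cross_coloring {V : Type u} {O : Type v} [LinearOrder O] [WellFoundedLT O]
    (G : SimpleGraph V) (ρ : V → O) (X : V → V → ℝ) (hX : PSDKernel X) (hdiag : ∀ v, X v v = 1)
    (C : ℝ)
    (h : ∀ v, {u | G.Adj u v ∧ ρ u < ρ v}.Finite ∨
      ∀ T : Finset V, (∀ u ∈ T, G.Adj u v ∧ ρ u < ρ v) → ∑ u ∈ T, (1 + X u v) ≤ C) :
    ∃ c : V → ℕ, ∀ u v, G.Adj u v → ρ u < ρ v → c u ≠ c v := by
  classical
  obtain ⟨E, _, _, _, f, hf⟩ := exists_hilbert hX
  obtain ⟨col, hcol⟩ := exists_coloring_hilbert E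
  let H : V → Set V := fun v => {u | G.Adj u v ∧ ρ u < ρ v ∧ col (f u) = col (f v)}
  have hH : ∀ v, (H v).Finite := by
    intro v
    rcases h v with h1 | h1
    · exact h1.subset fun u hu => ⟨hu.1, hu.2.1⟩
    · by_contra hinf
      have hinf : (H v).Infinite := hinf
      have hfv : f v ≠ 0 := by
        intro h0
        have := hf v v
        rw [h0, inner_zero_left, hdiag] at this
        exact zero_ne_one this
      obtain ⟨δ, hδ, hδ2⟩ := hcol (f v) hfv
      obtain ⟨N, hN⟩ := exists_nat_gt (2 * C / δ ^ 2)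
      obtain ⟨T, hT, hTc⟩ := hinf.exists_subset_card_eq N
      have h2 := h1 T (fun u hu => ⟨(hT hu).1, (hT hu).2.1⟩)
      have h3 : ∀ u ∈ T, δ ^ 2 / 2 ≤ 1 + X u v := by
        intro u hu
        have h4 : δ ≤ ‖f v + f u‖ := by
          by_contra h5
          push Not at h5
          exact hδ2 (f u) h5 (hT hu).2.2
        have h5 : ‖f v + f u‖ ^ 2 = 2 + 2 * X u v := by
          rw [← real_inner_self_eq_norm_sq, inner_add_left, inner_add_right, inner_add_right,
            hf, hf, hf, hf, hdiag, hdiag, hX.symm v u]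
          ring
        have h6 : δ ^ 2 ≤ ‖f v + f u‖ ^ 2 := pow_le_pow_left₀ hδ.le h4 2
        linarith
      have h7 : (T.card : ℝ) * (δ ^ 2 / 2) ≤ ∑ u ∈ T, (1 + X u v) := by
        rw [← nsmul_eq_mul]
        exact Finset.card_nsmul_le_sum T _ _ h3
      rw [hTc] at h7
      rw [div_lt_iff₀ (by positivity)] at hN
      linarith
  obtain ⟨g, hg⟩ := exists_greedy ρ H hH (fun v u hu => hu.2.1)
  obtain ⟨enc, henc⟩ := exists_injective_nat ((ℚ × Bool) × ℕ)
  refine ⟨fun v => enc (col (f v), g v), fun u v huv hlt heq => ?_⟩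
  have h1 := henc heq
  simp only [Prod.mk.injEq] at h1
  exact hg v u ⟨huv, hlt, Prod.ext_iff.2 ⟨congrArg Prod.fst h1.1, congrArg Prod.snd h1.1⟩⟩ h1.2

end Pool.Agent.H33
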