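import Mathlib
import Pool.Agent.H33.Gadget

set_option autoImplicit false

namespace Pool.Agent.H33

open Finset

universe u v

variable {V : Type u} [DecidableEq V] {G : SimpleGraph V}

/-- total weight of elements with rank in `J` -/
def wt {O : Type v} [DecidableEq O] (ρ : V → O) (I : Finset V) (w : V → ℕ) (J : Finset O) : ℕ :=
  ∑ v ∈ I.filter fun v => ρ v ∈ J, w v

/-- The main deterministic lemma: weighted demands can be met on average. -/
theorem demands [Infinite V] {O : Type v} [LinearOrder O] {C : ℕ} (hC : Hyp G C) (ρ : V → O)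
    (hcl : ∀ x : O, (∃ u, ρ u < x) → ClosedP G {u | ρ u < x})
    (I : Finset V) (T : V → Finset V)
    (hI : ∀ v ∈ I, {u | G.Adj u v ∧ ρ u < ρ v}.Infinite ∧
      ∀ u ∈ T v, G.Adj u v ∧ ρ u < ρ v) (w : V → ℕ) :
    ∃ κ : V → Bool, ∑ v ∈ I, w v * same κ v (T v) ≤ C * ∑ v ∈ I, w v := by
  classical
  set L : ℕ := C * (∑ v ∈ I, w v + 1) with hL
  have key : ∀ J : Finset O, J ⊆ I.image ρ → ∀ E : ℕ, 1 ≤ E → ∃ P : ℕ, 1 ≤ P ∧
      ∃ (B : Finset V) (g : (V → Bool) → ℕ) (k : ℕ), (∀ b ∈ B, ∀ θ ∈ J, ρ b < θ) ∧ Dep g B ∧
      Rlz G B g k ∧ E * k ≤ P * (E * wt ρ I w J + 1) ∧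
      ∀ κ : V → Bool, g κ ≤ L * P → ∃ κ' : V → Bool, (∀ u, (∀ θ ∈ J, ρ u < θ) → κ' u = κ u) ∧
        P * ∑ v ∈ I.filter fun v => ρ v ∈ J, w v * same κ' v (T v) ≤ g κ := by
    intro J
    induction J using Finset.induction_on_min with
    | empty =>
      intro _ E hE
      refine ⟨1, le_rfl, ∅, fun _ => 0, 0, by simp, fun _ _ _ => rfl, Rlz.zero _, by simp,
        fun κ _ => ⟨κ, fun _ _ => rfl, by simp⟩⟩
    | insert a s has ih =>
      intro hJ E hE
      have has' : a ∉ s := fun h => lt_irrefl _ (has a h)
      have haI : a ∈ I.image ρ := hJ (Finset.mem_insert_self _ _)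
      have hsI : s ⊆ I.image ρ := fun x hx => hJ (Finset.mem_insert_of_mem hx)
      obtain ⟨P, hP, B, g, k, hB, hDep, hR, hk, hprop⟩ := ih hsI (2 * E) (by omega)
      -- the closed set
      set N : Set V := {u | ρ u < a} with hN
      have hclN : ClosedP G N := by
        apply hcl
        obtain ⟨v0, hv0, hv0a⟩ := Finset.mem_image.1 haI
        obtain ⟨u, hu⟩ := (hI v0 hv0).1.nonempty
        exact ⟨u, hv0a ▸ hu.2⟩
      set Ia : Finset V := I.filter fun v => ρ v = a with hIa
      set D : Finset V := (B.filter fun b => ¬ ρ b < a) ∪ Ia with hD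
      set M : ℕ := 2 * E * D.card + 1 with hM
      have hM1 : 1 ≤ M := by omega
      -- enlarged hubs
      have hT' : ∀ v : V, ∃ T' : Finset V, v ∈ Ia → (T v ⊆ T' ∧
          (∀ u ∈ T', G.Adj u v ∧ ρ u < a) ∧ 2 * (L * (M * P)) ≤ T'.card) := by
        intro v
        by_cases hv : v ∈ Ia
        · rw [hIa, Finset.mem_filter] at hv
          obtain ⟨F, hF1, hF2⟩ := (hI v hv.1).1.exists_subset_card_eq (2 * (L * (M * P)))
          refine ⟨T v ∪ F, fun _ => ⟨Finset.subset_union_left, ?_, ?_⟩⟩
          · intro u hu
            rcases Finset.mem_union.1 hu with h | h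
            · have := (hI v hv.1).2 u h
              exact ⟨this.1, hv.2 ▸ this.2⟩
            · have := hF1 h
              exact ⟨this.1, hv.2 ▸ this.2⟩
          · rw [← hF2]
            exact Finset.card_le_card Finset.subset_union_right
        · exact ⟨∅, fun h => absurd h hv⟩
      choose T' hT' using hT'
      set B' : Finset V := (B.filter fun b => ρ b < a) ∪ Ia.biUnion T' with hB'
      have hB'N : (B' : Set V) ⊆ N := by
        intro u hu
        rw [Finset.mem_coe, hB', Finset.mem_union] at hu
        rcases hu with h | h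
        · exact (Finset.mem_filter.1 h).2
        · rw [Finset.mem_biUnion] at h
          obtain ⟨v, hv, hu⟩ := h
          exact ((hT' v hv).2.1 u hu).2
      have hDN : ∀ v ∈ D, v ∉ N := by
        intro v hv
        rw [hD, Finset.mem_union] at hv
        rcases hv with h | h
        · exact (Finset.mem_filter.1 h).2
        · rw [hIa, Finset.mem_filter] at h
          change ¬ (ρ v < a)
          rw [h.2]; exact lt_irrefl _
      have hBsub : B ⊆ B' ∪ D := by
        intro b hb
        by_cases h : ρ b < a
        · exact Finset.mem_union_left _ (Finset.mem_union_left _ (Finset.mem_filter.2 ⟨hb, h⟩))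
        · exact Finset.mem_union_right _ (Finset.mem_union_left _ (Finset.mem_filter.2 ⟨hb, h⟩))
      have hDep' : Dep g (B' ∪ D) := fun κ κ' h => hDep κ κ' fun b hb => h b (hBsub hb)
      have hR1 := elim hclN hB'N hDN (J := Ia) (by rw [hD]; exact Finset.subset_union_right) T'
        (fun v hv => by
          intro u hu
          exact Finset.mem_union_right _ (Finset.mem_biUnion.2 ⟨v, hv, hu⟩))
        (fun v hv u hu => ((hT' v hv).2.1 u hu).1) hDep' (hR.mono hBsub) M
      have hR2 : Rlz G B' (fun κ => ∑ v ∈ Ia, (M * P * w v) * minor (T' v) κ)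
          (∑ v ∈ Ia, (M * P * w v) * 1) := by
        apply Rlz.sum Ia (fun v κ => (M * P * w v) * minor (T' v) κ) (fun v => (M * P * w v) * 1)
        intro v hv
        have h1 : Rlz G (T' v) (minor (T' v)) 1 := by
          refine leaf hclN (v := v) ?_ ?_ ?_
          · intro u hu
            exact ((hT' v hv).2.1 u hu).2
          · rw [hIa, Finset.mem_filter] at hv
            change ¬ (ρ v < a)
            rw [hv.2]; exact lt_irrefl _
          · exact fun u hu => ((hT' v hv).2.1 u hu).1
        exact (h1.mono (fun u hu => Finset.mem_union_right _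
          (Finset.mem_biUnion.2 ⟨v, hv, hu⟩))).mul _
      have hR3 := hR1.add hR2
      have hwt : wt ρ I w (insert a s) = ∑ v ∈ Ia, w v + wt ρ I w s := by
        unfold wt
        rw [hIa, ← Finset.sum_union]
        · congr 1
          ext v
          simp only [Finset.mem_filter, Finset.mem_insert, Finset.mem_union]
          tauto
        · rw [Finset.disjoint_left]
          intro v hv hv'
          rw [Finset.mem_filter] at hv hv'
          rw [hv.2] at hv'
          exact has' hv'.2
      refine ⟨M * P, Nat.one_le_iff_ne_zero.2 (by positivity), B', _, _, ?_, ?_, hR3, ?_, ?_⟩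
      · intro b hb θ hθ
        have hba : ρ b < a := hB'N hb
        rcases Finset.mem_insert.1 hθ with rfl | hθ
        · exact hba
        · exact hba.trans (has θ hθ)
      · -- dependence
        intro κ κ' hκ
        have h1 : ∀ p : V → Bool, g (D.piecewise p κ) = g (D.piecewise p κ') := by
          intro p
          apply hDep'
          intro b hb
          by_cases hbD : b ∈ D
          · rw [Finset.piecewise_eq_of_mem _ _ _ hbD, Finset.piecewise_eq_of_mem _ _ _ hbD]
          · rw [Finset.piecewise_eq_of_notMem _ _ _ hbD, Finset.piecewise_eq_of_notMem _ _ _ hbD]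
            rcases Finset.mem_union.1 hb with h | h
            · exact hκ b h
            · exact absurd h hbD
        have h2 : ∀ p : V → Bool, ∀ v ∈ Ia, same (D.piecewise p κ) v (T' v) =
            same (D.piecewise p κ') v (T' v) := by
          intro p v hv
          have hvD : v ∈ D := Finset.mem_union_right _ hv
          unfold same
          congr 1
          apply Finset.filter_congr
          intro u hu
          have huB : u ∈ B' := Finset.mem_union_right _ (Finset.mem_biUnion.2 ⟨v, hv, hu⟩)
          have huD : u ∉ D := fun h => hDN u h (hB'N huB)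
          rw [Finset.piecewise_eq_of_mem _ _ _ hvD, Finset.piecewise_eq_of_mem _ _ _ hvD,
            Finset.piecewise_eq_of_notMem _ _ _ huD, Finset.piecewise_eq_of_notMem _ _ _ huD,
            hκ u huB]
        have h3 : ∀ v ∈ Ia, minor (T' v) κ = minor (T' v) κ' := by
          intro v hv
          apply minor_dep
          intro u hu
          exact hκ u (Finset.mem_union_right _ (Finset.mem_biUnion.2 ⟨v, hv, hu⟩))
        have e1 : (fun p : V → Bool => M * g (D.piecewise p κ) +
            ∑ v ∈ Ia, same (D.piecewise p κ) v (T' v)) = fun p => M * g (D.piecewise p κ') +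
            ∑ v ∈ Ia, same (D.piecewise p κ') v (T' v) := by
          ext p
          rw [h1 p, Finset.sum_congr rfl (h2 p)]
        have e2 : {n | ∃ p : V → Bool, n = M * g (D.piecewise p κ) +
            ∑ v ∈ Ia, same (D.piecewise p κ) v (T' v)} = {n | ∃ p : V → Bool,
            n = M * g (D.piecewise p κ') + ∑ v ∈ Ia, same (D.piecewise p κ') v (T' v)} := by
          ext n
          constructor
          · rintro ⟨p, hp⟩
            exact ⟨p, hp.trans (congrFun e1 p)⟩
          · rintro ⟨p, hp⟩
            exact ⟨p, hp.trans (congrFun e1 p).symm⟩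
        change sInf _ + _ = sInf _ + _
        rw [e2, Finset.sum_congr rfl fun v hv => by rw [h3 v hv]]
      · -- counting
        have h1 : ∑ v ∈ Ia, (M * P * w v) * 1 = M * P * ∑ v ∈ Ia, w v := by
          rw [Finset.mul_sum]
          exact Finset.sum_congr rfl fun v _ => by ring
        rw [h1, hwt]
        have h2 : 2 * E * D.card ≤ M * P := by
          calc 2 * E * D.card ≤ M := by omega
            _ = M * 1 := (Nat.mul_one _).symm
            _ ≤ M * P := Nat.mul_le_mul_left _ hP
        have h3 : M * (2 * E * k) ≤ M * (P * (2 * E * wt ρ I w s + 1)) := Nat.mul_le_mul_left _ hk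
        have h4 : 2 * (E * (D.card + M * k + M * P * ∑ v ∈ Ia, w v)) ≤
            2 * (M * P * (E * (∑ v ∈ Ia, w v + wt ρ I w s) + 1)) := by
          calc 2 * (E * (D.card + M * k + M * P * ∑ v ∈ Ia, w v))
              = 2 * E * D.card + M * (2 * E * k) + 2 * E * (M * P) * ∑ v ∈ Ia, w v := by ring
            _ ≤ M * P + M * (P * (2 * E * wt ρ I w s + 1)) + 2 * E * (M * P) * ∑ v ∈ Ia, w v := by
              gcongr
            _ = 2 * (M * P * (E * (∑ v ∈ Ia, w v + wt ρ I w s) + 1)) := by ring
        exact Nat.le_of_mul_le_mul_left h4 (by norm_num)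
      · -- main property
        intro κ hκ
        have hne : {n | ∃ p : V → Bool, n = M * g (D.piecewise p κ) +
            ∑ v ∈ Ia, same (D.piecewise p κ) v (T' v)}.Nonempty := ⟨_, fun _ => true, rfl⟩
        obtain ⟨p, hp⟩ := Nat.sInf_mem hne
        set κ₁ := D.piecewise p κ with hκ₁
        rw [hp] at hκ
        have hg1 : g κ₁ ≤ L * P := by
          have h1 : M * g κ₁ ≤ M * (L * P) := by
            calc M * g κ₁ ≤ _ := by
                  refine le_trans ?_ hκ
                  rw [Nat.add_assoc]
                  exact Nat.le_add_right _ _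
              _ = M * (L * P) := by ring
          exact Nat.le_of_mul_le_mul_left h1 (by omega)
        obtain ⟨κ₂, hκ₂, hsum⟩ := hprop κ₁ hg1
        have hagree : ∀ u, ρ u < a → κ₁ u = κ u := by
          intro u hu
          rw [hκ₁, Finset.piecewise_eq_of_notMem]
          exact fun h => hDN u h hu
        refine ⟨κ₂, ?_, ?_⟩
        · intro u hu
          have hua : ρ u < a := hu a (Finset.mem_insert_self _ _)
          rw [hκ₂ u fun θ hθ => hu θ (Finset.mem_insert_of_mem hθ), hagree u hua]
        · -- split the sum
          have hsplit : (I.filter fun v => ρ v ∈ insert a s) = Ia ∪ I.filter fun v => ρ v ∈ s := by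
            rw [hIa]
            ext v
            simp only [Finset.mem_filter, Finset.mem_insert, Finset.mem_union]
            tauto
          have hdisj : Disjoint Ia (I.filter fun v => ρ v ∈ s) := by
            rw [Finset.disjoint_left]
            intro v hv hv'
            rw [hIa, Finset.mem_filter] at hv
            rw [Finset.mem_filter] at hv'
            rw [hv.2] at hv'
            exact has' hv'.2
          rw [hsplit, Finset.sum_union hdisj, Nat.mul_add]
          have hpart1 : M * P * ∑ v ∈ Ia, w v * same κ₂ v (T v) ≤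
              ∑ v ∈ Ia, (M * P * w v) * minor (T' v) κ := by
            rw [Finset.mul_sum]
            refine Finset.sum_le_sum fun v hv => ?_
            have hle : same κ₂ v (T v) ≤ minor (T' v) κ := by
              obtain ⟨hsub, hhub, hcard⟩ := hT' v hv
              have hva : ρ v = a := by
                rw [hIa, Finset.mem_filter] at hv
                exact hv.2
              have h1 : same κ₂ v (T v) ≤ same κ₂ v (T' v) := by
                unfold same
                exact Finset.card_le_card (Finset.filter_subset_filter _ hsub)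
              have h2 : same κ₂ v (T' v) = same κ₁ v (T' v) := by
                unfold same
                congr 1
                apply Finset.filter_congr
                intro u hu
                rw [hκ₂ u fun θ hθ => ((hhub u hu).2).trans (has θ hθ),
                  hκ₂ v fun θ hθ => by rw [hva]; exact has θ hθ]
              have h3 : same κ₁ v (T' v) ≤ L * (M * P) := by
                calc same κ₁ v (T' v) ≤ ∑ v ∈ Ia, same κ₁ v (T' v) :=
                      Finset.single_le_sum (f := fun v => same κ₁ v (T' v))
                        (fun _ _ => Nat.zero_le _) hv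
                  _ ≤ _ := by
                    refine le_trans ?_ hκ
                    exact le_trans (Nat.le_add_left _ _) (Nat.le_add_right _ _)
              have h4 : same κ₁ v (T' v) ≤ minor (T' v) κ₁ := by
                apply same_le_minor
                calc 2 * same κ₁ v (T' v) ≤ 2 * (L * (M * P)) := Nat.mul_le_mul_left _ h3
                  _ ≤ _ := hcard
              have h5 : minor (T' v) κ₁ = minor (T' v) κ :=
                minor_dep _ fun u hu => hagree u (hhub u hu).2
              omega
            calc M * P * (w v * same κ₂ v (T v)) = (M * P * w v) * same κ₂ v (T v) := by ring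
              _ ≤ _ := Nat.mul_le_mul_left _ hle
          have hpart2 : M * P * ∑ v ∈ I.filter (fun v => ρ v ∈ s), w v * same κ₂ v (T v) ≤
              M * g κ₁ := by
            rw [Nat.mul_assoc]
            exact Nat.mul_le_mul_left _ hsum
          change _ ≤ sInf _ + _
          rw [hp]
          calc _ ≤ (∑ v ∈ Ia, (M * P * w v) * minor (T' v) κ) + M * g κ₁ :=
                Nat.add_le_add hpart1 hpart2
            _ ≤ _ := by omega
  -- conclude
  obtain ⟨P, hP, B, g, k, hB, hDep, hR, hk, hprop⟩ := key (I.image ρ) (Finset.Subset.refl _)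
    (C + 1) (by omega)
  have hwt : wt ρ I w (I.image ρ) = ∑ v ∈ I, w v := by
    unfold wt
    congr 1
    apply Finset.filter_true_of_mem
    intro v hv
    exact Finset.mem_image_of_mem _ hv
  rw [hwt] at hk
  set W := ∑ v ∈ I, w v with hW
  obtain ⟨κ, hκ⟩ := hR.bound hC
  have hkW : k ≤ P * (W + 1) := by
    have h1 : (C + 1) * k ≤ (C + 1) * (P * (W + 1)) := by
      calc (C + 1) * k ≤ P * ((C + 1) * W + 1) := hk
        _ ≤ P * ((C + 1) * W + (C + 1)) := by
            apply Nat.mul_le_mul_left; omega
        _ = (C + 1) * (P * (W + 1)) := by ring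
    exact Nat.le_of_mul_le_mul_left h1 (by omega)
  have hgL : g κ ≤ L * P := by
    calc g κ ≤ C * k := hκ
      _ ≤ C * (P * (W + 1)) := Nat.mul_le_mul_left _ hkW
      _ = L * P := by rw [hL]; ring
  obtain ⟨κ', -, hκ'⟩ := hprop κ hgL
  have hfil : (I.filter fun v => ρ v ∈ I.image ρ) = I :=
    Finset.filter_true_of_mem fun v hv => Finset.mem_image_of_mem _ hv
  rw [hfil] at hκ'
  refine ⟨κ', ?_⟩
  set Sg := ∑ v ∈ I, w v * same κ' v (T v) with hSg
  have h1 : P * ((C + 1) * Sg) ≤ P * (C * ((C + 1) * W + 1)) := by
    calc P * ((C + 1) * Sg) = (C + 1) * (P * Sg) := by ring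
      _ ≤ (C + 1) * g κ := Nat.mul_le_mul_left _ hκ'
      _ ≤ (C + 1) * (C * k) := Nat.mul_le_mul_left _ hκ
      _ = C * ((C + 1) * k) := by ring
      _ ≤ C * (P * ((C + 1) * W + 1)) := Nat.mul_le_mul_left _ hk
      _ = P * (C * ((C + 1) * W + 1)) := by ring
  have h2 : (C + 1) * Sg ≤ C * ((C + 1) * W + 1) := Nat.le_of_mul_le_mul_left h1 (by omega)
  have h3 : (C + 1) * Sg < (C + 1) * (C * W + 1) := by
    calc (C + 1) * Sg ≤ C * ((C + 1) * W + 1) := h2
      _ = (C + 1) * (C * W) + C := by ring
      _ < (C + 1) * (C * W) + (C + 1) := by omega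
      _ = (C + 1) * (C * W + 1) := by ring
  have h4 := Nat.lt_of_mul_lt_mul_left h3
  omega

end Pool.Agent.H33
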