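import Mathlib
import Pool.Agent.H33.Closure
import Pool.Agent.H33.Tree
import Pool.Agent.H33.Cross

set_option autoImplicit false

namespace Pool.Agent.H33

open Finset Cardinal

universe u

theorem Hyp.comap {V W : Type u} {G : SimpleGraph V} {C : ℕ} (h : Hyp G C) (f : W ↪ V) :
    Hyp (G.comap f) C := by
  classical
  intro N
  obtain ⟨n, hn, hW⟩ := h N
  refine ⟨n, hn, fun W' hW' => ?_⟩
  obtain ⟨κ, hκ⟩ := hW (W'.map f) (by rw [Finset.card_map]; exact hW')
  refine ⟨κ ∘ f, le_trans ?_ hκ⟩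
  refine Finset.card_le_card_of_injOn (Sym2.map f) ?_ ?_
  · intro e he
    rw [Finset.mem_coe, mem_medges] at he ⊢
    obtain ⟨h1, h2, h3⟩ := he
    refine ⟨?_, ?_, ?_⟩
    · intro x hx
      rw [Sym2.mem_map] at hx
      obtain ⟨y, hy, rfl⟩ := hx
      exact Finset.mem_map_of_mem _ (h1 y hy)
    · induction e using Sym2.ind with
      | _ x y =>
        rw [Sym2.map_mk, SimpleGraph.mem_edgeSet]
        rw [SimpleGraph.mem_edgeSet] at h2
        exact h2
    · intro x hx y hy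
      rw [Sym2.mem_map] at hx hy
      obtain ⟨x', hx', rfl⟩ := hx
      obtain ⟨y', hy', rfl⟩ := hy
      exact h3 x' hx' y' hy'
  · exact (Sym2.map.injective f.injective).injOn

/-- colouring of the cross edges -/
theorem cross_step {V : Type u} [DecidableEq V] [Infinite V] {O : Type u} [LinearOrder O]
    [WellFoundedLT O] {G : SimpleGraph V} {C : ℕ} (hC : Hyp G C) (ρ : V → O)
    (hcl : ∀ x : O, (∃ u, ρ u < x) → ClosedP G {u | ρ u < x}) :
    ∃ c : V → ℕ, ∀ u v, G.Adj u v → ρ u < ρ v → c u ≠ c v := by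
  obtain ⟨X, hX, hXS⟩ := exists_kernel (C : ℝ) {v | {u | G.Adj u v ∧ ρ u < ρ v}.Infinite}
    (fun v => {u | G.Adj u v ∧ ρ u < ρ v}) (by
      intro I T hIT w
      obtain ⟨κ', hκ'⟩ := demands hC ρ hcl I T (fun v hv => ⟨(hIT v hv).1, fun u hu =>
        (hIT v hv).2 (Finset.mem_coe.2 hu)⟩) w
      refine ⟨κ', ?_⟩
      exact_mod_cast hκ')
  refine cross_coloring G ρ X (admK_psd hX) hX.2.1 (2 * C) ?_
  intro v
  by_cases hv : {u | G.Adj u v ∧ ρ u < ρ v}.Finite
  · exact Or.inl hv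
  · right
    intro T hT
    exact hXS v hv T (fun u hu => hT u (Finset.mem_coe.1 hu))

/-- Main theorem: linear bipartite deficiency for infinitely many sizes implies countable
chromatic number. -/
theorem countable_coloring (C : ℕ) : ∀ (κ : Cardinal.{u}) (V : Type u), #V = κ →
    ∀ G : SimpleGraph V, Hyp G C → ∃ c : V → ℕ, ∀ u v, G.Adj u v → c u ≠ c v := by
  intro κ
  induction κ using Cardinal.lt_wf.induction with
  | _ κ ih =>
  intro V hV G hC
  rcases le_or_gt (#V) ℵ₀ with hc | hunc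
  · have : Countable V := mk_le_aleph0_iff.1 hc
    obtain ⟨f, hf⟩ := exists_injective_nat V
    exact ⟨f, fun u v huv h => huv.ne (hf h)⟩
  have hinf : Infinite V := by
    rw [Cardinal.infinite_iff]; exact hunc.le
  obtain ⟨lo, wf, ρ, hfib, hcl⟩ := @exists_closed_rank V (Classical.decEq V) G hunc
  -- colouring of the fibres
  have hfibcol : ∀ x : V, ∃ c : {v // ρ v = x} → ℕ, ∀ u v, (G.comap Subtype.val).Adj u v →
      c u ≠ c v := by
    intro x
    exact ih _ (hV ▸ hfib x) {v // ρ v = x} rfl (G.comap Subtype.val)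
      (hC.comap (Function.Embedding.subtype _))
  choose cf hcf using hfibcol
  let c1 : V → ℕ := fun v => cf (ρ v) ⟨v, rfl⟩
  have hc1' : ∀ u x (h : ρ u = x), c1 u = cf x ⟨u, h⟩ := by
    intro u x h
    subst h
    rfl
  have hc1 : ∀ u v, G.Adj u v → ρ u = ρ v → c1 u ≠ c1 v := by
    intro u v huv hρ
    rw [hc1' u (ρ v) hρ]
    exact hcf (ρ v) ⟨u, hρ⟩ ⟨v, rfl⟩ huv
  obtain ⟨c2, hc2⟩ := @cross_step V (Classical.decEq V) hinf V lo wf G C hC ρ hcl
  obtain ⟨enc, henc⟩ := exists_injective_nat (ℕ × ℕ)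
  refine ⟨fun v => enc (c1 v, c2 v), fun u v huv heq => ?_⟩
  have h1 := henc heq
  simp only [Prod.mk.injEq] at h1
  rcases lt_trichotomy (ρ u) (ρ v) with h | h | h
  · exact hc2 u v huv h h1.2
  · exact hc1 u v huv h h1.1
  · exact hc2 v u huv.symm h h1.2.symm

end Pool.Agent.H33
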